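import Mathlib

/-! The divisor bound (copy of Pool/Agent/H75/EK/Pb3.lean, helper75). -/

open Finset
open scoped Real BigOperators

namespace Pool.Agent.H72.NL

theorem pb3_gen (K ε : ℝ) (hK : 1 ≤ K) (N0 : ℕ) (F : ℕ → ℝ) (q : ℕ) (hq : 1 ≤ q)
    (hF : ∀ p ∈ q.primeFactors, 0 ≤ F p ∧
      F p ≤ (if p < N0 then K else 1) * (((p : ℝ) ^ (q.factorization p)) ^ ε)) :
    ∏ p ∈ q.primeFactors, F p ≤ K ^ N0 * (q : ℝ) ^ ε := by
  have hq0 : q ≠ 0 := by omega
  calc ∏ p ∈ q.primeFactors, F p
      ≤ ∏ p ∈ q.primeFactors, ((if p < N0 then K else 1) *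
        (((p : ℝ) ^ (q.factorization p)) ^ ε)) :=
        Finset.prod_le_prod (fun p hp => (hF p hp).1) (fun p hp => (hF p hp).2)
    _ = (∏ p ∈ q.primeFactors, (if p < N0 then K else 1)) *
        ∏ p ∈ q.primeFactors, (((p : ℝ) ^ (q.factorization p)) ^ ε) := Finset.prod_mul_distrib
    _ ≤ K ^ N0 * (q : ℝ) ^ ε := by
        apply mul_le_mul
        · rw [Finset.prod_ite, Finset.prod_const_one, mul_one, Finset.prod_const]
          apply pow_le_pow_right₀ hK
          have : (q.primeFactors.filter (fun p => p < N0)) ⊆ range N0 := by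
            intro p hp
            exact Finset.mem_range.2 (Finset.mem_filter.1 hp).2
          exact (Finset.card_le_card this).trans (by simp)
        · rw [Real.finsetProd_rpow _ _ (fun p _ => by positivity)]
          have h1 : ∏ p ∈ q.primeFactors, (p : ℝ) ^ (q.factorization p) = (q : ℝ) := by
            have := Nat.prod_factorization_pow_eq_self hq0
            rw [Finsupp.prod, Nat.support_factorization] at this
            exact_mod_cast this
          rw [h1]
        · apply Finset.prod_nonneg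
          intro p _
          positivity
        · positivity

/-- the divisor bound -/
theorem tau_le (ε : ℝ) (hε : 0 < ε) : ∃ C : ℝ, ∀ q : ℕ, 1 ≤ q → (q.divisors.card : ℝ) ≤ C * (q : ℝ) ^ ε := by
  set K : ℝ := max 1 (1 / (ε * Real.log 2)) with hK
  have hlog : 0 < Real.log 2 := Real.log_pos (by norm_num)
  have hK1 : 1 ≤ K := le_max_left _ _
  have hK2 : 1 ≤ K * (ε * Real.log 2) := by
    have h1 : 1 / (ε * Real.log 2) ≤ K := le_max_right _ _
    have h2 : 0 < ε * Real.log 2 := by positivity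
    rw [div_le_iff₀ h2] at h1
    exact h1
  set N0 : ℕ := ⌈(2 : ℝ) ^ (1 / ε)⌉₊ with hN0
  refine ⟨K ^ N0, ?_⟩
  intro q hq
  have hq0 : q ≠ 0 := by omega
  rw [Nat.card_divisors hq0]
  push_cast
  apply pb3_gen K ε hK1 N0 _ q hq
  intro p hp
  have hpp : p.Prime := Nat.prime_of_mem_primeFactors hp
  have hp2 : (2 : ℝ) ≤ p := by exact_mod_cast hpp.two_le
  refine ⟨by positivity, ?_⟩
  set v := q.factorization p
  have hrw : (((p : ℝ) ^ v) ^ ε) = ((p : ℝ) ^ ε) ^ v := by
    rw [← Real.rpow_natCast, ← Real.rpow_natCast, ← Real.rpow_mul (by positivity),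
      ← Real.rpow_mul (by positivity), mul_comm]
  split_ifs with hlt
  · -- small primes
    have h1 : ((2 : ℝ) ^ ε) ^ v ≤ ((p : ℝ) ^ ε) ^ v := by
      apply pow_le_pow_left₀ (by positivity)
      exact Real.rpow_le_rpow (by norm_num) hp2 hε.le
    have h2 : 1 + (v : ℝ) * (ε * Real.log 2) ≤ ((2 : ℝ) ^ ε) ^ v := by
      have h3 : ((2 : ℝ) ^ ε) ^ v = Real.exp ((v : ℝ) * (ε * Real.log 2)) := by
        rw [Real.rpow_def_of_pos (by norm_num), ← Real.exp_nat_mul]
        congr 1
        ring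
      rw [h3]
      have := Real.add_one_le_exp ((v : ℝ) * (ε * Real.log 2))
      linarith
    rw [hrw]
    have hv : (0 : ℝ) ≤ v := Nat.cast_nonneg v
    calc (v : ℝ) + 1 ≤ v * (K * (ε * Real.log 2)) + K := by nlinarith
      _ = K * (1 + v * (ε * Real.log 2)) := by ring
      _ ≤ K * ((p : ℝ) ^ ε) ^ v := by
          apply mul_le_mul_of_nonneg_left (h2.trans h1) (by linarith)
  · -- large primes
    rw [one_mul, hrw]
    have h1 : (2 : ℝ) ^ (1 / ε) ≤ p := by
      have h2 : (N0 : ℝ) ≤ p := by exact_mod_cast not_lt.1 hlt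
      exact (Nat.le_ceil _).trans h2
    have h2 : (2 : ℝ) ≤ (p : ℝ) ^ ε := by
      have h3 := Real.rpow_le_rpow (by positivity) h1 hε.le
      rw [← Real.rpow_mul (by norm_num), one_div, inv_mul_cancel₀ hε.ne', Real.rpow_one] at h3
      exact h3
    have h3 : (2 : ℝ) ^ v ≤ ((p : ℝ) ^ ε) ^ v := pow_le_pow_left₀ (by norm_num) h2 v
    have h4 : (v : ℝ) + 1 ≤ 2 ^ v := by
      have : v + 1 ≤ 2 ^ v := Nat.lt_two_pow_self
      exact_mod_cast this
    linarith


end Pool.Agent.H72.NL
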