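import Pool.Agent.H72.NL.Tab

/-!
MP_1efb31: the results of the kernel check in usable form.
-/

set_option autoImplicit false

namespace Pool.Agent.H72.NL

theorem allM_iff {n : ℕ} {f : ℕ × ℕ → Bool} :
    allM n f = true ↔ ∀ x : ℕ × ℕ, x.1 < n → x.2 < 11 → f x = true := by
  unfold allM
  constructor
  · intro h x h1 h2
    have := (List.all_eq_true.1 h) x.1 (List.mem_range.2 h1)
    exact (List.all_eq_true.1 this) x.2 (List.mem_range.2 h2)
  · intro h
    refine List.all_eq_true.2 fun i hi => List.all_eq_true.2 fun l hl => ?_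
    exact h (i, l) (List.mem_range.1 hi) (List.mem_range.1 hl)

theorem allZ_iff {n : ℕ} {f : ℤ → Bool} :
    allZ n f = true ↔ ∀ z : ℤ, 0 ≤ z → z < n → f z = true := by
  unfold allZ
  constructor
  · intro h z h0 h1
    have := (List.all_eq_true.1 h) z.toNat (List.mem_range.2 (by omega))
    rwa [Int.toNat_of_nonneg h0] at this
  · intro h
    refine List.all_eq_true.2 fun i hi => ?_
    exact h i (by positivity) (by exact_mod_cast List.mem_range.1 hi)

theorem okA_or_okB {a b : ℤ} (ha : 0 ≤ a ∧ a < 42) (hb : 0 ≤ b ∧ b < 42) : okA a b = true ∨ okB a b = true := by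
  have h1 : inb a = true := by simp [inb, ha.1, ha.2]
  have h2 : inb b = true := by simp [inb, hb.1, hb.2]
  unfold okA okB
  rw [h1, h2]
  cases isB a b <;> simp

theorem A1 {x y : ℕ × ℕ} (hx : x.1 < 7) (hx' : x.2 < 11) (hy : y.1 < 7) (hy' : y.2 < 11)
    (h1 : okA (tp 0 0 x) (tp 0 0 y) = true) (h2 : okA (tp 7 0 x) (tp 7 0 y) = true) {μ : ℤ} (h0 : 0 ≤ μ) (h3 : μ < 3) :
    okA (tm (3 + 7 * μ) 0 y) (tm (3 + 7 * μ) 0 x) = false := by
  have h := chkA1_ok
  unfold chkA1 at h
  rw [allM_iff] at h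
  have h' := h x hx hx'
  rw [allM_iff] at h'
  have h'' := h' y hy hy'
  rw [h1, h2] at h''
  simp only [Bool.and_self, Bool.not_true, Bool.false_or] at h''
  rw [allZ_iff] at h''
  have := h'' μ h0 (by exact_mod_cast h3)
  simpa using this

theorem A2 {x y : ℕ × ℕ} (hx : x.1 < 7) (hx' : x.2 < 11) (hy : y.1 < 7) (hy' : y.2 < 11)
    (h1 : okA (tp 7 0 x) (tp 0 0 y) = true) (h2 : okA (tp 0 0 x) (tp 7 0 y) = true) {μ : ℤ} (h0 : -1 ≤ μ) (h3 : μ < 2) :
    okA (tp (5 + 7 * μ) 0 y) (tp (-5 + 7 * (1 - μ)) 0 x) = false := by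
  have h := chkA2_ok
  unfold chkA2 at h
  rw [allM_iff] at h
  have h' := h x hx hx'
  rw [allM_iff] at h'
  have h'' := h' y hy hy'
  rw [h1, h2] at h''
  simp only [Bool.and_self, Bool.not_true, Bool.false_or] at h''
  rw [allZ_iff] at h''
  have := h'' (μ + 1) (by omega) (by push_cast; omega)
  rw [show μ + 1 - 1 = μ by ring, show 2 - (μ + 1) = 1 - μ by ring] at this
  simpa using this

/-- rows of the second pencil -/
theorem B1 {x : ℕ × ℕ} (hx : x.1 < 14) (hx' : x.2 < 11) {y : ℤ} (hy : 0 ≤ y) (hy' : y < 42)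
    (h1 : okB (tp 0 0 x) y = true) :
    ¬(okB (tp 6 1 x) y = true ∧ okB (tp 12 2 x) y = true) ∧
      ∀ ν : ℤ, 0 ≤ ν → ν < 5 → (okB (tp 6 1 x) y = true ∨ okB (tp 12 2 x) y = true) →
        okB (tm (5 + 6 * ν) ν x) y = false := by
  have h := chkB1_ok
  unfold chkB1 at h
  rw [allM_iff] at h
  have h' := h x hx hx'
  rw [allZ_iff] at h'
  have h'' := h' y hy (by exact_mod_cast hy')
  rw [h1] at h''
  simp only [Bool.not_true, Bool.false_or, Bool.and_eq_true, Bool.or_eq_true, Bool.not_eq_true', Bool.and_eq_false_iff,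
    Bool.or_eq_false_iff] at h''
  refine ⟨?_, ?_⟩
  · rintro ⟨h2, h3⟩
    rcases h''.1 with h4 | h4
    · rw [h2] at h4
      exact absurd h4 (by decide)
    · rw [h3] at h4
      exact absurd h4 (by decide)
  · intro ν h0 h5 ho
    rcases h''.2 with h4 | h4
    · rcases ho with h6 | h6
      · rw [h6] at h4
        exact absurd h4.1 (by decide)
      · rw [h6] at h4
        exact absurd h4.2 (by decide)
    · rw [allZ_iff] at h4
      have := h4 ν h0 (by exact_mod_cast h5)
      simpa using this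

/-- columns of the second pencil -/
theorem B2 {x : ℕ × ℕ} (hx : x.1 < 14) (hx' : x.2 < 11) {y : ℤ} (hy : 0 ≤ y) (hy' : y < 42)
    (h1 : okB y (tp 0 0 x) = true) :
    ¬(okB y (tp 6 1 x) = true ∧ okB y (tp 12 2 x) = true) ∧
      ∀ ν : ℤ, 0 ≤ ν → ν < 5 → (okB y (tp 6 1 x) = true ∨ okB y (tp 12 2 x) = true) →
        okB y (tm (5 + 6 * ν) ν x) = false := by
  have h := chkB2_ok
  unfold chkB2 at h
  rw [allM_iff] at h
  have h' := h x hx hx'
  rw [allZ_iff] at h'
  have h'' := h' y hy (by exact_mod_cast hy')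
  rw [h1] at h''
  simp only [Bool.not_true, Bool.false_or, Bool.and_eq_true, Bool.or_eq_true, Bool.not_eq_true', Bool.and_eq_false_iff,
    Bool.or_eq_false_iff] at h''
  refine ⟨?_, ?_⟩
  · rintro ⟨h2, h3⟩
    rcases h''.1 with h4 | h4
    · rw [h2] at h4
      exact absurd h4 (by decide)
    · rw [h3] at h4
      exact absurd h4 (by decide)
  · intro ν h0 h5 ho
    rcases h''.2 with h4 | h4
    · rcases ho with h6 | h6
      · rw [h6] at h4
        exact absurd h4.1 (by decide)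
      · rw [h6] at h4
        exact absurd h4.2 (by decide)
    · rw [allZ_iff] at h4
      have := h4 ν h0 (by exact_mod_cast h5)
      simpa using this

/-- the other directions for the second pencil -/
theorem B3 {x y : ℕ × ℕ} (hx : x.1 < 14) (hx' : x.2 < 11) (hy : y.1 < 14) (hy' : y.2 < 11)
    (h1 : okB (tp 0 0 x) (tp 0 0 y) = true) :
    ¬(okB (tp 6 1 x) (tp 6 1 y) = true ∧ okB (tp 12 2 x) (tp 12 2 y) = true) ∧
    ¬(okB (tp 6 1 x) (tp (-6) (-1) y) = true ∧ okB (tp 12 2 x) (tp (-12) (-2) y) = true) ∧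
    okB (tp 6 1 x) (tp 12 2 y) = false ∧ okB (tp 6 1 x) (tp (-12) (-2) y) = false ∧
    okB (tp 12 2 x) (tp 6 1 y) = false ∧ okB (tp 12 2 x) (tp (-6) (-1) y) = false := by
  have h := chkB3_ok
  unfold chkB3 at h
  rw [allM_iff] at h
  have h' := h x hx hx'
  rw [allM_iff] at h'
  have h'' := h' y hy hy'
  rw [h1] at h''
  simp only [Bool.not_true, Bool.false_or, Bool.and_eq_true, Bool.not_eq_true', Bool.and_eq_false_iff] at h''
  obtain ⟨⟨⟨⟨⟨a1, a2⟩, a3⟩, a4⟩, a5⟩, a6⟩ := h''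
  refine ⟨?_, ?_, a3, a4, a5, a6⟩
  · rintro ⟨h2, h3⟩
    rcases a1 with h4 | h4
    · rw [h2] at h4
      exact absurd h4 (by decide)
    · rw [h3] at h4
      exact absurd h4 (by decide)
  · rintro ⟨h2, h3⟩
    rcases a2 with h4 | h4
    · rw [h2] at h4
      exact absurd h4 (by decide)
    · rw [h3] at h4
      exact absurd h4 (by decide)

end Pool.Agent.H72.NL
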