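import Pool.Agent.H72.NL.Df

/-!
ROW Prim (MP_1efb31_NL, about 90 lines). Primitive directions and a harmonic sum over a box.

`exists_prim`. PROOF. `g = Int.gcd (Q.1 - P.1) (Q.2 - P.2) ≠ 0`, `Q - P = g e` with `Int.gcd e.1 e.2 = 1` (`Int.exists_gcd_one`). From `Col`: `e.1 * (R.2 - P.2) = (R.1 - P.1) * e.2` (cancel `g`), so
`e.1 ∣ R.1 - P.1` (`IsCoprime.dvd_of_dvd_mul_right`), `R.1 - P.1 = j e.1`; if `e.1 ≠ 0` then `R.2 - P.2 = j e.2`; if `e.1 = 0` then `e.2 = ±1`, `R.1 = P.1` and `j = ± (R.2 - P.2)`. (Or: Bezout `u e.1 + v e.2 = 1`, `j = u (R.1 - P.1) + v (R.2 - P.2)`; then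
`j e.1 = R.1 - P.1` and `j e.2 = R.2 - P.2` by `linear_combination` from the relation: the shortest way.)

`sum_box`. PROOF. Sort by `r = nm e`, `1 ≤ r ≤ m`: at most `8 r` vectors `e` with `nm e = r` (`(2r+1)^2 - (2r-1)^2`; e.g. by induction on `m`: the box of `m + 1` minus the box of `m` has `8 (m + 1)` elements, each with `nm = m + 1`), so the sum is at most `∑_{r=1}^m 8 r / r^2 = 8 H_m` and
`H_m ≤ 1 + log m` (`harmonic_le_one_add_log`). Induction on `m` for `sum ≤ 8 * harmonic m` is the shortest way.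
-/

set_option autoImplicit false

open scoped Classical

namespace Pool.Agent.H72.NL

theorem exists_prim {P Q R : Pt} (hQ : Q ≠ P) (hR : R ≠ P) (h : Col P Q R) :
    ∃ (e : Pt) (i j : ℤ), Int.gcd e.1 e.2 = 1 ∧ i ≠ 0 ∧ j ≠ 0 ∧
      Q = (P.1 + i * e.1, P.2 + i * e.2) ∧ R = (P.1 + j * e.1, P.2 + j * e.2) := by
  have hpos : 0 < Int.gcd (Q.1 - P.1) (Q.2 - P.2) := by
    rw [Nat.pos_iff_ne_zero]
    intro h0
    rw [Int.gcd_eq_zero_iff] at h0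
    exact hQ (Prod.ext (by linarith [h0.1]) (by linarith [h0.2]))
  obtain ⟨e1, e2, hg, ha, hb⟩ := Int.exists_gcd_one hpos
  obtain ⟨g, hgd⟩ : ∃ g : ℤ, g = ((Int.gcd (Q.1 - P.1) (Q.2 - P.2) : ℕ) : ℤ) := ⟨_, rfl⟩
  rw [← hgd] at ha hb
  have hg0 : g ≠ 0 := by
    rw [hgd]
    exact_mod_cast hpos.ne'
  have hrel : e1 * (R.2 - P.2) = (R.1 - P.1) * e2 := by
    unfold Col at h
    rw [ha, hb] at h
    exact mul_right_cancel₀ hg0 (by linear_combination h)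
  have hbez := Int.gcd_eq_gcd_ab e1 e2
  rw [hg, Nat.cast_one] at hbez
  obtain ⟨u, hu⟩ : ∃ u, u = Int.gcdA e1 e2 := ⟨_, rfl⟩
  obtain ⟨v, hv⟩ : ∃ v, v = Int.gcdB e1 e2 := ⟨_, rfl⟩
  rw [← hu, ← hv] at hbez
  have hj1 : (u * (R.1 - P.1) + v * (R.2 - P.2)) * e1 = R.1 - P.1 := by
    linear_combination v * hrel - (R.1 - P.1) * hbez
  have hj2 : (u * (R.1 - P.1) + v * (R.2 - P.2)) * e2 = R.2 - P.2 := by
    linear_combination (-u) * hrel - (R.2 - P.2) * hbez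
  refine ⟨(e1, e2), g, u * (R.1 - P.1) + v * (R.2 - P.2), hg, hg0, ?_, ?_, ?_⟩
  · intro h0
    rw [h0, zero_mul] at hj1 hj2
    exact hR (Prod.ext (by linarith) (by linarith))
  · exact Prod.ext (by simp only; linarith) (by simp only; linarith)
  · exact Prod.ext (by simp only; linarith) (by simp only; linarith)

private lemma Prim_nm {m : ℕ} {e : Pt}
    (h : e ∈ (Finset.Icc (-((m + 1 : ℕ) : ℤ)) ((m + 1 : ℕ) : ℤ) ×ˢ
      Finset.Icc (-((m + 1 : ℕ) : ℤ)) ((m + 1 : ℕ) : ℤ)) \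
      (Finset.Icc (-(m : ℤ)) m ×ˢ Finset.Icc (-(m : ℤ)) m)) : nm e = m + 1 := by
  simp only [Finset.mem_sdiff, Finset.mem_product, Finset.mem_Icc] at h
  unfold nm
  omega

private lemma Prim_card (m : ℕ) :
    ((Finset.Icc (-(m : ℤ)) m ×ˢ Finset.Icc (-(m : ℤ)) m : Finset Pt)).card = (2 * m + 1) ^ 2 := by
  rw [Finset.card_product, Int.card_Icc]
  have h1 : ((m : ℤ) + 1 - -(m : ℤ)).toNat = 2 * m + 1 := by omega
  rw [h1]
  ring

private lemma Prim_sum (m : ℕ) :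
    ∑ e ∈ (Finset.Icc (-(m : ℤ)) m ×ˢ Finset.Icc (-(m : ℤ)) m : Finset Pt),
      (1 : ℝ) / (nm e : ℝ) ^ 2 = 8 * ((harmonic m : ℚ) : ℝ) := by
  induction m with
  | zero => simp [nm]
  | succ m ih =>
    have hsub : (Finset.Icc (-(m : ℤ)) m ×ˢ Finset.Icc (-(m : ℤ)) m : Finset Pt) ⊆
        Finset.Icc (-((m + 1 : ℕ) : ℤ)) ((m + 1 : ℕ) : ℤ) ×ˢ
          Finset.Icc (-((m + 1 : ℕ) : ℤ)) ((m + 1 : ℕ) : ℤ) := by
      intro e he
      simp only [Finset.mem_product, Finset.mem_Icc] at he ⊢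
      omega
    rw [← Finset.sum_sdiff hsub, ih]
    have h1 : ∑ e ∈ (Finset.Icc (-((m + 1 : ℕ) : ℤ)) ((m + 1 : ℕ) : ℤ) ×ˢ
        Finset.Icc (-((m + 1 : ℕ) : ℤ)) ((m + 1 : ℕ) : ℤ)) \
        (Finset.Icc (-(m : ℤ)) m ×ˢ Finset.Icc (-(m : ℤ)) m : Finset Pt),
        (1 : ℝ) / (nm e : ℝ) ^ 2 = 8 * ((m : ℝ) + 1)⁻¹ := by
      rw [Finset.sum_congr rfl (fun e he => by rw [Prim_nm he])]
      rw [Finset.sum_const, Finset.card_sdiff_of_subset hsub, Prim_card, Prim_card]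
      have h2 : (2 * (m + 1) + 1) ^ 2 - (2 * m + 1) ^ 2 = 8 * (m + 1) := by
        have h3 : (2 * (m + 1) + 1) ^ 2 = 8 * (m + 1) + (2 * m + 1) ^ 2 := by ring
        rw [h3, Nat.add_sub_cancel]
      rw [h2, nsmul_eq_mul]
      push_cast
      have h4 : (m : ℝ) + 1 ≠ 0 := by positivity
      field_simp
    rw [h1, harmonic_succ]
    push_cast
    ring

theorem sum_box (m : ℕ) (hm : 1 ≤ m) :
    ∑ e ∈ (Finset.Icc (-(m : ℤ)) m ×ˢ Finset.Icc (-(m : ℤ)) m).filter (fun e => e ≠ (0, 0)),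
      (1 : ℝ) / (nm e : ℝ) ^ 2 ≤ 8 * (1 + Real.log m) := by
  have h1 : ∑ e ∈ (Finset.Icc (-(m : ℤ)) m ×ˢ Finset.Icc (-(m : ℤ)) m).filter
      (fun e => e ≠ (0, 0)), (1 : ℝ) / (nm e : ℝ) ^ 2 =
      ∑ e ∈ (Finset.Icc (-(m : ℤ)) m ×ˢ Finset.Icc (-(m : ℤ)) m : Finset Pt),
        (1 : ℝ) / (nm e : ℝ) ^ 2 := by
    refine Finset.sum_filter_of_ne fun e _ hne he => hne ?_
    rw [he]
    simp [nm]
  rw [h1, Prim_sum]
  have h2 := harmonic_le_one_add_log m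
  linarith

end Pool.Agent.H72.NL
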