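import Pool.Agent.H72.NL.Cls
import Pool.Agent.H72.NL.Chk
import Pool.Agent.H72.NL.Prim

/-!
ROW ANo (MP_1efb31_NL, about 200 lines). The classes of the first pencil have no three points on a line (use Cls, Chk, Prim as they stand).

PROOF. Let `P1, P2, P3 ∈ S` be distinct and collinear. `exists_prim`: `P2 = P1 + i e`, `P3 = P1 + j e`, `gcd e = 1`, `i, j ≠ 0`, `i ≠ j`, `n = nm e`; `|i| n, |j| n, |i - j| n < 2p` (board), and one of `|i|, |j|, |i - j|` is `≥ 2`, so `n < p`. `e = (a, b)`.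
`X = P1.1 - c.1`, `Y = P1.2 - c.2` in `ZMod p`: `Fp (P1 + t e) = Fp P1` for `t = i, j`: `t * (a b t + a Y + b X) = 0`, and `X Y = k ≠ 0`.
If `a = 0` then `b = ±1` and `b X ≠ 0`, so `i = j = 0` in `ZMod p`, so `i, j = ±p`, `i ≠ j`, so `|i - j| = 2p`: contradiction. The same for `b = 0`. So `0 < |a|, |b| < p` and `a b ≠ 0` in `ZMod p`. If `i = 0` in `ZMod p` then `n = 1`, `i = ±p`, and `j ≠ 0` (else `|i - j| = 2p`); if `i, j ≠ 0` in `ZMod p` then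
`i = j` in `ZMod p`, so `i - j = ±p`, `n = 1`. So in all cases `e = (±1, ±1)` and two of the three points differ by `±p e`, the third one not congruent to them. Rename: `P`, `P' = P + (p, p)` or `P' = P + (p, -p)` (`P.1 < P'.1`), `R` the third, on their line, `R.1 - P.1 ≠ 0` in `ZMod p`.
(A) `P = (x, y)`, `P' = (x + p, y + p)`, so `0 ≤ x, y < p`. `R = P + t (1, 1)`, `t ≠ 0` in `ZMod p`, so `t = -(X + Y)` there: `R.1 = s - y`, `R.2 = s - x` in `ZMod p` (`c.1 + c.2 = s`): `R.1 = s - y + μ p` and, as `R.1 - R.2 = x - y`, `R.2 = s - x + μ p`. `0 ≤ s < p` (from `hs`), so `μ ∈ {0, 1, 2}`.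
Classes (`cls_p`, `cls_m` for `x` and `y`, which are `Nb`): of `P`: `tp 0 0 mx`, `tp 0 0 my` (`mx = mic p w (sc x)`, ..); of `P'`: `sc (x + p) = sc x + 2 * 7 * p`: `tp 7 0 mx`, `tp 7 0 my`; of `R`: `sc R.1 = -sc y + 2 (3 + 7 μ) p + r` with `r = 14 (s + 1) - 6 p`, `|r| ≤ 7`: `tm (3 + 7 μ) 0 my`, and
`tm (3 + 7 μ) 0 mx`. Contradiction to `A1`.
(B) `P = (x, y + p)`, `P' = (x + p, y)`, `0 ≤ x, y < p`, `R = P + t (1, -1)`, `t ≠ 0`: the equation is `t * (-t + Y - X) = 0` (`X, Y` of `P`), `t = Y - X`: `R.1 = c.1 + Y = y + t0`, `R.2 = c.2 + X = x - t0` in `ZMod p` (`c.1 - c.2 = t0`), and `R.1 + R.2 = x + y + p`: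
`R.1 = y + t0 + μ p`, `R.2 = x - t0 + (1 - μ) p`; `0 ≤ t0 < p` (from `ht`), so `μ ∈ {-1, 0, 1}`. Classes: `P'`: `tp 7 0 mx`, `tp 0 0 my`; `P`: `tp 0 0 mx`, `tp 7 0 my`; `sc R.1 = sc y + 2 (5 + 7 μ) p + r`, `r = 14 t0 - 10 p`, `sc R.2 = sc x + 2 (-5 + 7 (1 - μ)) p - r`. Contradiction to `A2`.
-/

set_option autoImplicit false

open scoped Classical

namespace Pool.Agent.H72.NL

private lemma ANo_cls0 {p w x : ℤ} (hw : 0 < w) (hp : 100 * w ≤ p) (hx0 : 0 ≤ x) (hx : x < 2 * p)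
    (hn : Nb p w x) : cls p w (sc x) = tp 0 0 (mic p w (sc x)) := by
  have h := cls_p hw hp hx0 hx hn (i0 := 0) (j0 := 0) (r := 0) (by norm_num) (by norm_num)
  rwa [show sc x + 2 * 0 * p + 2 * 0 * w + 0 = sc x by ring] at h

private lemma ANo_A {p : ℕ} [Fact p.Prime] {w : ℤ} (hw : 0 < w) (hp : 100 * w ≤ p) {s : ℤ}
    (hs : |14 * (s + 1) - 6 * p| ≤ 7) {c : ZMod p × ZMod p}
    (hc : c.1 + c.2 = (s : ZMod p)) {k : ZMod p} {S : Finset Pt}
    (hS : ∀ P ∈ S, P ∈ bd (2 * p) ∧ Nb p w P.1 ∧ Nb p w P.2 ∧ okA (cls p w (sc P.1)) (cls p w (sc P.2)) = true ∧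
      Fp c P = k) {P P' R : Pt} (hP : P ∈ S) (hP' : P' ∈ S) (hR : R ∈ S) {t : ℤ}
    (h1 : P'.1 = P.1 + p) (h2 : P'.2 = P.2 + p) (h3 : R.1 = P.1 + t) (h4 : R.2 = P.2 + t)
    (ht : (t : ZMod p) ≠ 0) : False := by
  obtain ⟨a1, a2, a3, a4, a5⟩ := hS P hP
  obtain ⟨b1, b2, b3, b4, b5⟩ := hS P' hP'
  obtain ⟨c1, c2, c3, c4, c5⟩ := hS R hR
  rw [mem_bd] at a1 b1 c1
  push_cast at a1 b1 c1
  obtain ⟨⟨a11, a12⟩, a13, a14⟩ := a1
  obtain ⟨⟨b11, b12⟩, b13, b14⟩ := b1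
  obtain ⟨⟨c11, c12⟩, c13, c14⟩ := c1
  obtain ⟨hs1, hs2⟩ := abs_le.1 hs
  have hf : (P.1 : ZMod p) - c.1 + ((P.2 : ZMod p) - c.2) + (t : ZMod p) = 0 := by
    have h5 : (t : ZMod p) * ((P.1 : ZMod p) - c.1 + ((P.2 : ZMod p) - c.2) + (t : ZMod p)) = 0 := by
      unfold Fp at a5 c5
      rw [h3, h4] at c5
      push_cast at c5
      linear_combination c5 - a5
    exact (mul_eq_zero.1 h5).resolve_left ht
  have h6 : ((P.1 + P.2 + t - s : ℤ) : ZMod p) = 0 := by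
    push_cast
    rw [← hc]
    linear_combination hf
  obtain ⟨μ, hμ⟩ := (ZMod.intCast_zmod_eq_zero_iff_dvd _ _).1 h6
  have hR1 : R.1 = s - P.2 + μ * p := by linarith
  have hR2 : R.2 = s - P.1 + μ * p := by linarith
  have hx : P.1 < p := by linarith
  have hy : P.2 < p := by linarith
  have hp0 : (0 : ℤ) < p := by linarith
  have hμ0 : 0 ≤ μ := by
    by_contra hcon
    have : μ ≤ -1 := by omega
    nlinarith
  have hμ3 : μ < 3 := by
    by_contra hcon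
    have : 3 ≤ μ := by omega
    nlinarith
  have e1 : cls p w (sc P'.1) = tp 7 0 (mic p w (sc P.1)) := by
    rw [← cls_p hw hp a11 a12 a2 (i0 := 7) (j0 := 0) (r := 0) (by norm_num) (by norm_num), h1]
    congr 1
    unfold sc
    ring
  have e2 : cls p w (sc P'.2) = tp 7 0 (mic p w (sc P.2)) := by
    rw [← cls_p hw hp a13 a14 a3 (i0 := 7) (j0 := 0) (r := 0) (by norm_num) (by norm_num), h2]
    congr 1
    unfold sc
    ring
  have e3 : cls p w (sc R.1) = tm (3 + 7 * μ) 0 (mic p w (sc P.2)) := by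
    rw [← cls_m hw hp a13 a14 a3 (i0 := 3 + 7 * μ) (j0 := 0) (r := 14 * (s + 1) - 6 * p)
      (by norm_num) hs, hR1]
    congr 1
    unfold sc
    ring
  have e4 : cls p w (sc R.2) = tm (3 + 7 * μ) 0 (mic p w (sc P.1)) := by
    rw [← cls_m hw hp a11 a12 a2 (i0 := 3 + 7 * μ) (j0 := 0) (r := 14 * (s + 1) - 6 * p)
      (by norm_num) hs, hR2]
    congr 1
    unfold sc
    ring
  rw [ANo_cls0 hw hp a11 a12 a2, ANo_cls0 hw hp a13 a14 a3] at a4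
  rw [e1, e2] at b4
  rw [e3, e4] at c4
  have := A1 (mic_lt' hw hp a11 hx) (mic_lt hw hp a11 a12).2 (mic_lt' hw hp a13 hy)
    (mic_lt hw hp a13 a14).2 a4 b4 hμ0 hμ3
  rw [this] at c4
  exact absurd c4 (by decide)

private lemma ANo_B {p : ℕ} [Fact p.Prime] {w : ℤ} (hw : 0 < w) (hp : 100 * w ≤ p) {t0 : ℤ}
    (ht : |14 * t0 - 10 * p| ≤ 7) {c : ZMod p × ZMod p}
    (hc' : c.1 - c.2 = (t0 : ZMod p)) {k : ZMod p} {S : Finset Pt}
    (hS : ∀ P ∈ S, P ∈ bd (2 * p) ∧ Nb p w P.1 ∧ Nb p w P.2 ∧ okA (cls p w (sc P.1)) (cls p w (sc P.2)) = true ∧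
      Fp c P = k) {P P' R : Pt} (hP : P ∈ S) (hP' : P' ∈ S) (hR : R ∈ S) {t : ℤ}
    (h1 : P'.1 = P.1 + p) (h2 : P'.2 = P.2 - p) (h3 : R.1 = P.1 + t) (h4 : R.2 = P.2 - t)
    (htt : (t : ZMod p) ≠ 0) : False := by
  obtain ⟨a1, a2, a3, a4, a5⟩ := hS P hP
  obtain ⟨b1, b2, b3, b4, b5⟩ := hS P' hP'
  obtain ⟨c1, c2, c3, c4, c5⟩ := hS R hR
  rw [mem_bd] at a1 b1 c1
  push_cast at a1 b1 c1
  obtain ⟨⟨a11, a12⟩, a13, a14⟩ := a1
  obtain ⟨⟨b11, b12⟩, b13, b14⟩ := b1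
  obtain ⟨⟨c11, c12⟩, c13, c14⟩ := c1
  obtain ⟨hs1, hs2⟩ := abs_le.1 ht
  have hf : (P.2 : ZMod p) - c.2 - ((P.1 : ZMod p) - c.1) - (t : ZMod p) = 0 := by
    have h5 : (t : ZMod p) * ((P.2 : ZMod p) - c.2 - ((P.1 : ZMod p) - c.1) - (t : ZMod p)) = 0 := by
      unfold Fp at a5 c5
      rw [h3, h4] at c5
      push_cast at c5
      linear_combination c5 - a5
    exact (mul_eq_zero.1 h5).resolve_left htt
  have h6 : ((t + P.1 - P'.2 - t0 : ℤ) : ZMod p) = 0 := by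
    rw [h2]
    push_cast
    rw [← hc', ZMod.natCast_self]
    linear_combination -hf
  obtain ⟨μ, hμ⟩ := (ZMod.intCast_zmod_eq_zero_iff_dvd _ _).1 h6
  have hR1 : R.1 = P'.2 + t0 + μ * p := by linarith
  have hR2 : R.2 = P.1 - t0 + (1 - μ) * p := by linarith
  have hx : P.1 < p := by linarith
  have hy : P'.2 < p := by linarith
  have hp0 : (0 : ℤ) < p := by linarith
  have hμ0 : -1 ≤ μ := by
    by_contra hcon
    have : μ ≤ -2 := by omega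
    nlinarith
  have hμ3 : μ < 2 := by
    by_contra hcon
    have : 2 ≤ μ := by omega
    nlinarith
  have e1 : cls p w (sc P'.1) = tp 7 0 (mic p w (sc P.1)) := by
    rw [← cls_p hw hp a11 a12 a2 (i0 := 7) (j0 := 0) (r := 0) (by norm_num) (by norm_num), h1]
    congr 1
    unfold sc
    ring
  have e2 : cls p w (sc P.2) = tp 7 0 (mic p w (sc P'.2)) := by
    rw [← cls_p hw hp b13 b14 b3 (i0 := 7) (j0 := 0) (r := 0) (by norm_num) (by norm_num),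
      show P.2 = P'.2 + p by linarith]
    congr 1
    unfold sc
    ring
  have e3 : cls p w (sc R.1) = tp (5 + 7 * μ) 0 (mic p w (sc P'.2)) := by
    rw [← cls_p hw hp b13 b14 b3 (i0 := 5 + 7 * μ) (j0 := 0) (r := 14 * t0 - 10 * p)
      (by norm_num) ht, hR1]
    congr 1
    unfold sc
    ring
  have e4 : cls p w (sc R.2) = tp (-5 + 7 * (1 - μ)) 0 (mic p w (sc P.1)) := by
    rw [← cls_p hw hp a11 a12 a2 (i0 := -5 + 7 * (1 - μ)) (j0 := 0) (r := -(14 * t0 - 10 * p))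
      (by norm_num) (by rw [abs_neg]; exact ht), hR2]
    congr 1
    unfold sc
    ring
  rw [e1, ANo_cls0 hw hp b13 b14 b3] at b4
  rw [ANo_cls0 hw hp a11 a12 a2, e2] at a4
  rw [e3, e4] at c4
  have := A2 (mic_lt' hw hp a11 hx) (mic_lt hw hp a11 a12).2 (mic_lt' hw hp b13 hy)
    (mic_lt hw hp b13 b14).2 b4 a4 hμ0 hμ3
  rw [this] at c4
  exact absurd c4 (by decide)

private lemma ANo_fin {p : ℕ} [Fact p.Prime] {w : ℤ} (hw : 0 < w) (hp : 100 * w ≤ p) {s t0 : ℤ}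
    (hs : |14 * (s + 1) - 6 * p| ≤ 7) (ht : |14 * t0 - 10 * p| ≤ 7) {c : ZMod p × ZMod p}
    (hc : c.1 + c.2 = (s : ZMod p)) (hc' : c.1 - c.2 = (t0 : ZMod p)) {k : ZMod p} {S : Finset Pt}
    (hS : ∀ P ∈ S, P ∈ bd (2 * p) ∧ Nb p w P.1 ∧ Nb p w P.2 ∧ okA (cls p w (sc P.1)) (cls p w (sc P.2)) = true ∧
      Fp c P = k) {Z1 Z2 Z3 : Pt} (h1 : Z1 ∈ S) (h2 : Z2 ∈ S) (h3 : Z3 ∈ S) {a b d t : ℤ}
    (ha : a = 1 ∨ a = -1) (hb : b = 1 ∨ b = -1) (hd : d = p ∨ d = -p)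
    (k1 : Z2.1 = Z1.1 + d * a) (k2 : Z2.2 = Z1.2 + d * b)
    (k3 : Z3.1 = Z1.1 + t * a) (k4 : Z3.2 = Z1.2 + t * b) (htt : (t : ZMod p) ≠ 0) : False := by
  have n1 : ((-t : ℤ) : ZMod p) ≠ 0 := by
    push_cast
    exact neg_ne_zero.2 htt
  have n2 : ((p + t : ℤ) : ZMod p) ≠ 0 := by
    push_cast
    rw [ZMod.natCast_self, zero_add]
    exact htt
  have n3 : ((p - t : ℤ) : ZMod p) ≠ 0 := by
    push_cast
    rw [ZMod.natCast_self, zero_sub]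
    exact neg_ne_zero.2 htt
  rcases ha with rfl | rfl <;> rcases hb with rfl | rfl <;> rcases hd with rfl | rfl
  · exact ANo_A hw hp hs hc hS h1 h2 h3 (t := t) (by linarith) (by linarith) (by linarith) (by linarith) htt
  · exact ANo_A hw hp hs hc hS h2 h1 h3 (t := p + t) (by linarith) (by linarith) (by linarith) (by linarith) n2
  · exact ANo_B hw hp ht hc' hS h1 h2 h3 (t := t) (by linarith) (by linarith) (by linarith) (by linarith) htt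
  · exact ANo_B hw hp ht hc' hS h2 h1 h3 (t := p + t) (by linarith) (by linarith) (by linarith) (by linarith) n2
  · exact ANo_B hw hp ht hc' hS h2 h1 h3 (t := p - t) (by linarith) (by linarith) (by linarith) (by linarith) n3
  · exact ANo_B hw hp ht hc' hS h1 h2 h3 (t := -t) (by linarith) (by linarith) (by linarith) (by linarith) n1
  · exact ANo_A hw hp hs hc hS h2 h1 h3 (t := p - t) (by linarith) (by linarith) (by linarith) (by linarith) n3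
  · exact ANo_A hw hp hs hc hS h1 h2 h3 (t := -t) (by linarith) (by linarith) (by linarith) (by linarith) n1

private lemma ANo_dvd {p : ℕ} (hp1 : 1 < p) {d a b : ℤ} (hd : (p : ℤ) ∣ d) (hd0 : d ≠ 0) (ha : a ≠ 0) (hb : b ≠ 0)
    (h1 : |d * a| < 2 * p) (h2 : |d * b| < 2 * p) :
    (a = 1 ∨ a = -1) ∧ (b = 1 ∨ b = -1) ∧ (d = p ∨ d = -p) := by
  obtain ⟨m, rfl⟩ := hd
  have hm0 : m ≠ 0 := by
    rintro rfl
    exact hd0 (by ring)
  have hp0 : (0 : ℤ) < p := by exact_mod_cast (by omega : 0 < p)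
  have key : ∀ a : ℤ, a ≠ 0 → |(p : ℤ) * m * a| < 2 * p → |m| * |a| < 2 := by
    intro a _ h
    rw [abs_mul, abs_mul, abs_of_pos hp0] at h
    nlinarith [abs_nonneg m, abs_nonneg a, mul_nonneg (abs_nonneg m) (abs_nonneg a)]
  have hm1 : 1 ≤ |m| := Int.one_le_abs hm0
  have ha1 : 1 ≤ |a| := Int.one_le_abs ha
  have hb1 : 1 ≤ |b| := Int.one_le_abs hb
  have k1 := key a ha h1
  have k2 := key b hb h2
  have ea : |a| = 1 := by nlinarith
  have eb : |b| = 1 := by nlinarith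
  have em : |m| = 1 := by nlinarith
  refine ⟨?_, ?_, ?_⟩
  · exact (abs_eq (by norm_num)).1 ea
  · exact (abs_eq (by norm_num)).1 eb
  · rcases (abs_eq (by norm_num)).1 em with h | h
    · left; rw [h]; ring
    · right; rw [h]; ring

private lemma ANo_notall {p : ℕ} (hp1 : 1 < p) {i j a : ℤ} (hi : (p : ℤ) ∣ i) (hj : (p : ℤ) ∣ j) (hi0 : i ≠ 0)
    (hj0 : j ≠ 0) (hij : i ≠ j) (ha : a ≠ 0) (h1 : |i * a| < 2 * p) (h2 : |j * a| < 2 * p)
    (h3 : |(i - j) * a| < 2 * p) : False := by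
  obtain ⟨-, -, k1⟩ := ANo_dvd hp1 hi hi0 ha ha h1 h1
  obtain ⟨-, -, k2⟩ := ANo_dvd hp1 hj hj0 ha ha h2 h2
  obtain ⟨-, -, k3⟩ := ANo_dvd hp1 (dvd_sub hi hj) (sub_ne_zero.2 hij) ha ha h3 h3
  omega

private lemma ANo_lt {a i j : ℤ} {p : ℕ} (hi : i ≠ 0) (hj : j ≠ 0) (hij : i ≠ j)
    (h1 : |i * a| < 2 * p) (h2 : |j * a| < 2 * p) (h3 : |(i - j) * a| < 2 * p) : |a| < p := by
  rw [abs_mul] at h1 h2 h3
  have hD : 2 ≤ |i| ∨ 2 ≤ |j| ∨ 2 ≤ |i - j| := by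
    have : 2 ≤ i.natAbs ∨ 2 ≤ j.natAbs ∨ 2 ≤ (i - j).natAbs := by omega
    rw [Int.abs_eq_natAbs, Int.abs_eq_natAbs, Int.abs_eq_natAbs]
    exact_mod_cast this
  rcases hD with h | h | h <;> nlinarith [abs_nonneg a]

theorem A_N3 {p : ℕ} [Fact p.Prime] {w : ℤ} (hw : 0 < w) (hp : 100 * w ≤ p) {s t0 : ℤ}
    (hs : |14 * (s + 1) - 6 * p| ≤ 7) (ht : |14 * t0 - 10 * p| ≤ 7) {c : ZMod p × ZMod p}
    (hc : c.1 + c.2 = (s : ZMod p)) (hc' : c.1 - c.2 = (t0 : ZMod p)) {k : ZMod p} (hk : k ≠ 0) {S : Finset Pt}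
    (hS : ∀ P ∈ S, P ∈ bd (2 * p) ∧ Nb p w P.1 ∧ Nb p w P.2 ∧ okA (cls p w (sc P.1)) (cls p w (sc P.2)) = true ∧
      Fp c P = k) : N3 S := by
  intro P hP Q hQ R hR hPQ hPR hQR hcol
  obtain ⟨e, i, j, hg, hi, hj, eQ, eR⟩ := exists_prim (Ne.symm hPQ) (Ne.symm hPR) hcol
  have hij : i ≠ j := by
    rintro rfl
    exact hQR (eQ.trans eR.symm)
  obtain ⟨a, b⟩ := e
  simp only at hg eQ eR
  have hprime : p.Prime := Fact.out
  have hp1 : 1 < p := hprime.one_lt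
  have Q1 : Q.1 = P.1 + i * a := by rw [eQ]
  have Q2 : Q.2 = P.2 + i * b := by rw [eQ]
  have R1 : R.1 = P.1 + j * a := by rw [eR]
  have R2 : R.2 = P.2 + j * b := by rw [eR]
  obtain ⟨a1, -, -, -, a5⟩ := hS P hP
  obtain ⟨b1, -, -, -, b5⟩ := hS Q hQ
  obtain ⟨c1, -, -, -, c5⟩ := hS R hR
  rw [mem_bd] at a1 b1 c1
  push_cast at a1 b1 c1
  obtain ⟨⟨a11, a12⟩, a13, a14⟩ := a1
  obtain ⟨⟨b11, b12⟩, b13, b14⟩ := b1
  obtain ⟨⟨c11, c12⟩, c13, c14⟩ := c1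
  have ia : |i * a| < 2 * p := abs_lt.2 ⟨by linarith, by linarith⟩
  have ib : |i * b| < 2 * p := abs_lt.2 ⟨by linarith, by linarith⟩
  have ja : |j * a| < 2 * p := abs_lt.2 ⟨by linarith, by linarith⟩
  have jb : |j * b| < 2 * p := abs_lt.2 ⟨by linarith, by linarith⟩
  have da : |(i - j) * a| < 2 * p := abs_lt.2 ⟨by linarith, by linarith⟩
  have db : |(i - j) * b| < 2 * p := abs_lt.2 ⟨by linarith, by linarith⟩
  have la : |a| < p := ANo_lt hi hj hij ia ja da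
  have lb : |b| < p := ANo_lt hi hj hij ib jb db
  -- the form
  unfold Fp at a5 b5 c5
  rw [Q1, Q2] at b5
  rw [R1, R2] at c5
  push_cast at b5 c5
  have fi : (i : ZMod p) * ((a : ZMod p) * b * i + a * ((P.2 : ZMod p) - c.2) + b * ((P.1 : ZMod p) - c.1)) = 0 := by
    linear_combination b5 - a5
  have fj : (j : ZMod p) * ((a : ZMod p) * b * j + a * ((P.2 : ZMod p) - c.2) + b * ((P.1 : ZMod p) - c.1)) = 0 := by
    linear_combination c5 - a5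
  have hX : (P.1 : ZMod p) - c.1 ≠ 0 := by
    intro h
    rw [h, zero_mul] at a5
    exact hk a5.symm
  have hY : (P.2 : ZMod p) - c.2 ≠ 0 := by
    intro h
    rw [h, mul_zero] at a5
    exact hk a5.symm
  have hcast : ∀ z : ℤ, (z : ZMod p) = 0 ↔ (p : ℤ) ∣ z := fun z => ZMod.intCast_zmod_eq_zero_iff_dvd z p
  have hsmall : ∀ z : ℤ, |z| < p → (z : ZMod p) = 0 → z = 0 := by
    intro z hz h
    exact Int.eq_zero_of_abs_lt_dvd ((hcast z).1 h) hz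
  by_cases ha0 : a = 0
  · have hb0 : b ≠ 0 := by
      rintro rfl
      rw [ha0] at hg
      simp at hg
    have hb' : (b : ZMod p) ≠ 0 := fun h => hb0 (hsmall b lb h)
    rw [ha0, Int.cast_zero, zero_mul, zero_mul, zero_mul, zero_add, zero_add] at fi fj
    have hi' : (i : ZMod p) = 0 := (mul_eq_zero.1 fi).resolve_right (mul_ne_zero hb' hX)
    have hj' : (j : ZMod p) = 0 := (mul_eq_zero.1 fj).resolve_right (mul_ne_zero hb' hX)
    exact ANo_notall hp1 ((hcast i).1 hi') ((hcast j).1 hj') hi hj hij hb0 ib jb db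
  by_cases hb0 : b = 0
  · have ha' : (a : ZMod p) ≠ 0 := fun h => ha0 (hsmall a la h)
    rw [hb0, Int.cast_zero, mul_zero, zero_mul, zero_mul, zero_add, add_zero] at fi fj
    have hi' : (i : ZMod p) = 0 := (mul_eq_zero.1 fi).resolve_right (mul_ne_zero ha' hY)
    have hj' : (j : ZMod p) = 0 := (mul_eq_zero.1 fj).resolve_right (mul_ne_zero ha' hY)
    exact ANo_notall hp1 ((hcast i).1 hi') ((hcast j).1 hj') hi hj hij ha0 ia ja da
  have ha' : (a : ZMod p) ≠ 0 := fun h => ha0 (hsmall a la h)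
  have hb' : (b : ZMod p) ≠ 0 := fun h => hb0 (hsmall b lb h)
  have hnot : ¬((i : ZMod p) = 0 ∧ (j : ZMod p) = 0) := fun h =>
    ANo_notall hp1 ((hcast i).1 h.1) ((hcast j).1 h.2) hi hj hij ha0 ia ja da
  by_cases hi0 : (i : ZMod p) = 0
  · obtain ⟨k1, k2, k3⟩ := ANo_dvd hp1 ((hcast i).1 hi0) hi ha0 hb0 ia ib
    exact ANo_fin hw hp hs ht hc hc' hS hP hQ hR k1 k2 k3 Q1 Q2 R1 R2 fun h => hnot ⟨hi0, h⟩
  by_cases hj0 : (j : ZMod p) = 0
  · obtain ⟨k1, k2, k3⟩ := ANo_dvd hp1 ((hcast j).1 hj0) hj ha0 hb0 ja jb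
    exact ANo_fin hw hp hs ht hc hc' hS hP hR hQ k1 k2 k3 R1 R2 Q1 Q2 hi0
  have gi := (mul_eq_zero.1 fi).resolve_left hi0
  have gj := (mul_eq_zero.1 fj).resolve_left hj0
  have hd0 : ((i - j : ℤ) : ZMod p) = 0 := by
    have h : ((a : ZMod p) * b) * ((i - j : ℤ) : ZMod p) = 0 := by
      push_cast
      linear_combination gi - gj
    exact (mul_eq_zero.1 h).resolve_left (mul_ne_zero ha' hb')
  obtain ⟨k1, k2, k3⟩ := ANo_dvd hp1 ((hcast _).1 hd0) (sub_ne_zero.2 hij) ha0 hb0 da db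
  refine ANo_fin hw hp hs ht hc hc' hS hR hQ hP (t := -j) k1 k2 k3 (by linarith) (by linarith)
    (by linarith) (by linarith) ?_
  push_cast
  exact neg_ne_zero.2 hj0

end Pool.Agent.H72.NL
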