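import Pool.Agent.H72.NL.Prim

/-!
ROW Alpha (MP_1efb31_NL, about 200 lines). The bound for the sum of `sP` over all points of all classes of the first pencil.

PROOF. Let `Z` be the set of points `z` of the board with `ev φ z = v` (at most `2p`: `par φ` is injective on it with values in `[0, 2p)`). The left side is at most the number of triples `(z, P, Q)`: `z ∈ Z`, `P ≠ Q` in the same `A k`, `Col P Q z`
(for each pair `(P, Q)` counted by `sP` choose a `z`). Here `P, Q ≠ z` (off the line). Apply `exists_prim` at `z`: `P = z + i e`, `Q = z + j e`, `gcd e = 1`, `i ≠ 0`, `j ≠ 0`, `i ≠ j`; with `n = nm e`: `|i| n, |j| n, |i - j| n < 2p`, and `max(|i|, |j|, |i - j|) ≥ 2`, so `n < p`.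
So it is enough to count the `(z, e, i, j)` (this determines the triple). `Fp c P = Fp c Q ≠ 0` gives, with `e = (a, b)`, `Z1 = z.1 - c.1`, `Z2 = z.2 - c.2` in `ZMod p`:
`(i - j) * ((i + j) * a * b + a * Z2 + b * Z1) = 0`.
(I) `i = j` in `ZMod p`: then `n = 1` (as `p ≤ |i - j|`, `|i - j| n < 2p`) and `j = i ± p` : at most `8 * 2p * 4p * 2 = 128 p^2` quadruples (`e`: at most 8, `z`: `2p`, `i`: at most `4p`, `j`: 2).
(II) `a = 0` or `b = 0` (then `e = (0, ±1)` or `(±1, 0)`): e.g. `a = 0`: the second factor is `b Z1`, and `Fp c P = Z1 * (..) ≠ 0` so `Z1 ≠ 0`: so (I). The same for `b = 0`.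
(III) `a, b ≠ 0`, so `a, b` are units of `ZMod p` (`|a|, |b| < p`), second factor zero. Let `κ = a, b, a + b, b - a` for `φ = (1,0), (0,1), (1,-1), (1,1)` (the coefficient of the parameter `par φ z` in `a Z2 + b Z1`: for `φ = (1,0)`: `z = (v, t)`;
`(0,1)`: `z = (t, v)`; `(1,-1)`: `z = (t, t - v)`; `(1,1)`: `z = (t, v - t)`).
(IIIa) `κ ≠ 0` in `ZMod p`: for given `(e, i, j)` the parameter of `z` is determined mod `p`: at most 2 points `z`. Number: at most `∑_e 2 (4p / n + 1)^2 ≤ 2 * 36 p^2 ∑_e 1 / n^2 ≤ 72 p^2 * 8 (1 + log (2p))` (`sum_box`; number of integers `i` with `|i| < 2p / n` at most `4p / n + 1 ≤ 6p / n`).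
(IIIb) `κ = 0` in `ZMod p`: this is impossible for `φ = (1,0), (0,1)`; for `(1,-1)`: `a + b ∈ {0, p, -p}` (`|a|, |b| < p`), for `(1,1)`: `b - a ∈ {0, p, -p}`. For given `(z, e, i)` the residue of `j` mod `p` is determined (`a b` is a unit): at most 4 values `|j| < 2p`.
If `a ± b = 0` then `n = 1` (gcd 1): at most 2 vectors `e`: at most `2 * 2p * 4p * 4 = 64 p^2`. If `a ± b = ±p`: `n ≥ p / 2`, so `|i| < 4`: at most 7 values of `i`; at most `2 * 2p` vectors `e` (`a ∈ (-p, p)`): at most `4p * 2p * 7 * 4 = 224 p^2`.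
Total `≤ 1000 p^2 (1 + log p)`... (`log (2p) ≤ 1 + log p`): `128 + 64 + 224 + 576 * (2 + log p) ≤ 2000 (1 + log p)`.
-/

set_option autoImplicit false

open scoped Classical

namespace Pool.Agent.H72.NL

private theorem al_cong {p m : ℕ} (hp : 0 < p) (L : ℤ) (S : Finset ℤ)
    (h1 : ∀ x ∈ S, L ≤ x ∧ x < L + m * p) (h2 : ∀ x ∈ S, ∀ y ∈ S, (p : ℤ) ∣ x - y) :
    S.card ≤ m := by
  have hp' : (0 : ℤ) < p := by exact_mod_cast hp
  have h3 : S.card ≤ (Finset.range m).card := by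
    apply Finset.card_le_card_of_injOn (fun x => ((x - L) / p).toNat)
    · intro x hx
      obtain ⟨h4, h5⟩ := h1 x hx
      have h6 : (x - L) / p < m := Int.ediv_lt_of_lt_mul hp' (by linarith)
      have h7 : 0 ≤ (x - L) / p := Int.ediv_nonneg (by linarith) hp'.le
      simp only [Finset.coe_range, Set.mem_Iio]
      omega
    · intro x hx y hy hxy
      obtain ⟨h4, h5⟩ := h1 x hx
      obtain ⟨h4', h5'⟩ := h1 y hy
      have h7 : 0 ≤ (x - L) / p := Int.ediv_nonneg (by linarith) hp'.le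
      have h7' : 0 ≤ (y - L) / p := Int.ediv_nonneg (by linarith) hp'.le
      have h8 : (x - L) / p = (y - L) / p := by
        have : ((x - L) / p).toNat = ((y - L) / p).toNat := hxy
        omega
      obtain ⟨k, hk⟩ := h2 x hx y hy
      have h9 := Int.emod_add_mul_ediv (x - L) p
      have h10 := Int.emod_add_mul_ediv (y - L) p
      have h11 := Int.emod_nonneg (x - L) hp'.ne'
      have h12 := Int.emod_lt_of_pos (x - L) hp'
      have h13 := Int.emod_nonneg (y - L) hp'.ne'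
      have h14 := Int.emod_lt_of_pos (y - L) hp'
      rw [h8] at h9
      have h15 : k < 1 := by
        by_contra hc
        push Not at hc
        nlinarith
      have h16 : -1 < k := by
        by_contra hc
        push Not at hc
        nlinarith
      have h17 : k = 0 := by omega
      rw [h17, mul_zero] at hk
      linarith
  simpa using h3

private theorem al_fib {α : Type*} (s : Finset α) (I : Finset ℤ) (R : α → ℤ → Prop) (m : ℕ)
    (h : ∀ a ∈ s, (I.filter (R a)).card ≤ m) :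
    ((s ×ˢ I).filter (fun x => R x.1 x.2)).card ≤ m * s.card := by
  rw [Finset.card_filter, Finset.sum_product]
  calc ∑ x ∈ s, ∑ y ∈ I, (if R (x, y).1 (x, y).2 then 1 else 0) ≤ ∑ x ∈ s, m := by
        apply Finset.sum_le_sum
        intro x hx
        have := h x hx
        rwa [Finset.card_filter] at this
    _ = m * s.card := by rw [Finset.sum_const, smul_eq_mul, mul_comm]

private theorem al_nm {p : ℕ} {e : Pt} {k : ℤ} (h1 : (k * e.1).natAbs < 2 * p)
    (h2 : (k * e.2).natAbs < 2 * p) : k.natAbs * nm e < 2 * p := by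
  rw [Int.natAbs_mul] at h1 h2
  rw [nm]
  rcases max_choice e.1.natAbs e.2.natAbs with h | h <;> rw [h] <;> assumption

private theorem al_lt {p n : ℕ} {i j : ℤ} (hi : i ≠ 0) (hj : j ≠ 0) (hij : i ≠ j)
    (h1 : i.natAbs * n < 2 * p) (h2 : j.natAbs * n < 2 * p) (h3 : (i - j).natAbs * n < 2 * p) :
    n < p := by
  have h : 2 ≤ i.natAbs ∨ 2 ≤ j.natAbs ∨ 2 ≤ (i - j).natAbs := by omega
  rcases h with h | h | h
  · have := Nat.mul_le_mul_right n h
    omega
  · have := Nat.mul_le_mul_right n h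
    omega
  · have := Nat.mul_le_mul_right n h
    omega

private theorem al_zero {p : ℕ} {a : ℤ} (h : a.natAbs < p) (h0 : (a : ZMod p) = 0) : a = 0 := by
  rw [ZMod.intCast_zmod_eq_zero_iff_dvd] at h0
  exact Int.eq_zero_of_abs_lt_dvd h0 (by rw [Int.abs_eq_natAbs]; exact_mod_cast h)

/-- a multiple of `p` of absolute value less than `2p` -/
private theorem al_three {p : ℕ} {k : ℤ} (h : (p : ℤ) ∣ k) (h1 : -(2 * p : ℤ) < k) (h2 : k < 2 * p) :
    k = 0 ∨ k = p ∨ k = -p := by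
  obtain ⟨m, rfl⟩ := h
  have hp : (0 : ℤ) < p := by
    by_contra hc
    push Not at hc
    have : (p : ℤ) = 0 := by omega
    rw [this] at h1
    simp at h1
  have h3 : m < 2 := by
    by_contra hc
    push Not at hc
    nlinarith
  have h4 : -2 < m := by
    by_contra hc
    push Not at hc
    nlinarith
  have h5 : m = -1 ∨ m = 0 ∨ m = 1 := by omega
  rcases h5 with rfl | rfl | rfl
  · right; right; ring
  · left; ring
  · right; left; ring

private theorem al_case {p : ℕ} (hp : 3 ≤ p) {β e : Pt}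
    (hβ : β = (0, 1) ∨ β = (1, 0) ∨ β = (1, 1) ∨ β = (1, -1)) (hg : Int.gcd e.1 e.2 = 1)
    (hn : nm e < p) (ha : ((e.1 : ℤ) : ZMod p) ≠ 0) (hb : ((e.2 : ℤ) : ZMod p) ≠ 0)
    (hk : ((e.1 * β.2 + e.2 * β.1 : ℤ) : ZMod p) = 0) {i : ℤ} (hi : i.natAbs * nm e < 2 * p) :
    (e ∈ Finset.Icc (-1 : ℤ) 1 ×ˢ Finset.Icc (-1 : ℤ) 1) ∨
      (i ∈ Finset.Icc (-3 : ℤ) 3 ∧
        e ∈ (Finset.Ioo (-(p : ℤ)) p ×ˢ ({1, -1} : Finset ℤ)).image
          (fun x => (x.1, x.2 * (p : ℤ) - x.1 * β.2))) := by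
  have h1 : e.1.natAbs ≤ nm e := le_max_left _ _
  have h2 : e.2.natAbs ≤ nm e := le_max_right _ _
  have key : ∀ s : ℤ, s = 1 ∨ s = -1 → β = (1, s) → (e ∈ Finset.Icc (-1 : ℤ) 1 ×ˢ Finset.Icc (-1 : ℤ) 1) ∨
      (i ∈ Finset.Icc (-3 : ℤ) 3 ∧
        e ∈ (Finset.Ioo (-(p : ℤ)) p ×ˢ ({1, -1} : Finset ℤ)).image
          (fun x => (x.1, x.2 * (p : ℤ) - x.1 * β.2))) := by
    intro s hs hβ
    subst hβ
    simp only [mul_one] at hk
    rw [ZMod.intCast_zmod_eq_zero_iff_dvd] at hk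
    have hs1 : (e.1 * s).natAbs = e.1.natAbs := by
      rcases hs with rfl | rfl <;> simp
    have h5 := al_three hk (by omega) (by omega)
    rcases h5 with h5 | h5
    · left
      have h6 : e.2 = - (e.1 * s) := by linarith
      have h7 : e.2.natAbs = e.1.natAbs := by rw [h6, Int.natAbs_neg, hs1]
      have h8 : e.1.natAbs = 1 := by
        rw [Int.gcd, h7, Nat.gcd_self] at hg
        exact hg
      rw [Finset.mem_product, Finset.mem_Icc, Finset.mem_Icc]
      omega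
    · right
      have h6 : p ≤ 2 * nm e := by omega
      have h7 : i.natAbs < 4 := by
        by_contra hc
        push Not at hc
        have := Nat.mul_le_mul_right (nm e) hc
        omega
      refine ⟨by rw [Finset.mem_Icc]; omega, ?_⟩
      rw [Finset.mem_image]
      rcases h5 with h5 | h5
      · refine ⟨(e.1, 1), ?_, ?_⟩
        · rw [Finset.mem_product, Finset.mem_Ioo]
          refine ⟨⟨?_, ?_⟩, by simp⟩ <;> simp only <;> omega
        · ext
          · rfl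
          · simp only
            linarith
      · refine ⟨(e.1, -1), ?_, ?_⟩
        · rw [Finset.mem_product, Finset.mem_Ioo]
          refine ⟨⟨?_, ?_⟩, by simp⟩ <;> simp only <;> omega
        · ext
          · rfl
          · simp only
            linarith
  rcases hβ with hβ | hβ | hβ | hβ
  · subst hβ
    simp only [mul_one, mul_zero, add_zero] at hk
    exact (ha hk).elim
  · subst hβ
    simp only [mul_one, mul_zero, zero_add] at hk
    exact (hb hk).elim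
  · exact key 1 (Or.inl rfl) hβ
  · exact key (-1) (Or.inr rfl) hβ

private abbrev AlT (p : ℕ) : Type := Σ _ : ZMod p, Σ _ : Pt, Pt

private def al_g (p : ℕ) (c : ZMod p × ZMod p) (α β e : Pt) (i j t : ℤ) : AlT p :=
  ⟨Fp c (α.1 + β.1 * t + i * e.1, α.2 + β.2 * t + i * e.2),
    ⟨(α.1 + β.1 * t + i * e.1, α.2 + β.2 * t + i * e.2),
      (α.1 + β.1 * t + j * e.1, α.2 + β.2 * t + j * e.2)⟩⟩

private def al_R (p : ℕ) (c : ZMod p × ZMod p) (α β e : Pt) (i j t : ℤ) : Prop :=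
  ((i : ZMod p) + j) * e.1 * e.2 + e.1 * ((α.2 : ZMod p) + β.2 * t - c.2) +
    e.2 * ((α.1 : ZMod p) + β.1 * t - c.1) = 0

private def al_R2 (p : ℕ) (c : ZMod p × ZMod p) (α β : Pt) (y : Σ _ : Pt, ℤ × ℤ) (t : ℤ) : Prop :=
  ((y.1.1 * β.2 + y.1.2 * β.1 : ℤ) : ZMod p) ≠ 0 ∧ al_R p c α β y.1 y.2.1 y.2.2 t

private def al_R3 (p : ℕ) (c : ZMod p × ZMod p) (α β : Pt) (y : Pt × ℤ × ℤ) (j : ℤ) : Prop :=
  (((y.1.1 : ℤ) : ZMod p) ≠ 0 ∧ ((y.1.2 : ℤ) : ZMod p) ≠ 0) ∧ al_R p c α β y.1 y.2.1 j y.2.2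

private noncomputable def al_J (p : ℕ) (e : Pt) : Finset ℤ :=
  Finset.Icc (-((2 * p / nm e : ℕ) : ℤ)) ((2 * p / nm e : ℕ) : ℤ)

private theorem al_mem_J {p : ℕ} {e : Pt} {k : ℤ} (h0 : 0 < nm e) (h : k.natAbs * nm e < 2 * p) :
    k ∈ al_J p e := by
  have h1 : k.natAbs ≤ 2 * p / nm e := (Nat.le_div_iff_mul_le h0).2 h.le
  rw [al_J, Finset.mem_Icc]
  omega

private theorem al_card_J {p : ℕ} {e : Pt} (h0 : 0 < nm e) (h : nm e ≤ p) :
    ((al_J p e).card : ℝ) ≤ 6 * p / nm e := by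
  have h1 : (al_J p e).card = 2 * (2 * p / nm e) + 1 := by
    rw [al_J, Int.card_Icc]
    omega
  have h2 : ((2 * p / nm e : ℕ) : ℝ) ≤ ((2 * p : ℕ) : ℝ) / (nm e : ℝ) := Nat.cast_div_le
  have h3 : (0 : ℝ) < nm e := by exact_mod_cast h0
  have h4 : (1 : ℝ) ≤ 2 * p / nm e := by
    rw [le_div_iff₀ h3]
    have : (nm e : ℝ) ≤ p := by exact_mod_cast h
    have h5 : (0 : ℝ) ≤ p := by positivity
    linarith
  rw [h1]
  push_cast at h2 ⊢
  have h5 : (6 : ℝ) * p / nm e = 3 * (2 * p / nm e) := by ring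
  rw [h5]
  linarith

private theorem al_nm_le {p : ℕ} {e : Pt}
    (h : e ∈ Finset.Icc (-(p : ℤ)) p ×ˢ Finset.Icc (-(p : ℤ)) p) : nm e ≤ p := by
  rw [Finset.mem_product, Finset.mem_Icc, Finset.mem_Icc] at h
  rw [nm, max_le_iff]
  omega

private theorem al_nm_pos {e : Pt} (h : e ≠ (0, 0)) : 0 < nm e := by
  rw [nm, lt_max_iff]
  by_contra hc
  push Not at hc
  apply h
  ext
  · simp only
    omega
  · simp only
    omega

private theorem al_T {p : ℕ} (hp : 1 ≤ p) :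
    ((((Finset.Icc (-(p : ℤ)) p ×ˢ Finset.Icc (-(p : ℤ)) p).filter (fun e => e ≠ (0, 0))).sigma
      (fun e => al_J p e ×ˢ al_J p e)).card : ℝ) ≤ 288 * (p : ℝ) ^ 2 * (1 + Real.log p) := by
  rw [Finset.card_sigma]
  push_cast [Finset.card_product]
  calc ∑ e ∈ (Finset.Icc (-(p : ℤ)) p ×ˢ Finset.Icc (-(p : ℤ)) p).filter (fun e => e ≠ (0, 0)),
        ((al_J p e).card : ℝ) * ((al_J p e).card : ℝ)
      ≤ ∑ e ∈ (Finset.Icc (-(p : ℤ)) p ×ˢ Finset.Icc (-(p : ℤ)) p).filter (fun e => e ≠ (0, 0)),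
        36 * (p : ℝ) ^ 2 * ((1 : ℝ) / (nm e : ℝ) ^ 2) := by
        apply Finset.sum_le_sum
        intro e he
        rw [Finset.mem_filter] at he
        have h1 := al_card_J (p := p) (al_nm_pos he.2) (al_nm_le he.1)
        have h2 : (36 : ℝ) * (p : ℝ) ^ 2 * ((1 : ℝ) / (nm e : ℝ) ^ 2) = (6 * p / nm e) * (6 * p / nm e) := by
          ring
        rw [h2]
        exact mul_le_mul h1 h1 (by positivity) (le_trans (by positivity) h1)
    _ = 36 * (p : ℝ) ^ 2 * ∑ e ∈ (Finset.Icc (-(p : ℤ)) p ×ˢ Finset.Icc (-(p : ℤ)) p).filter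
        (fun e => e ≠ (0, 0)), ((1 : ℝ) / (nm e : ℝ) ^ 2) := by rw [Finset.mul_sum]
    _ ≤ 36 * (p : ℝ) ^ 2 * (8 * (1 + Real.log p)) :=
        mul_le_mul_of_nonneg_left (sum_box p hp) (by positivity)
    _ = 288 * (p : ℝ) ^ 2 * (1 + Real.log p) := by ring

private theorem al_count (p : ℕ) [Fact p.Prime] (hp : 3 ≤ p) (c : ZMod p × ZMod p) (α β : Pt)
    (hβ : β = (0, 1) ∨ β = (1, 0) ∨ β = (1, 1) ∨ β = (1, -1)) (Θ : Finset (AlT p))
    (hΘ : ∀ x ∈ Θ, ∃ (e : Pt) (i j t : ℤ), 0 ≤ t ∧ t < 2 * p ∧ Int.gcd e.1 e.2 = 1 ∧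
      i.natAbs * nm e < 2 * p ∧ j.natAbs * nm e < 2 * p ∧ (i - j).natAbs * nm e < 2 * p ∧ nm e < p ∧
      (((p : ℤ) ∣ i - j ∧ i ≠ j) ∨ (((e.1 : ℤ) : ZMod p) ≠ 0 ∧ ((e.2 : ℤ) : ZMod p) ≠ 0 ∧
        al_R p c α β e i j t)) ∧ x = al_g p c α β e i j t) :
    (Θ.card : ℝ) ≤ 2000 * (p : ℝ) ^ 2 * (1 + Real.log p) := by
  obtain ⟨D1, hD1⟩ : ∃ D : Finset (Pt × ℤ × ℤ × ℤ), D = (Finset.Icc (-1 : ℤ) 1 ×ˢ Finset.Icc (-1 : ℤ) 1) ×ˢ
    Finset.Ico (-(2 * p : ℤ)) (2 * p) ×ˢ ({(p : ℤ), -(p : ℤ)} : Finset ℤ) ×ˢ Finset.Ico (0 : ℤ) (2 * p) := ⟨_, rfl⟩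
  obtain ⟨T, hT⟩ : ∃ T : Finset (Σ _ : Pt, ℤ × ℤ), T =
    ((Finset.Icc (-(p : ℤ)) p ×ˢ Finset.Icc (-(p : ℤ)) p).filter (fun e => e ≠ (0, 0))).sigma
      (fun e => al_J p e ×ˢ al_J p e) := ⟨_, rfl⟩
  obtain ⟨D2, hD2⟩ : ∃ D : Finset ((Σ _ : Pt, ℤ × ℤ) × ℤ), D = (T ×ˢ Finset.Ico (0 : ℤ) (2 * p)).filter
    (fun x => al_R2 p c α β x.1 x.2) := ⟨_, rfl⟩
  obtain ⟨E, hE⟩ : ∃ E : Finset (Pt × ℤ × ℤ), E = (Finset.Icc (-1 : ℤ) 1 ×ˢ Finset.Icc (-1 : ℤ) 1) ×ˢ
    Finset.Ico (-(2 * p : ℤ)) (2 * p) ×ˢ Finset.Ico (0 : ℤ) (2 * p) ∪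
      (Finset.Ioo (-(p : ℤ)) p ×ˢ ({1, -1} : Finset ℤ)).image
          (fun x => (x.1, x.2 * (p : ℤ) - x.1 * β.2)) ×ˢ Finset.Icc (-3 : ℤ) 3 ×ˢ
          Finset.Ico (0 : ℤ) (2 * p) := ⟨_, rfl⟩
  obtain ⟨D3, hD3⟩ : ∃ D : Finset ((Pt × ℤ × ℤ) × ℤ), D = (E ×ˢ Finset.Ico (-(2 * p : ℤ)) (2 * p)).filter
    (fun x => al_R3 p c α β x.1 x.2) := ⟨_, rfl⟩
  have hp0 : 0 < p := by omega
  have c1 : D1.card ≤ 144 * p ^ 2 := by
    rw [hD1]
    simp only [Finset.card_product, Int.card_Icc, Int.card_Ico]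
    have h1 : ({(p : ℤ), -(p : ℤ)} : Finset ℤ).card ≤ 2 := Finset.card_le_two
    have h2 : ((2 * p : ℤ) - -(2 * p)).toNat = 4 * p := by omega
    have h3 : ((2 * p : ℤ) - 0).toNat = 2 * p := by omega
    have h4 : ((1 : ℤ) + 1 - -1).toNat = 3 := rfl
    rw [h2, h3, h4]
    calc 3 * 3 * (4 * p * (({(p : ℤ), -(p : ℤ)} : Finset ℤ).card * (2 * p)))
        ≤ 3 * 3 * (4 * p * (2 * (2 * p))) := by gcongr
      _ = 144 * p ^ 2 := by ring
  have c2 : D2.card ≤ 2 * T.card := by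
    rw [hD2]
    apply al_fib T (Finset.Ico (0 : ℤ) (2 * p)) (al_R2 p c α β) 2
    intro y _
    apply al_cong hp0 0
    · intro x hx
      rw [Finset.mem_filter, Finset.mem_Ico] at hx
      push_cast
      exact ⟨hx.1.1, by linarith [hx.1.2]⟩
    · intro x hx x' hx'
      rw [Finset.mem_filter] at hx hx'
      rw [← ZMod.intCast_zmod_eq_zero_iff_dvd]
      have h1 := hx.2.2
      have h2 := hx'.2.2
      have h3 := hx.2.1
      rw [al_R] at h1 h2
      have h4 : ((y.1.1 * β.2 + y.1.2 * β.1 : ℤ) : ZMod p) * ((x - x' : ℤ) : ZMod p) = 0 := by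
        push_cast
        linear_combination h1 - h2
      exact (mul_eq_zero.1 h4).resolve_left h3
  have c3 : D3.card ≤ 4 * E.card := by
    rw [hD3]
    apply al_fib E (Finset.Ico (-(2 * p : ℤ)) (2 * p)) (al_R3 p c α β) 4
    intro y _
    apply al_cong hp0 (-(2 * p : ℤ))
    · intro x hx
      rw [Finset.mem_filter, Finset.mem_Ico] at hx
      push_cast
      exact ⟨hx.1.1, by linarith [hx.1.2]⟩
    · intro x hx x' hx'
      rw [Finset.mem_filter] at hx hx'
      rw [← ZMod.intCast_zmod_eq_zero_iff_dvd]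
      have h1 := hx.2.2
      have h2 := hx'.2.2
      obtain ⟨h3, h3'⟩ := hx.2.1
      rw [al_R] at h1 h2
      have h4 : (((y.1.1 : ℤ) : ZMod p) * ((y.1.2 : ℤ) : ZMod p)) * ((x - x' : ℤ) : ZMod p) = 0 := by
        push_cast
        linear_combination h1 - h2
      exact (mul_eq_zero.1 h4).resolve_left (mul_ne_zero h3 h3')
  have c4 : E.card ≤ 72 * p ^ 2 + 56 * p ^ 2 := by
    rw [hE]
    refine (Finset.card_union_le _ _).trans (Nat.add_le_add ?_ ?_)
    · simp only [Finset.card_product, Int.card_Icc, Int.card_Ico]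
      have h2 : ((2 * p : ℤ) - -(2 * p)).toNat = 4 * p := by omega
      have h3 : ((2 * p : ℤ) - 0).toNat = 2 * p := by omega
      have h4 : ((1 : ℤ) + 1 - -1).toNat = 3 := rfl
      rw [h2, h3, h4]
      apply le_of_eq
      ring
    · simp only [Finset.card_product, Int.card_Icc, Int.card_Ico]
      have h1 := Finset.card_image_le (s := Finset.Ioo (-(p : ℤ)) p ×ˢ ({1, -1} : Finset ℤ))
        (f := fun x : ℤ × ℤ => (x.1, x.2 * (p : ℤ) - x.1 * β.2))
      have h3 : ((2 * p : ℤ) - 0).toNat = 2 * p := by omega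
      have h4 : (Finset.Ioo (-(p : ℤ)) p ×ˢ ({1, -1} : Finset ℤ)).card ≤ 4 * p := by
        rw [Finset.card_product, Int.card_Ioo]
        have h5 : ({1, -1} : Finset ℤ).card ≤ 2 := Finset.card_le_two
        have h6 : ((p : ℤ) - -(p : ℤ) - 1).toNat ≤ 2 * p := by omega
        calc _ ≤ (2 * p) * 2 := Nat.mul_le_mul h6 h5
          _ = 4 * p := by ring
      have h5 : ((3 : ℤ) + 1 - -3).toNat = 7 := rfl
      rw [h3, h5]
      calc _ ≤ (4 * p) * (7 * (2 * p)) := Nat.mul_le_mul_right _ (h1.trans h4)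
        _ = 56 * p ^ 2 := by ring
  have hsub : Θ ⊆ D1.image (fun x => al_g p c α β x.1 x.2.1 (x.2.1 + x.2.2.1) x.2.2.2) ∪
      (D2.image (fun x => al_g p c α β x.1.1 x.1.2.1 x.1.2.2 x.2) ∪
      D3.image (fun x => al_g p c α β x.1.1 x.1.2.1 x.2 x.1.2.2)) := by
    intro x hx
    obtain ⟨e, i, j, t, ht0, ht, hg, hi, hj, hij, hn, h, hxe⟩ := hΘ x hx
    have he0 : e ≠ (0, 0) := by
      rintro rfl
      simp at hg
    have hn0 := al_nm_pos he0
    have hl1 : i.natAbs < 2 * p := lt_of_le_of_lt (Nat.le_mul_of_pos_right _ hn0) hi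
    have hl2 : j.natAbs < 2 * p := lt_of_le_of_lt (Nat.le_mul_of_pos_right _ hn0) hj
    have hl3 : (i - j).natAbs < 2 * p := lt_of_le_of_lt (Nat.le_mul_of_pos_right _ hn0) hij
    have h1 : e.1.natAbs ≤ nm e := le_max_left _ _
    have h2 : e.2.natAbs ≤ nm e := le_max_right _ _
    rw [Finset.mem_union, Finset.mem_union]
    rcases h with ⟨h, hne⟩ | ⟨ha, hb, hR⟩
    · left
      rw [Finset.mem_image]
      have h3 := al_three h (by omega) (by omega)
      have h4 : p ≤ (i - j).natAbs := by omega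
      have h5 : nm e < 2 := by
        by_contra hc
        push Not at hc
        have := Nat.mul_le_mul h4 hc
        omega
      refine ⟨(e, i, j - i, t), ?_, ?_⟩
      · rw [hD1]
        simp only [Finset.mem_product, Finset.mem_Icc, Finset.mem_Ico, Finset.mem_insert,
          Finset.mem_singleton]
        omega
      · rw [hxe]
        simp only [add_sub_cancel]
    · right
      by_cases hk : ((e.1 * β.2 + e.2 * β.1 : ℤ) : ZMod p) = 0
      · right
        rw [Finset.mem_image]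
        refine ⟨((e, i, t), j), ?_, ?_⟩
        · rw [hD3, Finset.mem_filter, Finset.mem_product]
          refine ⟨⟨?_, ?_⟩, ⟨ha, hb⟩, hR⟩
          · rw [hE, Finset.mem_union]
            rcases al_case hp hβ hg hn ha hb hk hi with h3 | ⟨h3, h4⟩
            · left
              refine Finset.mem_product.2 ⟨h3, Finset.mem_product.2 ⟨?_, ?_⟩⟩
              · simp only [Finset.mem_Ico]
                omega
              · simp only [Finset.mem_Ico]
                omega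
            · right
              refine Finset.mem_product.2 ⟨h4, Finset.mem_product.2 ⟨h3, ?_⟩⟩
              simp only [Finset.mem_Ico]
              omega
          · simp only [Finset.mem_Ico]
            omega
        · rw [hxe]
      · left
        rw [Finset.mem_image]
        refine ⟨(⟨e, (i, j)⟩, t), ?_, ?_⟩
        · rw [hD2, Finset.mem_filter, Finset.mem_product]
          refine ⟨⟨?_, ?_⟩, hk, hR⟩
          · rw [hT, Finset.mem_sigma, Finset.mem_product, Finset.mem_filter, Finset.mem_product]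
            refine ⟨⟨⟨?_, ?_⟩, he0⟩, al_mem_J hn0 hi, al_mem_J hn0 hj⟩
            · simp only [Finset.mem_Icc]
              omega
            · simp only [Finset.mem_Icc]
              omega
          · simp only [Finset.mem_Ico]
            omega
        · rw [hxe]
  have h1 : Θ.card ≤ D1.card + (D2.card + D3.card) := by
    refine (Finset.card_le_card hsub).trans ((Finset.card_union_le _ _).trans ?_)
    refine Nat.add_le_add Finset.card_image_le ((Finset.card_union_le _ _).trans ?_)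
    exact Nat.add_le_add Finset.card_image_le Finset.card_image_le
  have h2 : (Θ.card : ℝ) ≤ 144 * (p : ℝ) ^ 2 + (2 * (T.card : ℝ) + 4 * (128 * (p : ℝ) ^ 2)) := by
    have : Θ.card ≤ 144 * p ^ 2 + (2 * T.card + 4 * (128 * p ^ 2)) := by omega
    exact_mod_cast this
  have h3 := al_T (p := p) (by omega)
  rw [← hT] at h3
  have h4 : 0 ≤ Real.log p := Real.log_natCast_nonneg p
  have h5 : 0 ≤ (p : ℝ) ^ 2 * Real.log p := by positivity
  nlinarith

private theorem al_param (p : ℕ) {φ : ℤ × ℤ} (hφ : IsDir φ) (v : ℤ) : ∃ α β : Pt,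
    (β = (0, 1) ∨ β = (1, 0) ∨ β = (1, 1) ∨ β = (1, -1)) ∧ ∀ z ∈ bd (2 * p), ev φ z = v →
      ∃ t : ℤ, 0 ≤ t ∧ t < 2 * p ∧ z = (α.1 + β.1 * t, α.2 + β.2 * t) := by
  have hz : ∀ z ∈ bd (2 * p), (0 ≤ z.1 ∧ z.1 < 2 * p) ∧ 0 ≤ z.2 ∧ z.2 < 2 * p := by
    intro z hz
    have := mem_bd.1 hz
    push_cast at this
    exact this
  rcases hφ with rfl | rfl | rfl | rfl
  · refine ⟨(v, 0), (0, 1), Or.inl rfl, fun z h1 h2 => ⟨z.2, (hz z h1).2.1, (hz z h1).2.2, ?_⟩⟩
    simp only [ev] at h2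
    ext
    · simp only
      linarith
    · simp only
      linarith
  · refine ⟨(0, v), (1, 0), Or.inr (Or.inl rfl), fun z h1 h2 =>
      ⟨z.1, (hz z h1).1.1, (hz z h1).1.2, ?_⟩⟩
    simp only [ev] at h2
    ext
    · simp only
      linarith
    · simp only
      linarith
  · refine ⟨(0, -v), (1, 1), Or.inr (Or.inr (Or.inl rfl)), fun z h1 h2 =>
      ⟨z.1, (hz z h1).1.1, (hz z h1).1.2, ?_⟩⟩
    simp only [ev] at h2
    ext
    · simp only
      linarith
    · simp only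
      linarith
  · refine ⟨(0, v), (1, -1), Or.inr (Or.inr (Or.inr rfl)), fun z h1 h2 =>
      ⟨z.1, (hz z h1).1.1, (hz z h1).1.2, ?_⟩⟩
    simp only [ev] at h2
    ext
    · simp only
      linarith
    · simp only
      linarith

theorem alpha (p : ℕ) [Fact p.Prime] (hp : 3 ≤ p) {c : ZMod p × ZMod p} {A : ZMod p → Finset Pt} (hA : IsA p c A)
    {φ : ℤ × ℤ} (hφ : IsDir φ) {v : ℤ} (hv : ∀ k, ∀ P ∈ A k, ev φ P ≠ v) :
    ∑ k, ∑ P ∈ A k, (sP p φ v (A k) P : ℝ) ≤ 2000 * (p : ℝ) ^ 2 * (1 + Real.log p) := by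
  obtain ⟨α, β, hβ, hz⟩ := al_param p hφ v
  obtain ⟨Θ, hΘ⟩ : ∃ Θ : Finset (AlT p), Θ = Finset.univ.sigma (fun k => (A k).sigma (fun P =>
    (A k).filter fun Q => Q ≠ P ∧ ∃ z ∈ bd (2 * p), ev φ z = v ∧ Col P Q z)) := ⟨_, rfl⟩
  have h1 : ∑ k, ∑ P ∈ A k, (sP p φ v (A k) P : ℝ) = (Θ.card : ℝ) := by
    rw [hΘ, Finset.card_sigma]
    push_cast
    apply Finset.sum_congr rfl
    intro k _
    rw [Finset.card_sigma]
    push_cast
    rfl
  rw [h1]
  refine al_count p hp c α β hβ Θ ?_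
  rintro ⟨k, P, Q⟩ hx
  rw [hΘ] at hx
  obtain ⟨-, hx1⟩ := Finset.mem_sigma.1 hx
  obtain ⟨hP, hx2⟩ := Finset.mem_sigma.1 hx1
  simp only [Finset.mem_filter] at hx2
  obtain ⟨hQ, hne, z, hzb, hzv, hcol⟩ := hx2
  simp only at hP hQ hne hcol
  have hzP : P ≠ z := fun h => hv k P hP (by rw [h]; exact hzv)
  have hzQ : Q ≠ z := fun h => hv k Q hQ (by rw [h]; exact hzv)
  obtain ⟨t, ht0, ht, hzt⟩ := hz z hzb hzv
  have hcol' : Col z P Q := by
    rw [Col] at hcol ⊢
    linear_combination hcol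
  obtain ⟨e, i, j, hg, hi, hj, hPe, hQe⟩ := exists_prim hzP hzQ hcol'
  have hPb := mem_bd.1 (hA.sub k hP)
  have hQb := mem_bd.1 (hA.sub k hQ)
  have hzb' := mem_bd.1 hzb
  push_cast at hPb hQb hzb'
  have hP1 : P.1 = z.1 + i * e.1 := by rw [hPe]
  have hP2 : P.2 = z.2 + i * e.2 := by rw [hPe]
  have hQ1 : Q.1 = z.1 + j * e.1 := by rw [hQe]
  have hQ2 : Q.2 = z.2 + j * e.2 := by rw [hQe]
  have hij : i ≠ j := by
    rintro rfl
    exact hne (hQe.trans hPe.symm)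
  have k1 : i.natAbs * nm e < 2 * p := al_nm (by omega) (by omega)
  have k2 : j.natAbs * nm e < 2 * p := al_nm (by omega) (by omega)
  have k3 : (i - j).natAbs * nm e < 2 * p :=
    al_nm (by rw [sub_mul]; omega) (by rw [sub_mul]; omega)
  have k4 : nm e < p := al_lt hi hj hij k1 k2 k3
  have e1 : e.1.natAbs ≤ nm e := le_max_left _ _
  have e2 : e.2.natAbs ≤ nm e := le_max_right _ _
  obtain ⟨hFP, hk0⟩ := hA.val k P hP
  obtain ⟨hFQ, -⟩ := hA.val k Q hQ
  rw [Fp, hP1, hP2] at hFP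
  rw [Fp, hQ1, hQ2] at hFQ
  have hz1 : z.1 = α.1 + β.1 * t := by rw [hzt]
  have hz2 : z.2 = α.2 + β.2 * t := by rw [hzt]
  rw [hz1, hz2] at hFP hFQ
  push_cast at hFP hFQ
  have hprod : ((i : ZMod p) - j) * (((i : ZMod p) + j) * e.1 * e.2 +
      e.1 * ((α.2 : ZMod p) + β.2 * t - c.2) + e.2 * ((α.1 : ZMod p) + β.1 * t - c.1)) = 0 := by
    linear_combination hFP - hFQ
  refine ⟨e, i, j, t, ht0, ht, hg, k1, k2, k3, k4, ?_, ?_⟩
  · rcases mul_eq_zero.1 hprod with h2 | h2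
    · left
      refine ⟨?_, hij⟩
      rw [← ZMod.intCast_zmod_eq_zero_iff_dvd]
      push_cast
      exact h2
    · have hkk := hk0
      rw [← hFP] at hkk
      have ha : ((e.1 : ℤ) : ZMod p) ≠ 0 := by
        intro ha
        have ha0 : e.1 = 0 := al_zero (by omega) ha
        rw [ha, mul_zero, zero_mul, zero_mul, zero_add, zero_add] at h2
        rw [ha, mul_zero, add_zero] at hkk
        have hb := (mul_eq_zero.1 h2).resolve_right (left_ne_zero_of_mul hkk)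
        have hb0 : e.2 = 0 := al_zero (by omega) hb
        rw [ha0, hb0] at hg
        simp at hg
      have hb : ((e.2 : ℤ) : ZMod p) ≠ 0 := by
        intro hb
        have hb0 : e.2 = 0 := al_zero (by omega) hb
        rw [hb, mul_zero, zero_add, zero_mul, add_zero] at h2
        rw [hb, mul_zero, add_zero] at hkk
        exact ((mul_eq_zero.1 h2).resolve_right (right_ne_zero_of_mul hkk)) |> ha
      exact Or.inr ⟨ha, hb, h2⟩
  · have hF : Fp c P = k := (hA.val k P hP).1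
    rw [al_g, ← hz1, ← hz2, ← hPe, ← hQe, hF]

end Pool.Agent.H72.NL
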