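import Pool.Agent.H72.NL.Df

/-!
ROW Avg (MP_1efb31_NL, about 120 lines). A random affine assignment.

PROOF. Sum the left side over the `p (p - 1)` pairs `(l, s)`, `l ≠ 0`. Let `W = W(l, s) = V.filter (l κ P + s ∈ SS P)`.
(1) `Tr W ≤ 3 * ∑ over ordered pairs (P, P') ∈ W², P ≠ P', κ P ≠ κ P', of cc P P'` with `cc P P' = card {R ∈ Bd | R ≠ P, R ≠ P', Col P P' R}`: in a triple `(P, P', R)` of distinct collinear points of `W` not all three `κ` are equal (`hκ`), so `κ P ≠ κ P'` or `κ P ≠ κ R` or `κ P' ≠ κ R`;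
each of the three sets of triples injects (permute: `Col` is symmetric) into the pairs `((P, P'), R)` with `κ P ≠ κ P'`.
(2) For `κ P = k ≠ k' = κ P'` the number of `(l, s)` with `l k + s ∈ SS P`, `l k' + s ∈ SS P'` is at most `|SS P| |SS P'|` (`(l, s) ↦ (l k + s, l k' + s)` is injective). So `∑_{l ≠ 0, s} Tr W ≤ 3 ∑_{P ≠ P'} |SS P| |SS P'| cc ≤ 3 H`.
(3) `∑_{l ≠ 0, s} card {k | l k + s ∈ B k} = ∑_k (p - 1) |B k| ≤ p (p - 1) b` (for fixed `k`, `l` and `t ∈ B k` one `s`).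
So the sum of the left sides is at most `3 H / N² + p (p - 1) b` and some `(l, s)` has at most the average (`Finset.exists_le_of_sum_le` or by contradiction `Finset.sum_lt_sum`).
-/

set_option autoImplicit false

open scoped Classical

namespace Pool.Agent.H72.NL

private theorem avg_col1 {P Q R : Pt} (h : Col P Q R) : Col P R Q := by
  unfold Col at h ⊢
  exact h.symm

private theorem avg_col2 {P Q R : Pt} (h : Col P Q R) : Col Q R P := by
  unfold Col at h ⊢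
  linear_combination h

private theorem avg_tr {p : ℕ} {V Bd : Finset Pt} (hV : V ⊆ Bd) {κ : Pt → ZMod p}
    (hκ : ∀ k, N3 (V.filter fun P => κ P = k)) {W : Finset Pt} (hW : W ⊆ V) :
    Tr W ≤ 3 * ∑ z ∈ (W ×ˢ W).filter (fun z => z.1 ≠ z.2 ∧ κ z.1 ≠ κ z.2),
      (Bd.filter fun R => R ≠ z.1 ∧ R ≠ z.2 ∧ Col z.1 z.2 R).card := by
  obtain ⟨X, hX⟩ : ∃ X, X = (W ×ˢ W).filter (fun z => z.1 ≠ z.2 ∧ κ z.1 ≠ κ z.2) := ⟨_, rfl⟩
  obtain ⟨S, hS⟩ : ∃ S : Finset (Σ _ : Pt × Pt, Pt), S = X.sigma fun z =>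
      Bd.filter fun R => R ≠ z.1 ∧ R ≠ z.2 ∧ Col z.1 z.2 R := ⟨_, rfl⟩
  have hmem : ∀ P Q R : Pt, P ∈ W → Q ∈ W → R ∈ W → P ≠ Q → P ≠ R → Q ≠ R → Col P Q R →
      κ P ≠ κ Q → (⟨(P, Q), R⟩ : Σ _ : Pt × Pt, Pt) ∈ S := by
    intro P Q R hP hQ hR h1 h2 h3 h4 h5
    rw [hS, Finset.mem_sigma, hX, Finset.mem_filter, Finset.mem_product, Finset.mem_filter]
    exact ⟨⟨⟨hP, hQ⟩, h1, h5⟩, hV (hW hR), Ne.symm h2, Ne.symm h3, h4⟩
  have hc : S.card = ∑ z ∈ X, (Bd.filter fun R => R ≠ z.1 ∧ R ≠ z.2 ∧ Col z.1 z.2 R).card := by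
    rw [hS, Finset.card_sigma]
  rw [← hX, ← hc]
  unfold Tr
  obtain ⟨T, hT⟩ : ∃ T, T = (W ×ˢ W ×ˢ W).filter fun z : Pt × Pt × Pt =>
      z.1 ≠ z.2.1 ∧ z.1 ≠ z.2.2 ∧ z.2.1 ≠ z.2.2 ∧ Col z.1 z.2.1 z.2.2 := ⟨_, rfl⟩
  rw [← hT]
  have hTm : ∀ z ∈ T, (z.1 ∈ W ∧ z.2.1 ∈ W ∧ z.2.2 ∈ W) ∧
      z.1 ≠ z.2.1 ∧ z.1 ≠ z.2.2 ∧ z.2.1 ≠ z.2.2 ∧ Col z.1 z.2.1 z.2.2 := by
    intro z hz
    rw [hT, Finset.mem_filter, Finset.mem_product, Finset.mem_product] at hz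
    exact hz
  have hsub : T ⊆ T.filter (fun z => κ z.1 ≠ κ z.2.1) ∪
      (T.filter (fun z => κ z.1 ≠ κ z.2.2) ∪ T.filter (fun z => κ z.2.1 ≠ κ z.2.2)) := by
    intro z hz
    obtain ⟨⟨h1, h2, h3⟩, h4, h5, h6, h7⟩ := hTm z hz
    rw [Finset.mem_union, Finset.mem_union, Finset.mem_filter, Finset.mem_filter,
      Finset.mem_filter]
    by_contra hcon
    rw [not_or, not_or] at hcon
    obtain ⟨k1, k2, -⟩ := hcon
    have e1 : κ z.1 = κ z.2.1 := by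
      by_contra h
      exact k1 ⟨hz, h⟩
    have e2 : κ z.1 = κ z.2.2 := by
      by_contra h
      exact k2 ⟨hz, h⟩
    exact hκ (κ z.1) z.1 (Finset.mem_filter.2 ⟨hW h1, rfl⟩) z.2.1
      (Finset.mem_filter.2 ⟨hW h2, e1.symm⟩) z.2.2 (Finset.mem_filter.2 ⟨hW h3, e2.symm⟩)
      h4 h5 h6 h7
  have b1 : (T.filter (fun z => κ z.1 ≠ κ z.2.1)).card ≤ S.card := by
    refine Finset.card_le_card_of_injOn (fun z => ⟨(z.1, z.2.1), z.2.2⟩) ?_ ?_
    · intro z hz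
      obtain ⟨hz, hk⟩ := Finset.mem_filter.1 hz
      obtain ⟨⟨h1, h2, h3⟩, h4, h5, h6, h7⟩ := hTm z hz
      exact hmem _ _ _ h1 h2 h3 h4 h5 h6 h7 hk
    · rintro ⟨P, Q, R⟩ - ⟨P', Q', R'⟩ - h
      simp only [Sigma.mk.injEq, Prod.mk.injEq, heq_eq_eq] at h
      obtain ⟨⟨rfl, rfl⟩, rfl⟩ := h
      rfl
  have b2 : (T.filter (fun z => κ z.1 ≠ κ z.2.2)).card ≤ S.card := by
    refine Finset.card_le_card_of_injOn (fun z => ⟨(z.1, z.2.2), z.2.1⟩) ?_ ?_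
    · intro z hz
      obtain ⟨hz, hk⟩ := Finset.mem_filter.1 hz
      obtain ⟨⟨h1, h2, h3⟩, h4, h5, h6, h7⟩ := hTm z hz
      exact hmem _ _ _ h1 h3 h2 h5 h4 (Ne.symm h6) (avg_col1 h7) hk
    · rintro ⟨P, Q, R⟩ - ⟨P', Q', R'⟩ - h
      simp only [Sigma.mk.injEq, Prod.mk.injEq, heq_eq_eq] at h
      obtain ⟨⟨rfl, rfl⟩, rfl⟩ := h
      rfl
  have b3 : (T.filter (fun z => κ z.2.1 ≠ κ z.2.2)).card ≤ S.card := by
    refine Finset.card_le_card_of_injOn (fun z => ⟨(z.2.1, z.2.2), z.1⟩) ?_ ?_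
    · intro z hz
      obtain ⟨hz, hk⟩ := Finset.mem_filter.1 hz
      obtain ⟨⟨h1, h2, h3⟩, h4, h5, h6, h7⟩ := hTm z hz
      exact hmem _ _ _ h2 h3 h1 h6 (Ne.symm h4) (Ne.symm h5) (avg_col2 h7) hk
    · rintro ⟨P, Q, R⟩ - ⟨P', Q', R'⟩ - h
      simp only [Sigma.mk.injEq, Prod.mk.injEq, heq_eq_eq] at h
      obtain ⟨⟨rfl, rfl⟩, rfl⟩ := h
      rfl
  have h1 := Finset.card_le_card hsub
  have h2 := Finset.card_union_le (T.filter (fun z => κ z.1 ≠ κ z.2.1))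
    (T.filter (fun z => κ z.1 ≠ κ z.2.2) ∪ T.filter (fun z => κ z.2.1 ≠ κ z.2.2))
  have h3 := Finset.card_union_le (T.filter (fun z => κ z.1 ≠ κ z.2.2))
    (T.filter (fun z => κ z.2.1 ≠ κ z.2.2))
  omega

private theorem avg_cnt {p : ℕ} [Fact p.Prime] {k k' : ZMod p} (hk : k ≠ k')
    (A A' : Finset (ZMod p)) (Λ : Finset (ZMod p × ZMod p)) :
    (Λ.filter fun y => y.1 * k + y.2 ∈ A ∧ y.1 * k' + y.2 ∈ A').card ≤ A.card * A'.card := by
  rw [← Finset.card_product]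
  refine Finset.card_le_card_of_injOn (fun y => (y.1 * k + y.2, y.1 * k' + y.2)) ?_ ?_
  · intro y hy
    exact Finset.mem_product.2 (Finset.mem_filter.1 hy).2
  · rintro ⟨l, s⟩ - ⟨l', s'⟩ - h
    simp only [Prod.mk.injEq] at h
    obtain ⟨h1, h2⟩ := h
    have h3 : (l - l') * (k - k') = 0 := by linear_combination h1 - h2
    have h4 : l = l' := sub_eq_zero.1 ((mul_eq_zero.1 h3).resolve_right (sub_ne_zero.2 hk))
    subst h4
    have h5 : s = s' := by linear_combination h1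
    rw [h5]

private theorem avg_sum {p : ℕ} [Fact p.Prime] {V Bd : Finset Pt} (hV : V ⊆ Bd) {κ : Pt → ZMod p}
    (hκ : ∀ k, N3 (V.filter fun P => κ P = k)) {SS : Pt → Finset (ZMod p)}
    (Λ : Finset (ZMod p × ZMod p)) :
    ∑ y ∈ Λ, Tr (V.filter fun P => y.1 * κ P + y.2 ∈ SS P) ≤
      3 * ∑ P ∈ V, ∑ P' ∈ V.filter (fun P' => P' ≠ P), (SS P).card * (SS P').card *
        (Bd.filter fun R => R ≠ P ∧ R ≠ P' ∧ Col P P' R).card := by
  obtain ⟨Z, hZ⟩ : ∃ Z, Z = (V ×ˢ V).filter (fun z => z.1 ≠ z.2 ∧ κ z.1 ≠ κ z.2) := ⟨_, rfl⟩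
  obtain ⟨g, hg⟩ : ∃ g : Pt × Pt → ℕ, ∀ z, g z =
      (Bd.filter fun R => R ≠ z.1 ∧ R ≠ z.2 ∧ Col z.1 z.2 R).card := ⟨_, fun _ => rfl⟩
  have h1 : ∀ y : ZMod p × ZMod p, Tr (V.filter fun P => y.1 * κ P + y.2 ∈ SS P) ≤
      3 * ∑ z ∈ Z.filter (fun z => y.1 * κ z.1 + y.2 ∈ SS z.1 ∧ y.1 * κ z.2 + y.2 ∈ SS z.2),
        g z := by
    intro y
    refine (avg_tr hV hκ (Finset.filter_subset _ V)).trans (le_of_eq ?_)
    congr 1
    refine Finset.sum_congr ?_ fun z _ => (hg z).symm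
    ext z
    rw [hZ]
    simp only [Finset.mem_filter, Finset.mem_product]
    tauto
  calc ∑ y ∈ Λ, Tr (V.filter fun P => y.1 * κ P + y.2 ∈ SS P)
      ≤ ∑ y ∈ Λ, 3 * ∑ z ∈ Z.filter
          (fun z => y.1 * κ z.1 + y.2 ∈ SS z.1 ∧ y.1 * κ z.2 + y.2 ∈ SS z.2), g z :=
        Finset.sum_le_sum fun y _ => h1 y
    _ = 3 * ∑ z ∈ Z, ∑ y ∈ Λ,
          if y.1 * κ z.1 + y.2 ∈ SS z.1 ∧ y.1 * κ z.2 + y.2 ∈ SS z.2 then g z else 0 := by
        rw [← Finset.mul_sum, Finset.sum_comm]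
        congr 1
        exact Finset.sum_congr rfl fun y _ => Finset.sum_filter _ _
    _ ≤ 3 * ∑ z ∈ Z, (SS z.1).card * (SS z.2).card * g z := by
        refine Nat.mul_le_mul_left 3 (Finset.sum_le_sum fun z hz => ?_)
        rw [← Finset.sum_filter, Finset.sum_const, smul_eq_mul]
        rw [hZ, Finset.mem_filter] at hz
        exact Nat.mul_le_mul_right _ (avg_cnt hz.2.2 _ _ Λ)
    _ ≤ 3 * ∑ z ∈ (V ×ˢ V).filter (fun z => z.2 ≠ z.1), (SS z.1).card * (SS z.2).card * g z := by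
        refine Nat.mul_le_mul_left 3 (Finset.sum_le_sum_of_subset ?_)
        intro z hz
        rw [hZ, Finset.mem_filter] at hz
        exact Finset.mem_filter.2 ⟨hz.1, hz.2.1.symm⟩
    _ = _ := by
        congr 1
        rw [Finset.sum_filter, Finset.sum_product]
        refine Finset.sum_congr rfl fun P _ => ?_
        rw [Finset.sum_filter]
        refine Finset.sum_congr rfl fun P' _ => ?_
        rw [hg]

theorem avg {p : ℕ} [Fact p.Prime] {V Bd : Finset Pt} (hV : V ⊆ Bd) {κ : Pt → ZMod p}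
    (hκ : ∀ k, N3 (V.filter fun P => κ P = k)) {SS : Pt → Finset (ZMod p)} {H : ℝ}
    (hH : ∑ P ∈ V, ∑ P' ∈ V.filter (fun P' => P' ≠ P), ((SS P).card : ℝ) * ((SS P').card : ℝ) *
      ((Bd.filter fun R => R ≠ P ∧ R ≠ P' ∧ Col P P' R).card : ℝ) ≤ H)
    {B : ZMod p → Finset (ZMod p)} {b : ℕ} (hB : ∀ k, (B k).card ≤ b) {N : ℕ} (hN : 0 < N) :
    ∃ l s : ZMod p, l ≠ 0 ∧
      (Tr (V.filter fun P => l * κ P + s ∈ SS P) : ℝ) / (N : ℝ) ^ 2 +
        ((Finset.univ.filter fun k : ZMod p => l * k + s ∈ B k).card : ℝ) ≤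
      3 * H / ((N : ℝ) ^ 2 * (p * (p - 1))) + b := by
  have hp : p.Prime := Fact.out
  have hp1 : (1 : ℝ) < p := by exact_mod_cast hp.one_lt
  obtain ⟨Λ, hΛ⟩ : ∃ Λ : Finset (ZMod p × ZMod p),
      Λ = (Finset.univ.filter fun l : ZMod p => l ≠ 0) ×ˢ Finset.univ := ⟨_, rfl⟩
  have hc0 : (Finset.univ.filter fun l : ZMod p => l ≠ 0).card = p - 1 := by
    rw [Finset.filter_ne', Finset.card_erase_of_mem (Finset.mem_univ _), Finset.card_univ,
      ZMod.card]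
  have hcard : (Λ.card : ℝ) = p * (p - 1) := by
    rw [hΛ, Finset.card_product, hc0, Finset.card_univ, ZMod.card, Nat.cast_mul,
      Nat.cast_sub hp.one_lt.le, Nat.cast_one, mul_comm]
  have hne : Λ.Nonempty := by
    rw [← Finset.card_pos]
    have : (0 : ℝ) < Λ.card := by
      rw [hcard]
      exact mul_pos (by linarith) (by linarith)
    exact_mod_cast this
  -- the collinear triples
  have s1 : ∑ y ∈ Λ, (Tr (V.filter fun P => y.1 * κ P + y.2 ∈ SS P) : ℝ) ≤ 3 * H := by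
    have h1 := avg_sum (SS := SS) hV hκ Λ
    have h2 : ((∑ y ∈ Λ, Tr (V.filter fun P => y.1 * κ P + y.2 ∈ SS P) : ℕ) : ℝ) ≤
        ((3 * ∑ P ∈ V, ∑ P' ∈ V.filter (fun P' => P' ≠ P), (SS P).card * (SS P').card *
        (Bd.filter fun R => R ≠ P ∧ R ≠ P' ∧ Col P P' R).card : ℕ) : ℝ) := Nat.cast_le.2 h1
    push_cast at h2
    linarith
  -- the bad classes
  have s2 : ∑ y ∈ Λ, ((Finset.univ.filter fun k : ZMod p => y.1 * k + y.2 ∈ B k).card : ℝ) ≤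
      p * (p - 1) * b := by
    have h1 : ∑ y ∈ Λ, (Finset.univ.filter fun k : ZMod p => y.1 * k + y.2 ∈ B k).card ≤
        p * (p - 1) * b := by
      calc ∑ y ∈ Λ, (Finset.univ.filter fun k : ZMod p => y.1 * k + y.2 ∈ B k).card
          = ∑ k : ZMod p, ∑ l ∈ Finset.univ.filter (fun l : ZMod p => l ≠ 0),
              (Finset.univ.filter fun s : ZMod p => l * k + s ∈ B k).card := by
            rw [hΛ, Finset.sum_product, Finset.sum_comm]
            simp only [Finset.card_filter]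
            rw [Finset.sum_congr rfl fun s _ => Finset.sum_comm, Finset.sum_comm]
            refine Finset.sum_congr rfl fun k _ => Finset.sum_comm
        _ ≤ ∑ k : ZMod p, ∑ l ∈ Finset.univ.filter (fun l : ZMod p => l ≠ 0), b := by
            refine Finset.sum_le_sum fun k _ => Finset.sum_le_sum fun l _ => ?_
            refine le_trans ?_ (hB k)
            refine Finset.card_le_card_of_injOn (fun s => l * k + s) ?_ ?_
            · intro s hs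
              exact (Finset.mem_filter.1 hs).2
            · intro s _ s' _ h
              exact add_left_cancel h
        _ = p * (p - 1) * b := by
            rw [Finset.sum_const, Finset.sum_const, hc0, Finset.card_univ, ZMod.card, smul_eq_mul,
              smul_eq_mul, mul_assoc]
    have h2 : ((∑ y ∈ Λ, (Finset.univ.filter fun k : ZMod p => y.1 * k + y.2 ∈ B k).card : ℕ) : ℝ)
        ≤ ((p * (p - 1) * b : ℕ) : ℝ) := Nat.cast_le.2 h1
    rw [Nat.cast_sum, Nat.cast_mul, Nat.cast_mul, Nat.cast_sub hp.one_lt.le, Nat.cast_one] at h2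
    exact h2
  obtain ⟨y, hy, hle⟩ := Finset.exists_le_of_sum_le (s := Λ)
    (f := fun y => (Tr (V.filter fun P => y.1 * κ P + y.2 ∈ SS P) : ℝ) / (N : ℝ) ^ 2 +
        ((Finset.univ.filter fun k : ZMod p => y.1 * k + y.2 ∈ B k).card : ℝ))
    (g := fun _ => 3 * H / ((N : ℝ) ^ 2 * (p * (p - 1))) + b) hne (by
      rw [Finset.sum_add_distrib, ← Finset.sum_div, Finset.sum_const, nsmul_eq_mul, hcard]
      have hN2 : (0 : ℝ) < (N : ℝ) ^ 2 := by positivity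
      have hpp : (0 : ℝ) < p * (p - 1) := mul_pos (by linarith) (by linarith)
      have e1 : (p * (p - 1) : ℝ) * (3 * H / ((N : ℝ) ^ 2 * (p * (p - 1))) + b) =
          3 * H / (N : ℝ) ^ 2 + p * (p - 1) * b := by
        have hp2 : (p : ℝ) - 1 ≠ 0 := by linarith
        field_simp
      rw [e1]
      exact add_le_add (div_le_div_of_nonneg_right s1 hN2.le) s2)
  rw [hΛ, Finset.mem_product, Finset.mem_filter] at hy
  exact ⟨y.1, y.2, hy.1.2, hle⟩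

end Pool.Agent.H72.NL
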