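import Pool.Agent.H72.NL.Cls
import Pool.Agent.H72.NL.Chk
import Pool.Agent.H72.NL.Prim

/-!
ROW BNo (MP_1efb31_NL, about 250 lines). The classes of the second pencil have no three points on a line (use Cls, Chk, Prim as they stand).

Note `7 q = 6 p + w`, `100 w ≤ p`: `6p/7 < q < p`, `2 q < 2 p < 3 q`, `4 p < 5 q`.
PROOF. Let `P1, P2, P3 ∈ S` be distinct and collinear. `exists_prim`: `P2 = P1 + i e`, `P3 = P1 + j e`, `gcd e = 1`, `i, j ≠ 0`, `i ≠ j`, `n = nm e`; `|i| n, |j| n, |i - j| n < 2p`, one of `|i|, |j|, |i - j|` is `≥ 2`, so `n < p`. `e = (a, b)`, `X = P1.1 - d.1`, `Y = P1.2 - d.2` in `ZMod q`: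
`t * ((a² - b²) t + 2 (a X - b Y)) = 0` for `t = i, j`, and `X² - Y² = k ≠ 0`.
(i) `a² ≠ b²` in `ZMod q`: two of `0, i, j` are congruent mod `q`: difference `D`, `|D| ≥ q`, `|D| n < 2p < 3q`: `n ≤ 2`.
(ii) `a² = b²` in `ZMod q`: if `a X = b Y` then (`a ≠ 0` in `ZMod q`: `X² = Y²`, contradiction; `a = 0`, so `b = 0` in `ZMod q`: `|a|, |b| < p < 2 q`, so `a, b ∈ {0, q, -q}`, contradiction to gcd 1). So `i = j = 0` in `ZMod q` (`2 ≠ 0`), so one of `|i|, |j|, |i - j|` is `≥ 2 q`, `n = 1` and `e = (±1, ±1)`, and the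
three points are `(x, y), (x + q, y ± q), (x + 2q, y ± 2q)` (`|i|, |j|, |i - j| < 2p < 3q` are multiples of `q`): contradiction to `B3` (first two claims).
In (i): (n = 2) `e = (±1, ±2)` or `(±2, ±1)`, `|D| < p < 2q`, `D = ±q`: two of the points are `(x, y)`, `(x + q, y ± 2q)` or `(x + 2q, y ± q)`: contradiction to `B3`.
(n = 1) `e = (±1, 0)` or `(0, ±1)` (not `(±1, ±1)`, as `a² ≠ b²`). Row (`b = 0`): all three have the second coordinate `y`, class `cy = cls p w (sc y)`; two are `(x, y)`, `(x + μ q, y)`, `μ ∈ {1, 2}`; the third `(x3, y)`: the values `(x3 - d.1)² = (x - d.1)²` in `ZMod q`. If `x3 = x` in `ZMod q`, the three are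
`x0, x0 + q, x0 + 2q`: contradiction to `B1` (first claim). Otherwise `x3 = 2 d.1 - x = s1 - x` in `ZMod q`: `x3 = s1 - x + ν q` with `0 ≤ ν ≤ 4` (`0 ≤ s1 < q` from `hs1`; `0 ≤ x3`, `x ≥ 0` give `ν ≥ 0`; `ν q < 2p + x - s1 < 4 p + 1.. < 5 q`): contradiction to `B1` (second claim). Columns: the same with `B2`.
Classes by `cls_p`, `cls_m` (`Nb` for the coordinates of the base point `(x, y)`): `sc (x + μ q) = sc x + 2 (6 μ) p + 2 μ w` (`14 q = 12 p + 2 w`): `tp 6 1`, `tp 12 2`, for `y - μ q`: `tp (-6) (-1)`, `tp (-12) (-2)`; `sc (s1 - x + ν q) = -sc x + 2 (5 + 6 ν) p + 2 ν w + r`, `r = 14 (s1 + 1) - 10 p`: `tm (5 + 6 ν) ν`.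
-/

set_option autoImplicit false

open scoped Classical

namespace Pool.Agent.H72.NL

private def BNo_ok (p : ℕ) (w x y : ℤ) : Prop :=
  (0 ≤ x ∧ x < 2 * (p : ℤ)) ∧ (0 ≤ y ∧ y < 2 * (p : ℤ)) ∧ Nb p w x ∧ Nb p w y ∧
    okB (cls p w (sc x)) (cls p w (sc y)) = true

private lemma BNo_c0 {p : ℕ} {w x : ℤ} (hw : 0 < w) (hp : 100 * w ≤ p) (hx0 : 0 ≤ x) (hx : x < 2 * (p : ℤ))
    (hn : Nb p w x) : cls p w (sc x) = tp 0 0 (mic p w (sc x)) := by
  have h := cls_p (p := (p : ℤ)) hw hp hx0 hx hn (i0 := 0) (j0 := 0) (r := 0) (by norm_num) (by norm_num)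
  rw [← h]
  ring_nf

private lemma BNo_cq {p q : ℕ} {w x : ℤ} (hw : 0 < w) (hp : 100 * w ≤ p) (hq : 7 * (q : ℤ) = 6 * p + w)
    (hx0 : 0 ≤ x) (hx : x < 2 * (p : ℤ)) (hn : Nb p w x) {μ : ℤ} (hμ : |μ| ≤ 4) :
    cls p w (sc (x + μ * q)) = tp (6 * μ) μ (mic p w (sc x)) := by
  have h := cls_p (p := (p : ℤ)) hw hp hx0 hx hn (i0 := 6 * μ) (j0 := μ) (r := 0) hμ (by norm_num)
  rw [← h]
  have h2 : sc (x + μ * q) = sc x + 2 * (6 * μ) * (p : ℤ) + 2 * μ * w + 0 := by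
    unfold sc
    linear_combination (2 * μ) * hq
  rw [h2]

private lemma BNo_cm {p q : ℕ} {w x : ℤ} (hw : 0 < w) (hp : 100 * w ≤ p) (hq : 7 * (q : ℤ) = 6 * p + w)
    {s : ℤ} (hs : |14 * (s + 1) - 10 * (p : ℤ)| ≤ 7)
    (hx0 : 0 ≤ x) (hx : x < 2 * (p : ℤ)) (hn : Nb p w x) {ν : ℤ} (hν : |ν| ≤ 4) :
    cls p w (sc (s - x + ν * q)) = tm (5 + 6 * ν) ν (mic p w (sc x)) := by
  have h := cls_m (p := (p : ℤ)) hw hp hx0 hx hn (i0 := 5 + 6 * ν) (j0 := ν)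
    (r := 14 * (s + 1) - 10 * (p : ℤ)) hν hs
  rw [← h]
  have h2 : sc (s - x + ν * q) =
      -sc x + 2 * (5 + 6 * ν) * (p : ℤ) + 2 * ν * w + (14 * (s + 1) - 10 * (p : ℤ)) := by
    unfold sc
    linear_combination (2 * ν) * hq
  rw [h2]

private lemma BNo_nu {p q : ℕ} {w : ℤ} (hw : 0 < w) (hp : 100 * w ≤ p) (hq : 7 * (q : ℤ) = 6 * p + w)
    {s : ℤ} (hs : |14 * (s + 1) - 10 * (p : ℤ)| ≤ 7) {x ν : ℤ} (hx0 : 0 ≤ x) (hx : x < 2 * (p : ℤ))
    (h0 : 0 ≤ s - x + ν * q) (h1 : s - x + ν * q < 2 * (p : ℤ)) : 0 ≤ ν ∧ ν < 5 := by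
  have hs' := abs_le.1 hs
  have hq0 : 0 < (q : ℤ) := by linarith
  constructor
  · by_contra hc
    push Not at hc
    have h2 : ν * (q : ℤ) ≤ (-1) * q := mul_le_mul_of_nonneg_right (by omega) hq0.le
    omega
  · by_contra hc
    push Not at hc
    have h2 : 5 * (q : ℤ) ≤ ν * q := mul_le_mul_of_nonneg_right hc hq0.le
    omega

private lemma BNo_D {p q : ℕ} {w x y : ℤ} (hw : 0 < w) (hp : 100 * w ≤ p) (hq : 7 * (q : ℤ) = 6 * p + w)
    (h0 : BNo_ok p w x y) :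
    ¬(BNo_ok p w (x + 1 * q) (y + 1 * q) ∧ BNo_ok p w (x + 2 * q) (y + 2 * q)) ∧
    ¬(BNo_ok p w (x + 1 * q) (y + (-1) * q) ∧ BNo_ok p w (x + 2 * q) (y + (-2) * q)) ∧
    ¬BNo_ok p w (x + 1 * q) (y + 2 * q) ∧ ¬BNo_ok p w (x + 1 * q) (y + (-2) * q) ∧
    ¬BNo_ok p w (x + 2 * q) (y + 1 * q) ∧ ¬BNo_ok p w (x + 2 * q) (y + (-1) * q) := by
  obtain ⟨⟨hx0, hx⟩, ⟨hy0, hy⟩, hnx, hny, hok⟩ := h0
  have key : ∀ μ ν : ℤ, |μ| ≤ 4 → |ν| ≤ 4 → BNo_ok p w (x + μ * q) (y + ν * q) →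
      okB (tp (6 * μ) μ (mic p w (sc x))) (tp (6 * ν) ν (mic p w (sc y))) = true := by
    rintro μ ν hμ hν ⟨_, _, _, _, h⟩
    rwa [BNo_cq hw hp hq hx0 hx hnx hμ, BNo_cq hw hp hq hy0 hy hny hν] at h
  rw [BNo_c0 hw hp hx0 hx hnx, BNo_c0 hw hp hy0 hy hny] at hok
  have hx1 := mic_lt hw hp hx0 hx
  have hy1 := mic_lt hw hp hy0 hy
  obtain ⟨b1, b2, b3, b4, b5, b6⟩ := B3 hx1.1 hx1.2 hy1.1 hy1.2 hok
  refine ⟨?_, ?_, ?_, ?_, ?_, ?_⟩
  · rintro ⟨h1, h2⟩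
    have k1 := key 1 1 (by norm_num) (by norm_num) h1
    have k2 := key 2 2 (by norm_num) (by norm_num) h2
    norm_num at k1 k2
    exact b1 ⟨k1, k2⟩
  · rintro ⟨h1, h2⟩
    have k1 := key 1 (-1) (by norm_num) (by norm_num) h1
    have k2 := key 2 (-2) (by norm_num) (by norm_num) h2
    norm_num at k1 k2
    exact b2 ⟨k1, k2⟩
  · intro h1
    have k1 := key 1 2 (by norm_num) (by norm_num) h1
    norm_num at k1
    rw [b3] at k1
    exact absurd k1 (by decide)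
  · intro h1
    have k1 := key 1 (-2) (by norm_num) (by norm_num) h1
    norm_num at k1
    rw [b4] at k1
    exact absurd k1 (by decide)
  · intro h1
    have k1 := key 2 1 (by norm_num) (by norm_num) h1
    norm_num at k1
    rw [b5] at k1
    exact absurd k1 (by decide)
  · intro h1
    have k1 := key 2 (-1) (by norm_num) (by norm_num) h1
    norm_num at k1
    rw [b6] at k1
    exact absurd k1 (by decide)

private lemma BNo_R {p q : ℕ} {w x y : ℤ} (hw : 0 < w) (hp : 100 * w ≤ p) (hq : 7 * (q : ℤ) = 6 * p + w)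
    {s : ℤ} (hs : |14 * (s + 1) - 10 * (p : ℤ)| ≤ 7) (h0 : BNo_ok p w x y) :
    (BNo_ok p w (x + 1 * q) y → ¬BNo_ok p w (x + 2 * q) y) ∧
    ∀ μ ν : ℤ, (μ = 1 ∨ μ = 2) → BNo_ok p w (x + μ * q) y → ¬BNo_ok p w (s - x + ν * q) y := by
  obtain ⟨⟨hx0, hx⟩, ⟨hy0, hy⟩, hnx, hny, hok⟩ := h0
  have key : ∀ μ : ℤ, |μ| ≤ 4 → BNo_ok p w (x + μ * q) y →
      okB (tp (6 * μ) μ (mic p w (sc x))) (cls p w (sc y)) = true := by
    rintro μ hμ ⟨_, _, _, _, h⟩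
    rwa [BNo_cq hw hp hq hx0 hx hnx hμ] at h
  rw [BNo_c0 hw hp hx0 hx hnx] at hok
  have hx1 := mic_lt hw hp hx0 hx
  have hy1 := inb_cls hw hp hy0 hy
  obtain ⟨b1, b2⟩ := B1 hx1.1 hx1.2 hy1.1 hy1.2 hok
  refine ⟨?_, ?_⟩
  · intro h1 h2
    have k1 := key 1 (by norm_num) h1
    have k2 := key 2 (by norm_num) h2
    norm_num at k1 k2
    exact b1 ⟨k1, k2⟩
  · intro μ ν hμ h1 h2
    obtain ⟨⟨r0, r1⟩, _, _, _, h3⟩ := h2
    obtain ⟨n0, n1⟩ := BNo_nu hw hp hq hs hx0 hx r0 r1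
    rw [BNo_cm hw hp hq hs hx0 hx hnx (abs_le.2 ⟨by linarith, by omega⟩)] at h3
    rw [b2 ν n0 n1 ?_] at h3
    · exact absurd h3 (by decide)
    · rcases hμ with rfl | rfl
      · have k1 := key 1 (by norm_num) h1
        norm_num at k1
        exact Or.inl k1
      · have k1 := key 2 (by norm_num) h1
        norm_num at k1
        exact Or.inr k1

private lemma BNo_C {p q : ℕ} {w x y : ℤ} (hw : 0 < w) (hp : 100 * w ≤ p) (hq : 7 * (q : ℤ) = 6 * p + w)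
    {s : ℤ} (hs : |14 * (s + 1) - 10 * (p : ℤ)| ≤ 7) (h0 : BNo_ok p w y x) :
    (BNo_ok p w y (x + 1 * q) → ¬BNo_ok p w y (x + 2 * q)) ∧
    ∀ μ ν : ℤ, (μ = 1 ∨ μ = 2) → BNo_ok p w y (x + μ * q) → ¬BNo_ok p w y (s - x + ν * q) := by
  obtain ⟨⟨hy0, hy⟩, ⟨hx0, hx⟩, hny, hnx, hok⟩ := h0
  have key : ∀ μ : ℤ, |μ| ≤ 4 → BNo_ok p w y (x + μ * q) →
      okB (cls p w (sc y)) (tp (6 * μ) μ (mic p w (sc x))) = true := by
    rintro μ hμ ⟨_, _, _, _, h⟩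
    rwa [BNo_cq hw hp hq hx0 hx hnx hμ] at h
  rw [BNo_c0 hw hp hx0 hx hnx] at hok
  have hx1 := mic_lt hw hp hx0 hx
  have hy1 := inb_cls hw hp hy0 hy
  obtain ⟨b1, b2⟩ := B2 hx1.1 hx1.2 hy1.1 hy1.2 hok
  refine ⟨?_, ?_⟩
  · intro h1 h2
    have k1 := key 1 (by norm_num) h1
    have k2 := key 2 (by norm_num) h2
    norm_num at k1 k2
    exact b1 ⟨k1, k2⟩
  · intro μ ν hμ h1 h2
    obtain ⟨_, ⟨r0, r1⟩, _, _, h3⟩ := h2
    obtain ⟨n0, n1⟩ := BNo_nu hw hp hq hs hx0 hx r0 r1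
    rw [BNo_cm hw hp hq hs hx0 hx hnx (abs_le.2 ⟨by linarith, by omega⟩)] at h3
    rw [b2 ν n0 n1 ?_] at h3
    · exact absurd h3 (by decide)
    · rcases hμ with rfl | rfl
      · have k1 := key 1 (by norm_num) h1
        norm_num at k1
        exact Or.inl k1
      · have k1 := key 2 (by norm_num) h1
        norm_num at k1
        exact Or.inr k1

private lemma BNo_three {p q : ℕ} {w : ℤ} (hw : 0 < w) (hp : 100 * w ≤ p) (hq : 7 * (q : ℤ) = 6 * p + w)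
    {c : ℤ} {F : ℤ → Prop} (hF : ∀ x, F x → 0 ≤ c + x ∧ c + x < 2 * (p : ℤ))
    (h3 : ∀ x, F x → F (x + 1 * q) → ¬F (x + 2 * q)) {x μ τ : ℤ} (h0 : F x) (hμ : μ = 1 ∨ μ = 2)
    (h1 : F (x + μ * q)) (h2 : F (x + τ * q)) (hτ : τ ≠ 0) (hτ' : τ ≠ μ) : False := by
  have hq0 : 0 < (q : ℤ) := by linarith
  have r0 := hF _ h0
  have r1 := hF _ h1
  have r2 := hF _ h2
  have b1 : -3 < τ := by
    by_contra hc
    push Not at hc
    have h4 : τ * (q : ℤ) ≤ (-3) * q := mul_le_mul_of_nonneg_right hc hq0.le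
    omega
  have b2 : τ < 3 := by
    by_contra hc
    push Not at hc
    have h4 : 3 * (q : ℤ) ≤ τ * q := mul_le_mul_of_nonneg_right hc hq0.le
    omega
  rcases hμ with rfl | rfl
  · have h5 : τ = -2 ∨ τ = -1 ∨ τ = 2 := by omega
    rcases h5 with rfl | rfl | rfl
    · omega
    · refine h3 (x + -1 * q) h2 ?_ ?_
      · rw [show x + -1 * (q : ℤ) + 1 * q = x by ring]
        exact h0
      · rw [show x + -1 * (q : ℤ) + 2 * q = x + 1 * q by ring]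
        exact h1
    · exact h3 x h0 h1 h2
  · have h5 : τ = -2 ∨ τ = -1 ∨ τ = 1 := by omega
    rcases h5 with rfl | rfl | rfl
    · omega
    · omega
    · exact h3 x h0 h2 h1

private lemma BNo_cong {q : ℕ} {x z : ℤ} (h : (z : ZMod q) = (x : ZMod q)) : ∃ τ : ℤ, z = x + τ * q := by
  have h1 : ((z - x : ℤ) : ZMod q) = 0 := by
    push_cast
    rw [h, sub_self]
  obtain ⟨τ, hτ⟩ := (ZMod.intCast_zmod_eq_zero_iff_dvd _ q).1 h1
  exact ⟨τ, by linarith⟩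

private lemma BNo_line {p q : ℕ} [Fact q.Prime] {w : ℤ} (hw : 0 < w) (hp : 100 * w ≤ p)
    (hq : 7 * (q : ℤ) = 6 * p + w)
    {s : ℤ} {δ : ZMod q} (hδ : δ + δ = (s : ZMod q)) {F : ℤ → Prop}
    (hF : ∀ x, F x → 0 ≤ 0 + x ∧ 0 + x < 2 * (p : ℤ))
    (h3 : ∀ x, F x → F (x + 1 * q) → ¬F (x + 2 * q))
    (hr : ∀ x μ ν : ℤ, F x → (μ = 1 ∨ μ = 2) → F (x + μ * q) → ¬F (s - x + ν * q))
    {x μ z : ℤ} (h0 : F x) (hμ : μ = 1 ∨ μ = 2) (h1 : F (x + μ * q)) (h2 : F z) (hz : z ≠ x)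
    (hz' : z ≠ x + μ * q) (he : ((z : ZMod q) - δ) ^ 2 = ((x : ZMod q) - δ) ^ 2) : False := by
  have h4 : ((z : ZMod q) - x) * ((z : ZMod q) - ((s - x : ℤ) : ZMod q)) = 0 := by
    push_cast
    rw [← hδ]
    linear_combination he
  rcases mul_eq_zero.1 h4 with h5 | h5
  · obtain ⟨τ, hτ⟩ := BNo_cong (sub_eq_zero.1 h5)
    rw [hτ] at h2
    refine BNo_three hw hp hq hF h3 h0 hμ h1 h2 ?_ ?_
    · rintro rfl
      exact hz (by rw [hτ]; ring)
    · rintro rfl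
      exact hz' hτ
  · obtain ⟨ν, hν⟩ := BNo_cong (sub_eq_zero.1 h5)
    rw [hν] at h2
    exact hr x μ ν h0 hμ h1 h2

private lemma BNo_two {p q : ℕ} {w : ℤ} (hw : 0 < w) (hp : 100 * w ≤ p) (hq : 7 * (q : ℤ) = 6 * p + w) :
    (2 : ZMod q) ≠ 0 := by
  intro h
  have h1 : ((2 : ℕ) : ZMod q) = 0 := by exact_mod_cast h
  rw [ZMod.natCast_eq_zero_iff] at h1
  have := Nat.le_of_dvd (by norm_num) h1
  omega

private lemma BNo_pos {p q : ℕ} [Fact q.Prime] {w : ℤ} (hw : 0 < w) (hp : 100 * w ≤ p)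
    (hq : 7 * (q : ℤ) = 6 * p + w) {s1 s2 : ℤ} (hs1 : |14 * (s1 + 1) - 10 * (p : ℤ)| ≤ 7)
    (hs2 : |14 * (s2 + 1) - 10 * (p : ℤ)| ≤ 7) {d : ZMod q × ZMod q}
    (hd1 : d.1 + d.1 = (s1 : ZMod q)) (hd2 : d.2 + d.2 = (s2 : ZMod q)) {k : ZMod q} (hk : k ≠ 0)
    {x y z t μ ν : ℤ} (h0 : BNo_ok p w x y) (h1 : BNo_ok p w (x + μ * q) (y + ν * q)) (h2 : BNo_ok p w z t)
    (hg0 : ((x : ZMod q) - d.1) ^ 2 - ((y : ZMod q) - d.2) ^ 2 = k)
    (hg2 : ((z : ZMod q) - d.1) ^ 2 - ((t : ZMod q) - d.2) ^ 2 = k)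
    (hn0 : ¬(z = x ∧ t = y)) (hn1 : ¬(z = x + μ * q ∧ t = y + ν * q))
    (hcol : μ * (t - y) = (z - x) * ν)
    (hpos : 0 < μ ∨ μ = 0 ∧ 0 < ν) : False := by
  have hq0 : 0 < (q : ℤ) := by linarith
  have h2' := BNo_two hw hp hq
  obtain ⟨⟨a0, a1⟩, ⟨a2, a3⟩, _, _, _⟩ := id h0
  obtain ⟨⟨c0, c1⟩, ⟨c2, c3⟩, _, _, _⟩ := id h1
  have hμ3 : μ < 3 := by
    by_contra hc
    push Not at hc
    have h4 : 3 * (q : ℤ) ≤ μ * q := mul_le_mul_of_nonneg_right hc hq0.le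
    omega
  have hν3 : ν < 3 := by
    by_contra hc
    push Not at hc
    have h4 : 3 * (q : ℤ) ≤ ν * q := mul_le_mul_of_nonneg_right hc hq0.le
    omega
  have hν3' : -3 < ν := by
    by_contra hc
    push Not at hc
    have h4 : ν * (q : ℤ) ≤ (-3) * q := mul_le_mul_of_nonneg_right hc hq0.le
    omega
  -- the cases
  have hcol1 : ν = 0 → μ = 1 ∨ μ = 2 → False := by
    rintro rfl hμ
    have ht : t = y := by rcases hμ with rfl | rfl <;> linarith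
    subst ht
    rw [zero_mul, add_zero] at h1
    refine BNo_line (F := fun u => BNo_ok p w u t) hw hp hq hd1 (fun u hu => by simpa using hu.1)
      (fun u hu => (BNo_R hw hp hq hs1 hu).1) (fun u m n hu => (BNo_R hw hp hq hs1 hu).2 m n) h0 hμ h1 h2
      (fun h => hn0 ⟨h, rfl⟩) (fun h => hn1 ⟨h, by ring⟩) ?_
    linear_combination hg2 - hg0
  have hrow1 : μ = 0 → ν = 1 ∨ ν = 2 → False := by
    rintro rfl hν
    have hz : z = x := by rcases hν with rfl | rfl <;> linarith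
    subst hz
    rw [zero_mul, add_zero] at h1
    refine BNo_line (F := fun u => BNo_ok p w z u) hw hp hq hd2 (fun u hu => by simpa using hu.2.1)
      (fun u hu => (BNo_C hw hp hq hs2 hu).1) (fun u m n hu => (BNo_C hw hp hq hs2 hu).2 m n) h0 hν h1 h2
      (fun h => hn0 ⟨rfl, h⟩) (fun h => hn1 ⟨by ring, h⟩) ?_
    linear_combination hg0 - hg2
  have hdg : ν = μ → μ = 1 ∨ μ = 2 → False := by
    rintro rfl hμ
    have ht : t = y + (z - x) := by rcases hμ with rfl | rfl <;> linarith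
    have e1 : ((z : ZMod q) - x) * (2 * (((x : ZMod q) - d.1) - ((y : ZMod q) - d.2))) = 0 := by
      rw [ht] at hg2
      push_cast at hg2
      linear_combination hg2 - hg0
    have e2 : ((x : ZMod q) - d.1) - ((y : ZMod q) - d.2) ≠ 0 := by
      intro h
      refine hk ?_
      rw [← hg0]
      linear_combination (((x : ZMod q) - d.1) + ((y : ZMod q) - d.2)) * h
    have e3 : (z : ZMod q) - x = 0 := by
      rcases mul_eq_zero.1 e1 with h | h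
      · exact h
      · exact absurd h (mul_ne_zero h2' e2)
    obtain ⟨τ, hτ⟩ := BNo_cong (sub_eq_zero.1 e3)
    have ht' : t = y + τ * q := by rw [ht, hτ]; ring
    refine BNo_three (F := fun u => BNo_ok p w (x + u) (y + u)) (c := x) (x := 0) (μ := ν) (τ := τ) hw hp hq
      (fun u hu => hu.1) ?_ ?_ hμ ?_ ?_ ?_ ?_
    · intro u hu hu1 hu2
      refine (BNo_D hw hp hq hu).1 ⟨?_, ?_⟩
      · simpa only [add_assoc] using hu1
      · simpa only [add_assoc] using hu2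
    · simpa only [add_zero] using h0
    · simpa only [zero_add] using h1
    · simp only [zero_add]
      rw [← hτ, ← ht']
      exact h2
    · rintro rfl
      exact hn0 ⟨by rw [hτ]; ring, by rw [ht']; ring⟩
    · rintro rfl
      exact hn1 ⟨hτ, ht'⟩
  have hag : ν = -μ → μ = 1 ∨ μ = 2 → False := by
    rintro rfl hμ
    have ht : t = y - (z - x) := by rcases hμ with rfl | rfl <;> linarith
    have e1 : ((z : ZMod q) - x) * (2 * (((x : ZMod q) - d.1) + ((y : ZMod q) - d.2))) = 0 := by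
      rw [ht] at hg2
      push_cast at hg2
      linear_combination hg2 - hg0
    have e2 : ((x : ZMod q) - d.1) + ((y : ZMod q) - d.2) ≠ 0 := by
      intro h
      refine hk ?_
      rw [← hg0]
      linear_combination (((x : ZMod q) - d.1) - ((y : ZMod q) - d.2)) * h
    have e3 : (z : ZMod q) - x = 0 := by
      rcases mul_eq_zero.1 e1 with h | h
      · exact h
      · exact absurd h (mul_ne_zero h2' e2)
    obtain ⟨τ, hτ⟩ := BNo_cong (sub_eq_zero.1 e3)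
    have ht' : t = y - τ * q := by rw [ht, hτ]; ring
    refine BNo_three (F := fun u => BNo_ok p w (x + u) (y - u)) (c := x) (x := 0) (μ := μ) (τ := τ) hw hp hq
      (fun u hu => hu.1) ?_ ?_ hμ ?_ ?_ ?_ ?_
    · intro u hu hu1 hu2
      refine (BNo_D hw hp hq hu).2.1 ⟨?_, ?_⟩
      · rw [show x + u + 1 * (q : ℤ) = x + (u + 1 * q) by ring,
          show y - u + -1 * (q : ℤ) = y - (u + 1 * q) by ring]
        exact hu1
      · rw [show x + u + 2 * (q : ℤ) = x + (u + 2 * q) by ring,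
          show y - u + -2 * (q : ℤ) = y - (u + 2 * q) by ring]
        exact hu2
    · simpa only [add_zero, sub_zero] using h0
    · simp only [zero_add]
      rw [show y - μ * (q : ℤ) = y + -μ * q by ring]
      exact h1
    · simp only [zero_add]
      rw [← hτ, ← ht']
      exact h2
    · rintro rfl
      exact hn0 ⟨by rw [hτ]; ring, by rw [ht']; ring⟩
    · rintro rfl
      exact hn1 ⟨hτ, by rw [ht']; ring⟩
  obtain ⟨_, _, b3, b4, b5, b6⟩ := BNo_D hw hp hq h0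
  rcases hpos with hμ | ⟨hμ, hν⟩
  · have hμ' : μ = 1 ∨ μ = 2 := by omega
    have hν' : ν = -2 ∨ ν = -1 ∨ ν = 0 ∨ ν = 1 ∨ ν = 2 := by omega
    rcases hν' with rfl | rfl | rfl | rfl | rfl
    · rcases hμ' with rfl | rfl
      · exact b4 h1
      · exact hag rfl (Or.inr rfl)
    · rcases hμ' with rfl | rfl
      · exact hag rfl (Or.inl rfl)
      · exact b6 h1
    · exact hcol1 rfl hμ'
    · rcases hμ' with rfl | rfl
      · exact hdg rfl (Or.inl rfl)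
      · exact b5 h1
    · rcases hμ' with rfl | rfl
      · exact b3 h1
      · exact hdg rfl (Or.inr rfl)
  · exact hrow1 hμ (by omega)

theorem B_N3 {p q : ℕ} [Fact q.Prime] {w : ℤ} (hw : 0 < w) (hp : 100 * w ≤ p) (hq : 7 * (q : ℤ) = 6 * p + w)
    {s1 s2 : ℤ} (hs1 : |14 * (s1 + 1) - 10 * p| ≤ 7) (hs2 : |14 * (s2 + 1) - 10 * p| ≤ 7) {d : ZMod q × ZMod q}
    (hd1 : d.1 + d.1 = (s1 : ZMod q)) (hd2 : d.2 + d.2 = (s2 : ZMod q)) {k : ZMod q} (hk : k ≠ 0) {S : Finset Pt}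
    (hS : ∀ P ∈ S, P ∈ bd (2 * p) ∧ Nb p w P.1 ∧ Nb p w P.2 ∧ okB (cls p w (sc P.1)) (cls p w (sc P.2)) = true ∧
      Gq d P = k) : N3 S := by
  have hq0 : 0 < (q : ℤ) := by linarith
  have h2' := BNo_two hw hp hq
  have hok : ∀ P ∈ S, BNo_ok p w P.1 P.2 := by
    intro P hP
    obtain ⟨h1, h2, h3, h4, _⟩ := hS P hP
    rw [mem_bd] at h1
    push_cast at h1
    exact ⟨h1.1, h1.2, h2, h3, h4⟩
  have hg : ∀ P ∈ S, ((P.1 : ZMod q) - d.1) ^ 2 - ((P.2 : ZMod q) - d.2) ^ 2 = k := by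
    intro P hP
    exact (hS P hP).2.2.2.2
  -- two congruent points
  have main : ∀ P ∈ S, ∀ Q ∈ S, ∀ R ∈ S, P ≠ Q → P ≠ R → Q ≠ R → Col P Q R →
      ∀ μ ν : ℤ, Q = (P.1 + μ * q, P.2 + ν * q) → False := by
    intro P hP Q hQ R hR hPQ hPR hQR hcol μ ν hQe
    have hQ1 : Q.1 = P.1 + μ * q := by rw [hQe]
    have hQ2 : Q.2 = P.2 + ν * q := by rw [hQe]
    unfold Col at hcol
    rw [hQ1, hQ2] at hcol
    have hcol' : μ * (R.2 - P.2) = (R.1 - P.1) * ν := by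
      have : (q : ℤ) * (μ * (R.2 - P.2)) = q * ((R.1 - P.1) * ν) := by linear_combination hcol
      exact mul_left_cancel₀ hq0.ne' this
    have hPQ' : ¬(μ = 0 ∧ ν = 0) := by
      rintro ⟨rfl, rfl⟩
      exact hPQ (by rw [hQe]; simp)
    have o1 := hok Q hQ
    have hn0 : ¬(R.1 = P.1 ∧ R.2 = P.2) := fun h => hPR (Prod.ext h.1.symm h.2.symm)
    have hn1 : ¬(R.1 = Q.1 ∧ R.2 = Q.2) := fun h => hQR (Prod.ext h.1.symm h.2.symm)
    by_cases hpos : 0 < μ ∨ μ = 0 ∧ 0 < ν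
    · rw [hQ1, hQ2] at o1 hn1
      exact BNo_pos hw hp hq hs1 hs2 hd1 hd2 hk (hok P hP) o1 (hok R hR) (hg P hP) (hg R hR) hn0 hn1 hcol' hpos
    · have hP1 : P.1 = Q.1 + (-μ) * q := by rw [hQ1]; ring
      have hP2 : P.2 = Q.2 + (-ν) * q := by rw [hQ2]; ring
      have o2 := hok P hP
      rw [hP1, hP2] at o2
      have hn0' : ¬(R.1 = Q.1 + (-μ) * q ∧ R.2 = Q.2 + (-ν) * q) := by
        rw [← hP1, ← hP2]
        exact hn0
      refine BNo_pos hw hp hq hs1 hs2 hd1 hd2 hk o1 o2 (hok R hR) (hg Q hQ) (hg R hR) hn1 hn0' ?_ (by omega)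
      rw [hQ1, hQ2]
      linear_combination (-1) * hcol'
  intro P hP Q hQ R hR hPQ hPR hQR hcol
  obtain ⟨e, i, j, hgcd, hi, hj, hQe, hRe⟩ := exists_prim hPQ.symm hPR.symm hcol
  have hQ1 : Q.1 = P.1 + i * e.1 := by rw [hQe]
  have hQ2 : Q.2 = P.2 + i * e.2 := by rw [hQe]
  have hR1 : R.1 = P.1 + j * e.1 := by rw [hRe]
  have hR2 : R.2 = P.2 + j * e.2 := by rw [hRe]
  have g0 := hg P hP
  have g1 := hg Q hQ
  have g2 := hg R hR
  rw [hQ1, hQ2] at g1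
  rw [hR1, hR2] at g2
  push_cast at g1 g2
  obtain ⟨X, hX⟩ : ∃ X : ZMod q, X = (P.1 : ZMod q) - d.1 := ⟨_, rfl⟩
  obtain ⟨Y, hY⟩ : ∃ Y : ZMod q, Y = (P.2 : ZMod q) - d.2 := ⟨_, rfl⟩
  have E1 : (i : ZMod q) * (((e.1 : ZMod q) ^ 2 - (e.2 : ZMod q) ^ 2) * i +
      2 * ((e.1 : ZMod q) * X - (e.2 : ZMod q) * Y)) = 0 := by
    rw [hX, hY]
    linear_combination g1 - g0
  have E2 : (j : ZMod q) * (((e.1 : ZMod q) ^ 2 - (e.2 : ZMod q) ^ 2) * j +
      2 * ((e.1 : ZMod q) * X - (e.2 : ZMod q) * Y)) = 0 := by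
    rw [hX, hY]
    linear_combination g2 - g0
  have E0 : X ^ 2 - Y ^ 2 ≠ 0 := by
    rw [hX, hY, g0]
    exact hk
  rcases mul_eq_zero.1 E1 with h | h
  · -- i = 0
    obtain ⟨τ, hτ⟩ := BNo_cong (x := 0) (z := i) (by rw [h]; simp)
    refine main P hP Q hQ R hR hPQ hPR hQR hcol (τ * e.1) (τ * e.2) ?_
    rw [hQe, hτ]
    refine Prod.ext ?_ ?_ <;> simp only <;> ring
  · rcases mul_eq_zero.1 E2 with h' | h'
    · obtain ⟨τ, hτ⟩ := BNo_cong (x := 0) (z := j) (by rw [h']; simp)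
      refine main P hP R hR Q hQ hPR hPQ hQR.symm ?_ (τ * e.1) (τ * e.2) ?_
      · unfold Col at hcol ⊢
        linarith
      · rw [hRe, hτ]
        refine Prod.ext ?_ ?_ <;> simp only <;> ring
    · have E3 : ((e.1 : ZMod q) ^ 2 - (e.2 : ZMod q) ^ 2) * ((j : ZMod q) - i) = 0 := by
        linear_combination h' - h
      rcases mul_eq_zero.1 E3 with h3 | h3
      · exfalso
        have h4 : (e.1 : ZMod q) * X - (e.2 : ZMod q) * Y = 0 := by
          rw [h3, zero_mul, zero_add] at h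
          rcases mul_eq_zero.1 h with h5 | h5
          · exact absurd h5 h2'
          · exact h5
        have h5 : (e.1 : ZMod q) ^ 2 * (X ^ 2 - Y ^ 2) = 0 := by
          linear_combination ((e.1 : ZMod q) * X + (e.2 : ZMod q) * Y) * h4 - Y ^ 2 * h3
        have h6 : (e.1 : ZMod q) = 0 := by
          rcases mul_eq_zero.1 h5 with h7 | h7
          · exact pow_eq_zero_iff (two_ne_zero) |>.1 h7
          · exact absurd h7 E0
        have h7 : (e.2 : ZMod q) = 0 := by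
          rw [h6] at h3
          have : (e.2 : ZMod q) ^ 2 = 0 := by linear_combination (-1) * h3
          exact pow_eq_zero_iff (two_ne_zero) |>.1 this
        have h8 : (q : ℤ) ∣ e.1 := (ZMod.intCast_zmod_eq_zero_iff_dvd _ q).1 h6
        have h9 : (q : ℤ) ∣ e.2 := (ZMod.intCast_zmod_eq_zero_iff_dvd _ q).1 h7
        have h10 : (q : ℤ) ∣ ((Int.gcd e.1 e.2 : ℕ) : ℤ) := Int.dvd_coe_gcd h8 h9
        rw [hgcd] at h10
        have h11 : q ∣ 1 := by exact_mod_cast h10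
        have h12 := Nat.le_of_dvd (by norm_num) h11
        have h13 := (Fact.out : q.Prime).two_le
        omega
      · obtain ⟨τ, hτ⟩ := BNo_cong (sub_eq_zero.1 h3)
        refine main Q hQ R hR P hP hQR hPQ.symm hPR.symm ?_ (τ * e.1) (τ * e.2) ?_
        · unfold Col at hcol ⊢
          linear_combination hcol
        · rw [hRe, hQe, hτ]
          refine Prod.ext ?_ ?_ <;> simp only <;> ring

end Pool.Agent.H72.NL
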