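import Pool.Agent.H72.NL.Prim

/-!
ROW Beta (MP_1efb31_NL, about 130 lines). Pointwise bound for `sP`.

Let `D0 = v - ev φ P ≠ 0`. Let `Q ∈ S`, `Q ≠ P`, `z` on the board with `ev φ z = v`, `Col P Q z`; `z ≠ P` as `ev φ P ≠ v`. By `exists_prim`: `Q = P + i e`, `z = P + j e`, `gcd e = 1`, `i, j ≠ 0`. Replacing `(e, i, j)` by `(-e, -i, -j)` if necessary `i = g ≥ 1`
(`g = gcd (Q - P)`). `ev φ` is additive: `j * ev φ e = D0`, so `f = ev φ e` is a nonzero divisor of `D0`: `f.natAbs ∈ D0.natAbs.divisors`: at most `2 τ` values of `f`, `τ = card of the divisors`. `g * nm e < 2p` (both points on the board).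
(a) `g ≤ G` where `G = Nat.sqrt p + 1` (`√p < G ≤ √p + 1`): `ev φ Q = ev φ P + g f`: at most `2 τ G` values, and for each value at most two points `Q ∈ S` (`N3 S`: three distinct points with the same `ev φ` are collinear, as `φ` is one of the four forms): at most `4 τ G` points `Q`.
(b) `g > G`: `nm e < 2p / G ≤ 2 √p`; `e` is determined by `f = ev φ e` and `par φ e` (`|par φ e| ≤ nm e`), so there are at most `2 τ (4 √p + 1)` vectors `e`, and for each `e` at most one `Q = P + g e ∈ S`, `Q ≠ P`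
(`N3 S` and `P ∈ S`: two such `Q`, `Q'` would be collinear with `P`).
Total: `4 τ (√p + 1) + 2 τ (4 √p + 1) = τ (12 √p + 6) ≤ 20 τ √p` (`p ≥ 2`: `6 ≤ 8 √p`).
-/

set_option autoImplicit false

open scoped Classical

namespace Pool.Agent.H72.NL

private theorem beta_fib {S : Finset Pt} (h3 : N3 S) {φ : ℤ × ℤ} (hφ : IsDir φ) {A B C : Pt}
    (hA : A ∈ S) (hB : B ∈ S) (hC : C ∈ S) (hAB : A ≠ B) (hAC : A ≠ C) (hBC : B ≠ C)
    (h1 : ev φ A = ev φ B) (h2 : ev φ A = ev φ C) : False := by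
  refine h3 A hA B hB C hC hAB hAC hBC ?_
  unfold Col
  unfold ev at h1 h2
  rcases hφ with rfl | rfl | rfl | rfl
  · dsimp only at h1 h2
    linear_combination -(C.2 - A.2) * h1 + (B.2 - A.2) * h2
  · dsimp only at h1 h2
    linear_combination (C.1 - A.1) * h1 - (B.1 - A.1) * h2
  · dsimp only at h1 h2
    linear_combination (B.1 - A.1) * h2 - (C.1 - A.1) * h1
  · dsimp only at h1 h2
    linear_combination -(B.1 - A.1) * h2 + (C.1 - A.1) * h1

private theorem beta_par {φ : ℤ × ℤ} (hφ : IsDir φ) {e e' : Pt} (h1 : ev φ e = ev φ e')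
    (h2 : par φ e = par φ e') : e = e' := by
  unfold ev at h1
  unfold par at h2
  rcases hφ with rfl | rfl | rfl | rfl
  · rw [if_pos rfl, if_pos rfl] at h2
    dsimp only at h1
    exact Prod.ext (by linear_combination h1) h2
  · rw [if_neg (by decide), if_neg (by decide)] at h2
    dsimp only at h1
    exact Prod.ext h2 (by linear_combination h1)
  · rw [if_neg (by decide), if_neg (by decide)] at h2
    dsimp only at h1
    exact Prod.ext h2 (by linear_combination h2 - h1)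
  · rw [if_neg (by decide), if_neg (by decide)] at h2
    dsimp only at h1
    exact Prod.ext h2 (by linear_combination h1 - h2)

private theorem beta_abs {p : ℕ} {g x : ℤ} (hp : 0 < p) (hg : ((Nat.sqrt p + 1 : ℕ) : ℤ) < g)
    (hx : |g * x| < 2 * (p : ℤ)) : x ∈ Finset.Icc (-(Nat.sqrt (4 * p) : ℤ)) (Nat.sqrt (4 * p)) := by
  have h1 : (p : ℤ) < ((Nat.sqrt p + 1 : ℕ) : ℤ) ^ 2 := by
    exact_mod_cast Nat.lt_succ_sqrt' p
  have h2 : (p : ℤ) < g ^ 2 := by nlinarith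
  have hp' : (0 : ℤ) < p := by exact_mod_cast hp
  have h3 : (g * x) ^ 2 < (2 * (p : ℤ)) ^ 2 := by
    rw [← sq_abs]
    exact pow_lt_pow_left₀ hx (abs_nonneg _) (by norm_num)
  have h4 : x ^ 2 ≤ 4 * (p : ℤ) := by
    by_contra hc
    push Not at hc
    nlinarith
  have h5 : x.natAbs ^ 2 ≤ 4 * p := by
    have e : ((x.natAbs ^ 2 : ℕ) : ℤ) = x ^ 2 := by
      push_cast
      rw [sq_abs]
    have h6 : ((x.natAbs ^ 2 : ℕ) : ℤ) ≤ ((4 * p : ℕ) : ℤ) := by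
      rw [e]
      push_cast
      exact h4
    exact_mod_cast h6
  have h6 := Nat.le_sqrt'.2 h5
  rw [Finset.mem_Icc]
  omega

private theorem beta_a {S T : Finset Pt} (h3 : N3 S) {φ : ℤ × ℤ} (hφ : IsDir φ)
    (hTS : ∀ Q ∈ T, Q ∈ S) {w : ℤ} {F : Finset ℤ} {g : Pt → ℤ} {e : Pt → Pt} (G : ℕ)
    (hg1 : ∀ Q ∈ T, 1 ≤ g Q) (hg3 : ∀ Q ∈ T, ev φ (e Q) ∈ F)
    (hevQ : ∀ Q ∈ T, ev φ Q = w + g Q * ev φ (e Q)) :
    (T.filter fun Q => g Q ≤ (G : ℤ)).card ≤ 2 * (G * F.card) := by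
  have hmaps : ∀ Q ∈ T.filter (fun Q => g Q ≤ (G : ℤ)),
      (g Q, ev φ (e Q)) ∈ Finset.Icc (1 : ℤ) G ×ˢ F := by
    intro Q hQ
    rw [Finset.mem_filter] at hQ
    rw [Finset.mem_product, Finset.mem_Icc]
    exact ⟨⟨hg1 Q hQ.1, hQ.2⟩, hg3 Q hQ.1⟩
  have h := Finset.card_le_mul_card_image_of_maps_to hmaps 2 (by
    intro b hb
    by_contra hc
    push Not at hc
    rw [Finset.two_lt_card_iff] at hc
    obtain ⟨A, B, C, hA, hB, hC, hAB, hAC, hBC⟩ := hc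
    rw [Finset.mem_filter, Finset.mem_filter] at hA hB hC
    have eA := hevQ A hA.1.1
    have eB := hevQ B hB.1.1
    have eC := hevQ C hC.1.1
    have hA2 := hA.2
    have hB2 := hB.2
    have hC2 := hC.2
    rw [Prod.ext_iff] at hA2 hB2 hC2
    dsimp only at hA2 hB2 hC2
    rw [hA2.1, hA2.2] at eA
    rw [hB2.1, hB2.2] at eB
    rw [hC2.1, hC2.2] at eC
    exact beta_fib h3 hφ (hTS A hA.1.1) (hTS B hB.1.1) (hTS C hC.1.1) hAB hAC hBC
      (eA.trans eB.symm) (eA.trans eC.symm))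
  rw [Finset.card_product, Int.card_Icc] at h
  have e1 : ((G : ℤ) + 1 - 1).toNat = G := by simp
  rw [e1] at h
  exact h

private theorem beta_dif {P Q : Pt} {g : ℤ} {e : Pt} (h : Q = (P.1 + g * e.1, P.2 + g * e.2)) :
    g * e.1 = Q.1 - P.1 ∧ g * e.2 = Q.2 - P.2 := by
  rw [h]
  constructor
  · dsimp only
    ring
  · dsimp only
    ring

private theorem beta_b {p : ℕ} (hp : 0 < p) {S T : Finset Pt} (hS : S ⊆ bd (2 * p)) (h3 : N3 S)
    {P : Pt} (hP : P ∈ S) {φ : ℤ × ℤ} (hφ : IsDir φ)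
    (hTS : ∀ Q ∈ T, Q ∈ S) (hTP : ∀ Q ∈ T, Q ≠ P) {F : Finset ℤ} {g : Pt → ℤ} {e : Pt → Pt}
    (hg2 : ∀ Q ∈ T, Q = (P.1 + g Q * (e Q).1, P.2 + g Q * (e Q).2))
    (hg3 : ∀ Q ∈ T, ev φ (e Q) ∈ F) {M : ℕ} (hM : M = Nat.sqrt (4 * p)) :
    (T.filter fun Q => ¬ g Q ≤ ((Nat.sqrt p + 1 : ℕ) : ℤ)).card ≤ F.card * (2 * M + 1) := by
  have hmaps : ∀ Q ∈ T.filter (fun Q => ¬ g Q ≤ ((Nat.sqrt p + 1 : ℕ) : ℤ)),
      (ev φ (e Q), par φ (e Q)) ∈ F ×ˢ Finset.Icc (-(M : ℤ)) M := by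
    intro Q hQ
    rw [Finset.mem_filter] at hQ
    rw [Finset.mem_product]
    refine ⟨hg3 Q hQ.1, ?_⟩
    have hgG : ((Nat.sqrt p + 1 : ℕ) : ℤ) < g Q := not_le.1 hQ.2
    have hQb := mem_bd.1 (hS (hTS Q hQ.1))
    have hPb := mem_bd.1 (hS hP)
    obtain ⟨e1, e2⟩ := beta_dif (hg2 Q hQ.1)
    have ep : ((2 * p : ℕ) : ℤ) = 2 * (p : ℤ) := by push_cast; ring
    rw [ep] at hQb hPb
    have x1 : |g Q * (e Q).1| < 2 * (p : ℤ) := by
      rw [e1, abs_lt]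
      constructor
      · linarith [hQb.1.1, hPb.1.2]
      · linarith [hQb.1.2, hPb.1.1]
    have x2 : |g Q * (e Q).2| < 2 * (p : ℤ) := by
      rw [e2, abs_lt]
      constructor
      · linarith [hQb.2.1, hPb.2.2]
      · linarith [hQb.2.2, hPb.2.1]
    dsimp only
    rw [hM]
    unfold par
    split_ifs
    · exact beta_abs hp hgG x2
    · exact beta_abs hp hgG x1
  have hinj : Set.InjOn (fun Q => (ev φ (e Q), par φ (e Q)))
      (T.filter fun Q => ¬ g Q ≤ ((Nat.sqrt p + 1 : ℕ) : ℤ) : Finset Pt) := by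
    intro A hA B hB hAB
    rw [Finset.mem_coe, Finset.mem_filter] at hA hB
    dsimp only at hAB
    rw [Prod.ext_iff] at hAB
    have hee : e A = e B := beta_par hφ hAB.1 hAB.2
    by_contra hne
    refine h3 P hP A (hTS A hA.1) B (hTS B hB.1) (Ne.symm (hTP A hA.1))
      (Ne.symm (hTP B hB.1)) hne ?_
    unfold Col
    obtain ⟨a1, a2⟩ := beta_dif (hg2 A hA.1)
    obtain ⟨b1, b2⟩ := beta_dif (hg2 B hB.1)
    rw [← a1, ← a2, ← b1, ← b2, hee]
    ring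
  have h := Finset.card_le_card_of_injOn _ hmaps hinj
  rw [Finset.card_product, Int.card_Icc] at h
  have e1 : ((M : ℤ) + 1 - -(M : ℤ)).toNat = 2 * M + 1 := by omega
  rw [e1] at h
  exact h

private theorem beta_fin {p a b f D : ℕ} (hp : 0 < p) (ha : a ≤ 2 * ((Nat.sqrt p + 1) * f))
    (hb : b ≤ f * (2 * Nat.sqrt (4 * p) + 1)) (hf : f ≤ 2 * D) :
    ((a + b : ℕ) : ℝ) ≤ 20 * Real.sqrt p * (D : ℝ) := by
  have hs1 : (Nat.sqrt p : ℝ) ≤ Real.sqrt p := Real.nat_sqrt_le_real_sqrt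
  have hs2 : (Nat.sqrt (4 * p) : ℝ) ≤ 2 * Real.sqrt p := by
    have h := Real.nat_sqrt_le_real_sqrt (a := 4 * p)
    have e1 : Real.sqrt ((4 * p : ℕ) : ℝ) = 2 * Real.sqrt p := by
      push_cast
      rw [Real.sqrt_mul (by norm_num), show (4 : ℝ) = 2 ^ 2 by norm_num,
        Real.sqrt_sq (by norm_num)]
    rwa [e1] at h
  have hs3 : (1 : ℝ) ≤ Real.sqrt p := by
    rw [Real.one_le_sqrt]
    exact_mod_cast hp
  have ha' : (a : ℝ) ≤ 2 * (((Nat.sqrt p : ℝ) + 1) * f) := by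
    exact_mod_cast ha
  have hb' : (b : ℝ) ≤ f * (2 * (Nat.sqrt (4 * p) : ℝ) + 1) := by exact_mod_cast hb
  have hF' : (f : ℝ) ≤ 2 * D := by exact_mod_cast hf
  have hF0 : (0 : ℝ) ≤ f := Nat.cast_nonneg _
  have hD0 : (0 : ℝ) ≤ D := Nat.cast_nonneg _
  generalize (Nat.sqrt p : ℝ) = x at *
  generalize (Nat.sqrt (4 * p) : ℝ) = y at *
  generalize Real.sqrt p = s at *
  push_cast
  have t1 : (a : ℝ) + b ≤ (f : ℝ) * (2 * (x + 1) + (2 * y + 1)) := by linarith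
  have t2 : 2 * (x + 1) + (2 * y + 1) ≤ 10 * s := by linarith
  calc (a : ℝ) + b ≤ (f : ℝ) * (2 * (x + 1) + (2 * y + 1)) := t1
    _ ≤ (f : ℝ) * (10 * s) := mul_le_mul_of_nonneg_left t2 hF0
    _ ≤ (2 * (D : ℝ)) * (10 * s) := mul_le_mul_of_nonneg_right hF' (by linarith)
    _ = 20 * s * D := by ring

private theorem beta_div {D : ℤ} (h0 : D ≠ 0) : ∃ F : Finset ℤ,
    F.card ≤ 2 * D.natAbs.divisors.card ∧ ∀ f : ℤ, f ∣ D → f ∈ F := by
  obtain ⟨Dv, hDv⟩ : ∃ Dv, Dv = D.natAbs.divisors := ⟨_, rfl⟩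
  rw [← hDv]
  refine ⟨Dv.image (fun d : ℕ => (d : ℤ)) ∪ Dv.image (fun d : ℕ => -(d : ℤ)), ?_, ?_⟩
  · refine (Finset.card_union_le _ _).trans ?_
    have i1 := Finset.card_image_le (s := Dv) (f := fun d : ℕ => (d : ℤ))
    have i2 := Finset.card_image_le (s := Dv) (f := fun d : ℕ => -(d : ℤ))
    omega
  · intro f hf
    have h1 : f.natAbs ∈ Dv := by
      rw [hDv, Nat.mem_divisors]
      exact ⟨Int.natAbs_dvd_natAbs.2 hf, Int.natAbs_ne_zero.2 h0⟩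
    rw [Finset.mem_union, Finset.mem_image, Finset.mem_image]
    rcases Int.natAbs_eq f with h | h
    · left
      exact ⟨f.natAbs, h1, h.symm⟩
    · right
      exact ⟨f.natAbs, h1, h.symm⟩

theorem sP_le (p : ℕ) (hp : 2 ≤ p) {S : Finset Pt} (hS : S ⊆ bd (2 * p)) (h3 : N3 S) {P : Pt} (hP : P ∈ S)
    {φ : ℤ × ℤ} (hφ : IsDir φ) {v : ℤ} (hv : ev φ P ≠ v) :
    (sP p φ v S P : ℝ) ≤ 20 * Real.sqrt p * ((v - ev φ P).natAbs.divisors.card : ℝ) := by
  obtain ⟨F, hFc, hFm⟩ := beta_div (sub_ne_zero.2 (Ne.symm hv))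
  unfold sP
  generalize hT : (S.filter fun Q => Q ≠ P ∧ ∃ z ∈ bd (2 * p), ev φ z = v ∧ Col P Q z) = T
  have hTm : ∀ Q ∈ T, Q ∈ S ∧ Q ≠ P ∧ ∃ z ∈ bd (2 * p), ev φ z = v ∧ Col P Q z := by
    intro Q hQ
    rw [← hT] at hQ
    simp only [Finset.mem_filter] at hQ
    exact hQ
  have hdata : ∀ Q ∈ T, ∃ (g : ℤ) (e : Pt), 1 ≤ g ∧ Q = (P.1 + g * e.1, P.2 + g * e.2) ∧
      ev φ e ∈ F := by
    intro Q hQ
    obtain ⟨hQS, hQP, z, hz, hzv, hcol⟩ := hTm Q hQ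
    have hzP : z ≠ P := by
      intro e
      rw [e] at hzv
      exact hv hzv
    obtain ⟨e, i, j, he, hi, hj, hQe, hze⟩ := exists_prim hQP hzP hcol
    have hD : v - ev φ P = j * ev φ e := by
      rw [← hzv, hze]
      unfold ev
      dsimp only
      ring
    rcases lt_or_gt_of_ne hi with hlt | hgt
    · refine ⟨-i, (-e.1, -e.2), by omega, ?_, ?_⟩
      · rw [hQe]
        refine Prod.ext ?_ ?_
        · dsimp only
          ring
        · dsimp only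
          ring
      · apply hFm
        rw [hD]
        have e1 : ev φ (-e.1, -e.2) = -ev φ e := by
          unfold ev
          dsimp only
          ring
        rw [e1]
        exact (neg_dvd).2 (Dvd.intro_left _ rfl)
    · refine ⟨i, e, by omega, hQe, ?_⟩
      apply hFm
      rw [hD]
      exact Dvd.intro_left _ rfl
  choose! g e hg1 hg2 hg3 using hdata
  have hevQ : ∀ Q ∈ T, ev φ Q = ev φ P + g Q * ev φ (e Q) := by
    intro Q hQ
    obtain ⟨e1, e2⟩ := beta_dif (hg2 Q hQ)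
    unfold ev
    linear_combination -(φ.1) * e1 - φ.2 * e2
  have ha := beta_a h3 hφ (fun Q hQ => (hTm Q hQ).1) (Nat.sqrt p + 1) hg1 hg3 hevQ
  have hb := beta_b (by omega) hS h3 hP hφ (fun Q hQ => (hTm Q hQ).1)
    (fun Q hQ => (hTm Q hQ).2.1) hg2 hg3 rfl
  have hsum := Finset.card_filter_add_card_filter_not (s := T)
    (fun Q => g Q ≤ ((Nat.sqrt p + 1 : ℕ) : ℤ))
  rw [← hsum]
  exact beta_fin (by omega) ha hb hFc

end Pool.Agent.H72.NL
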