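import Mathlib

/-!
MP_1efb31: the finite pattern (42 x 42 classes) and its kernel check.
-/

set_option autoImplicit false

namespace Pool.Agent.H72.NL

/-- the table: bit `42 * cx + cy` is set iff the class pair `(cx, cy)` belongs to the second pencil -/
def tabN : ℕ := 0xc03007801c300001e0038000100000fc000400007700010000079d701c00003ffe07000303ff81c000c0f8007fc0a03f401f802c0fd01fe00803fc07f802403c01f87f900fe0fe03e001b83f88f8000207dfbf0000e1f1ffc0301c71fc1308011cff9100007723e403007279f130c0001fffde000023fff6800001ffffc0001c0ffff0000763fff00c07187f1c03fffe000200fffe80008001fbe00be003fea2007a00ffb8c019803dec1006603d5001841f8fd1e0800383b8383080e0001e0ff938301001c03c000b601446800a700079e002fc019351807f200413e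

/-- the class pair belongs to the second pencil `B` -/
def isB (cx cy : ℤ) : Bool := (tabN >>> (42 * cx.toNat + cy.toNat)) % 2 == 1

/-- the class index is on the board -/
def inb (c : ℤ) : Bool := decide (0 ≤ c) && decide (c < 42)

def okB (cx cy : ℤ) : Bool := inb cx && inb cy && isB cx cy
def okA (cx cy : ℤ) : Bool := inb cx && inb cy && !isB cx cy

/-- the class at level `l` of the boundary `b` -/
def cl (b l : ℤ) : ℤ :=
  if l = 0 then 3 * b else if l = -1 then 3 * b - 1 else if 0 < l then 3 * b + 1 else 3 * b - 2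

/-- the class of the image of the micro position `(i, l)` (unit `i`; `l < 5`: thin level `l` at the boundary `i`;
`l = 5`: fat; `6 ≤ l ≤ 10`: thin level `l - 11` at the boundary `i + 1`) under `X ↦ X + 2 i0 p + 2 j0 w` -/
def tp (i0 j0 : ℤ) (m : ℕ × ℕ) : ℤ :=
  if m.2 < 5 then cl (m.1 + i0) (m.2 + j0)
  else if m.2 = 5 then 3 * (m.1 + i0) + 1
  else cl (m.1 + 1 + i0) (m.2 - 11 + j0)

/-- the same for `X ↦ -X + 2 i0 p + 2 j0 w` -/
def tm (i0 j0 : ℤ) (m : ℕ × ℕ) : ℤ :=
  if m.2 < 5 then cl (i0 - m.1) (j0 - m.2 - 1)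
  else if m.2 = 5 then 3 * (i0 - m.1 - 1) + 1
  else cl (i0 - m.1 - 1) (j0 - m.2 + 10)

/-- quantification over the micro positions in the units `< n` -/
def allM (n : ℕ) (f : ℕ × ℕ → Bool) : Bool :=
  (List.range n).all fun i => (List.range 11).all fun l => f (i, l)

def allZ (n : ℕ) (f : ℤ → Bool) : Bool := (List.range n).all fun i => f (i : ℤ)

def chkA1 : Bool := allM 7 fun x => allM 7 fun y =>
  !(okA (tp 0 0 x) (tp 0 0 y) && okA (tp 7 0 x) (tp 7 0 y)) ||
    allZ 3 fun μ => !(okA (tm (3 + 7 * μ) 0 y) (tm (3 + 7 * μ) 0 x))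

def chkA2 : Bool := allM 7 fun x => allM 7 fun y =>
  !(okA (tp 7 0 x) (tp 0 0 y) && okA (tp 0 0 x) (tp 7 0 y)) ||
    allZ 3 fun μ => !(okA (tp (5 + 7 * (μ - 1)) 0 y) (tp (-5 + 7 * (2 - μ)) 0 x))

def chkB1 : Bool := allM 14 fun x => allZ 42 fun y =>
  !(okB (tp 0 0 x) y) ||
    (!(okB (tp 6 1 x) y && okB (tp 12 2 x) y) &&
      (!(okB (tp 6 1 x) y || okB (tp 12 2 x) y) || allZ 5 fun ν => !(okB (tm (5 + 6 * ν) ν x) y)))

def chkB2 : Bool := allM 14 fun x => allZ 42 fun y =>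
  !(okB y (tp 0 0 x)) ||
    (!(okB y (tp 6 1 x) && okB y (tp 12 2 x)) &&
      (!(okB y (tp 6 1 x) || okB y (tp 12 2 x)) || allZ 5 fun ν => !(okB y (tm (5 + 6 * ν) ν x))))

def chkB3 : Bool := allM 14 fun x => allM 14 fun y =>
  !(okB (tp 0 0 x) (tp 0 0 y)) ||
    (!(okB (tp 6 1 x) (tp 6 1 y) && okB (tp 12 2 x) (tp 12 2 y)) &&
     !(okB (tp 6 1 x) (tp (-6) (-1) y) && okB (tp 12 2 x) (tp (-12) (-2) y)) &&
     !(okB (tp 6 1 x) (tp 12 2 y)) && !(okB (tp 6 1 x) (tp (-12) (-2) y)) &&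
     !(okB (tp 12 2 x) (tp 6 1 y)) && !(okB (tp 12 2 x) (tp (-6) (-1) y)))

theorem chkA1_ok : chkA1 = true := by decide +kernel
theorem chkA2_ok : chkA2 = true := by decide +kernel
theorem chkB1_ok : chkB1 = true := by decide +kernel
theorem chkB2_ok : chkB2 = true := by decide +kernel
theorem chkB3_ok : chkB3 = true := by decide +kernel

end Pool.Agent.H72.NL
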