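import Pool.Agent.H72.NL.Df
import Pool.Agent.H72.NL.Tab

/-!
ROW Cls (MP_1efb31_NL, about 130 lines). The class of a translated or reflected point depends only on the micro position.

Write `X = sc x = 14 x + 7`, `X = 2 p i + R`, `0 ≤ R < 2p` (`i = X / (2p)`, `R = X % (2p)`; `0 ≤ i < 14` as `0 < X < 28 p`). By `Nb` (with this `i` and `i + 1`, `|j| ≤ 6`): `R` and `2p - R` are at distance `> 7` from `2 j w`, `|j| ≤ 6`.
Three cases as in `mic`. (1) `R < 10 w`: `l = R / (2w) ∈ {0,..,4}` and `2 l w + 7 < R < 2 (l + 1) w - 7`. (2) `2p - 10 w < R`: with `l' = (2p - R) / (2w) ∈ {0,..,4}`: `2 l' w + 7 < 2p - R < 2 (l' + 1) w - 7`, `mic = 10 - l'`. (3) `10 w + 7 < R < 2p - 10 w - 7`, `mic = 5`.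
`cls_p`: `X + 2 i0 p + 2 j0 w + r = 2 p (i + i0) + (R + 2 j0 w + r)`. In case (1): `R + 2 j0 w + r ∈ (2 (l + j0) w, 2 (l + j0 + 1) w)`, `|l + j0| ≤ 8`, `18 w < 2p - 2w`: if `l + j0 ≥ 1` it is in `(2w, 2p - 2w)`: class `3 (i + i0) + 1`; `= 0`: class `3 (i + i0)`; if negative then the quotient by
`2p` is `i + i0 - 1` and the remainder is `2p +` it: class `3 (i + i0) - 1` for `-1` and `3 (i + i0) - 2` below. The same for the other cases and for `cls_m`: `-X + .. = 2 p (i0 - i) + (- R + 2 j0 w + r)`.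
`Int.ediv_emod_unique` (or: a helper lemma: if `X = 2 p b + y`, `2 l w < y < 2 (l + 1) w` (strictly) and `|l| ≤ 12` then `cls p w X = cl b l`; and if `2w < y < 2p - 2w` then `cls p w X = 3 b + 1`), then `omega`/`nlinarith` over the finitely many `l`, `j0` (`interval_cases`).
Numerically checked (python, 147335 random cases).
-/

set_option autoImplicit false

open scoped Classical

namespace Pool.Agent.H72.NL

private theorem sc_pos {p x : ℤ} (hx0 : 0 ≤ x) (hx : x < 2 * p) :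
    7 ≤ sc x ∧ sc x ≤ 28 * p - 7 := by
  unfold sc
  constructor <;> linarith

private theorem dm {p b y X : ℤ} (hX : X = 2 * p * b + y) (h0 : 0 ≤ y) (h1 : y < 2 * p) :
    X / (2 * p) = b ∧ X % (2 * p) = y := by
  have hp : 2 * p ≠ 0 := by omega
  rw [hX, show 2 * p * b + y = y + 2 * p * b by ring]
  constructor
  · rw [Int.add_mul_ediv_left _ _ hp, Int.ediv_eq_zero_of_lt h0 h1, zero_add]
  · rw [Int.add_mul_emod_self_left, Int.emod_eq_of_lt h0 h1]

private theorem rem_bd {p x : ℤ} (hx0 : 0 ≤ x) (hx : x < 2 * p) :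
    0 ≤ sc x / (2 * p) ∧ sc x / (2 * p) < 14 ∧ 0 ≤ sc x % (2 * p) ∧ sc x % (2 * p) < 2 * p ∧
      sc x = 2 * p * (sc x / (2 * p)) + sc x % (2 * p) := by
  have hp : 0 < 2 * p := by omega
  obtain ⟨h1, h2⟩ := sc_pos hx0 hx
  refine ⟨Int.ediv_nonneg (by omega) hp.le, ?_, Int.emod_nonneg _ hp.ne', Int.emod_lt_of_pos _ hp,
    (Int.mul_ediv_add_emod _ _).symm⟩
  exact Int.ediv_lt_of_lt_mul hp (by linarith)

theorem mic_lt {p w x : ℤ} (hw : 0 < w) (hp : 100 * w ≤ p) (hx0 : 0 ≤ x) (hx : x < 2 * p) :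
    (mic p w (sc x)).1 < 14 ∧ (mic p w (sc x)).2 < 11 := by
  obtain ⟨h1, h2, h3, h4, -⟩ := rem_bd hx0 hx
  unfold mic
  refine ⟨by simp only; omega, ?_⟩
  simp only
  split_ifs with c1 c2
  · have : sc x % (2 * p) / (2 * w) < 5 := Int.ediv_lt_of_lt_mul (by omega) (by linarith)
    omega
  · have : 0 ≤ (2 * p - sc x % (2 * p)) / (2 * w) := Int.ediv_nonneg (by omega) (by omega)
    omega
  · norm_num

theorem mic_lt' {p w x : ℤ} (hw : 0 < w) (hp : 100 * w ≤ p) (hx0 : 0 ≤ x) (hx : x < p) :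
    (mic p w (sc x)).1 < 7 := by
  have h : sc x / (2 * p) < 7 := by
    refine Int.ediv_lt_of_lt_mul (by omega) ?_
    unfold sc
    linarith
  unfold mic
  simp only
  omega

theorem inb_cls {p w x : ℤ} (hw : 0 < w) (hp : 100 * w ≤ p) (hx0 : 0 ≤ x) (hx : x < 2 * p) :
    0 ≤ cls p w (sc x) ∧ cls p w (sc x) < 42 := by
  obtain ⟨h1, h2, -⟩ := rem_bd hx0 hx
  unfold cls
  split_ifs <;> constructor <;> omega

/-- the class of a number strictly between two thin boundaries -/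
private theorem cls_cl {p w b l y X : ℤ} (hw : 0 < w) (hp : 100 * w ≤ p) (hX : X = 2 * p * b + y)
    (h1 : 2 * l * w < y) (h2 : y < 2 * (l + 1) * w) (hl0 : -12 ≤ l) (hl1 : l ≤ 12) :
    cls p w X = cl b l := by
  unfold cl
  by_cases e0 : l = 0
  · subst e0
    have hy0 : 0 < y := by linarith
    have hy1 : y < 2 * w := by linarith
    obtain ⟨d1, d2⟩ := dm hX hy0.le (by linarith)
    unfold cls
    rw [d1, d2, if_pos hy1, if_pos rfl]
    ring
  by_cases e1 : l = -1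
  · subst e1
    have hy0 : -(2 * w) < y := by linarith
    have hy1 : y < 0 := by linarith
    obtain ⟨d1, d2⟩ := dm (p := p) (X := X) (b := b - 1) (y := 2 * p + y) (by rw [hX]; ring)
      (by linarith : 0 ≤ 2 * p + y) (by linarith)
    unfold cls
    rw [d1, d2, if_neg (by linarith), if_pos (by linarith), if_neg e0, if_pos rfl]
    ring
  by_cases e2 : 0 < l
  · have a1 : 2 * w ≤ 2 * l * w := by nlinarith
    have a2 : 2 * (l + 1) * w ≤ 26 * w := by nlinarith
    obtain ⟨d1, d2⟩ := dm hX (by linarith) (by linarith)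
    unfold cls
    rw [d1, d2, if_neg (by linarith), if_neg (by linarith), if_neg e0, if_neg e1, if_pos e2]
  · have e3 : l ≤ -2 := by omega
    have a1 : 2 * (l + 1) * w ≤ -(2 * w) := by nlinarith
    have a2 : -(24 * w) ≤ 2 * l * w := by nlinarith
    obtain ⟨d1, d2⟩ := dm (p := p) (X := X) (b := b - 1) (y := 2 * p + y) (by rw [hX]; ring)
      (by linarith : 0 ≤ 2 * p + y) (by linarith)
    unfold cls
    rw [d1, d2, if_neg (by linarith), if_neg (by linarith), if_neg e0, if_neg e1, if_neg e2]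
    ring

/-- the class of a number in the fat part -/
private theorem cls_fat {p w b y X : ℤ} (hw : 0 < w) (hX : X = 2 * p * b + y)
    (h1 : 2 * w ≤ y) (h2 : y ≤ 2 * p - 2 * w) : cls p w X = 3 * b + 1 := by
  obtain ⟨d1, d2⟩ := dm hX (by linarith) (by linarith)
  unfold cls
  rw [d1, d2, if_neg (by linarith), if_neg (by linarith)]

private theorem mcase {p w x : ℤ} (hw : 0 < w) (hp : 100 * w ≤ p) (hx0 : 0 ≤ x) (hx : x < 2 * p)
    (hn : Nb p w x) : ∃ i R : ℤ, 0 ≤ i ∧ sc x = 2 * p * i + R ∧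
      ((∃ l : ℤ, 0 ≤ l ∧ l ≤ 4 ∧ mic p w (sc x) = (i.toNat, l.toNat) ∧
          2 * l * w + 7 < R ∧ R < 2 * (l + 1) * w - 7) ∨
       (∃ l : ℤ, 0 ≤ l ∧ l ≤ 4 ∧ mic p w (sc x) = (i.toNat, (10 - l).toNat) ∧
          2 * l * w + 7 < 2 * p - R ∧ 2 * p - R < 2 * (l + 1) * w - 7) ∨
       (mic p w (sc x) = (i.toNat, 5) ∧ 10 * w + 7 < R ∧ R < 2 * p - 10 * w - 7)) := by
  obtain ⟨b1, b2, b3, b4, b5⟩ := rem_bd hx0 hx
  obtain ⟨i, hi⟩ : ∃ i, i = sc x / (2 * p) := ⟨_, rfl⟩
  obtain ⟨R, hR⟩ : ∃ R, R = sc x % (2 * p) := ⟨_, rfl⟩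
  rw [← hi] at b1 b2 b5
  rw [← hR] at b3 b4 b5
  have hN1 : ∀ j : ℤ, |j| ≤ 6 → 7 < |R - 2 * j * w| := by
    intro j hj
    have := hn i j hj
    rwa [b5, show 2 * p * i + R - (2 * i * p + 2 * j * w) = R - 2 * j * w by ring] at this
  have hN2 : ∀ j : ℤ, |j| ≤ 6 → 7 < |(2 * p - R) - 2 * j * w| := by
    intro j hj
    have := hn (i + 1) (-j) (by rwa [abs_neg])
    rw [b5, show 2 * p * i + R - (2 * (i + 1) * p + 2 * -j * w) = -((2 * p - R) - 2 * j * w) by ring,
      abs_neg] at this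
    exact this
  have hW : 0 < 2 * w := by omega
  refine ⟨i, R, b1, b5, ?_⟩
  by_cases c1 : R < 10 * w
  · left
    have l0 : 0 ≤ R / (2 * w) := Int.ediv_nonneg b3 hW.le
    have l4 : R / (2 * w) < 5 := Int.ediv_lt_of_lt_mul hW (by linarith)
    have l1 : 2 * w * (R / (2 * w)) ≤ R := Int.mul_ediv_self_le hW.ne'
    have l2 : R < 2 * w * (R / (2 * w)) + 2 * w := Int.lt_mul_ediv_self_add hW
    obtain ⟨l, hl⟩ : ∃ l, l = R / (2 * w) := ⟨_, rfl⟩
    refine ⟨l, by omega, by omega, ?_, ?_, ?_⟩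
    · unfold mic
      rw [← hi, ← hR, if_pos c1, hl]
    · have := hN1 l (by rw [abs_le]; constructor <;> omega)
      rw [← hl] at l1
      rw [abs_of_nonneg (by linarith)] at this
      linarith
    · have := hN1 (l + 1) (by rw [abs_le]; constructor <;> omega)
      rw [← hl] at l2
      rw [abs_of_nonpos (by linarith)] at this
      linarith
  · by_cases c2 : 2 * p - 10 * w < R
    · right; left
      have l0 : 0 ≤ (2 * p - R) / (2 * w) := Int.ediv_nonneg (by omega) hW.le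
      have l4 : (2 * p - R) / (2 * w) < 5 := Int.ediv_lt_of_lt_mul hW (by linarith)
      have l1 : 2 * w * ((2 * p - R) / (2 * w)) ≤ 2 * p - R := Int.mul_ediv_self_le hW.ne'
      have l2 : 2 * p - R < 2 * w * ((2 * p - R) / (2 * w)) + 2 * w := Int.lt_mul_ediv_self_add hW
      obtain ⟨l, hl⟩ : ∃ l, l = (2 * p - R) / (2 * w) := ⟨_, rfl⟩
      refine ⟨l, by omega, by omega, ?_, ?_, ?_⟩
      · unfold mic
        rw [← hi, ← hR, if_neg c1, if_pos c2, hl]
      · have := hN2 l (by rw [abs_le]; constructor <;> omega)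
        rw [← hl] at l1
        rw [abs_of_nonneg (by linarith)] at this
        linarith
      · have := hN2 (l + 1) (by rw [abs_le]; constructor <;> omega)
        rw [← hl] at l2
        rw [abs_of_nonpos (by linarith)] at this
        linarith
    · right; right
      refine ⟨?_, ?_, ?_⟩
      · unfold mic
        rw [← hi, ← hR, if_neg c1, if_neg c2]
      · have := hN1 5 (by norm_num)
        rw [abs_of_nonneg (by linarith)] at this
        linarith
      · have := hN2 5 (by norm_num)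
        rw [abs_of_nonneg (by linarith)] at this
        linarith

theorem cls_p {p w x : ℤ} (hw : 0 < w) (hp : 100 * w ≤ p) (hx0 : 0 ≤ x) (hx : x < 2 * p) (hn : Nb p w x)
    {i0 j0 r : ℤ} (hj : |j0| ≤ 4) (hr : |r| ≤ 7) :
    cls p w (sc x + 2 * i0 * p + 2 * j0 * w + r) = tp i0 j0 (mic p w (sc x)) := by
  obtain ⟨i, R, hi, hX, H⟩ := mcase hw hp hx0 hx hn
  obtain ⟨j1, j2⟩ := abs_le.1 hj
  obtain ⟨r1, r2⟩ := abs_le.1 hr
  have ei : ((i.toNat : ℕ) : ℤ) = i := Int.toNat_of_nonneg hi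
  rcases H with ⟨l, l0, l4, hm, h1, h2⟩ | ⟨l, l0, l4, hm, h1, h2⟩ | ⟨hm, h1, h2⟩
  · rw [hm]
    unfold tp
    simp only
    rw [if_pos (by omega), ei, Int.toNat_of_nonneg l0]
    refine cls_cl hw hp (y := R + 2 * j0 * w + r) (by rw [hX]; ring) ?_ ?_ (by omega) (by omega)
    · rw [show 2 * (l + j0) * w = 2 * l * w + 2 * j0 * w by ring]; linarith
    · rw [show 2 * (l + j0 + 1) * w = 2 * (l + 1) * w + 2 * j0 * w by ring]; linarith
  · rw [hm]
    unfold tp
    simp only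
    rw [if_neg (by omega), if_neg (by omega), ei, Int.toNat_of_nonneg (by omega : 0 ≤ 10 - l)]
    refine cls_cl hw hp (y := R - 2 * p + 2 * j0 * w + r) (by rw [hX]; ring) ?_ ?_ (by omega) (by omega)
    · rw [show 2 * (10 - l - 11 + j0) * w = - (2 * (l + 1) * w) + 2 * j0 * w by ring]; linarith
    · rw [show 2 * (10 - l - 11 + j0 + 1) * w = - (2 * l * w) + 2 * j0 * w by ring]; linarith
  · rw [hm]
    unfold tp
    simp only
    rw [if_neg (by omega), if_pos trivial, ei]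
    have a1 : -(8 * w) ≤ 2 * j0 * w := by nlinarith
    have a2 : 2 * j0 * w ≤ 8 * w := by nlinarith
    exact cls_fat hw (y := R + 2 * j0 * w + r) (by rw [hX]; ring) (by linarith) (by linarith)

theorem cls_m {p w x : ℤ} (hw : 0 < w) (hp : 100 * w ≤ p) (hx0 : 0 ≤ x) (hx : x < 2 * p) (hn : Nb p w x)
    {i0 j0 r : ℤ} (hj : |j0| ≤ 4) (hr : |r| ≤ 7) :
    cls p w (-sc x + 2 * i0 * p + 2 * j0 * w + r) = tm i0 j0 (mic p w (sc x)) := by
  obtain ⟨i, R, hi, hX, H⟩ := mcase hw hp hx0 hx hn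
  obtain ⟨j1, j2⟩ := abs_le.1 hj
  obtain ⟨r1, r2⟩ := abs_le.1 hr
  have ei : ((i.toNat : ℕ) : ℤ) = i := Int.toNat_of_nonneg hi
  rcases H with ⟨l, l0, l4, hm, h1, h2⟩ | ⟨l, l0, l4, hm, h1, h2⟩ | ⟨hm, h1, h2⟩
  · rw [hm]
    unfold tm
    simp only
    rw [if_pos (by omega), ei, Int.toNat_of_nonneg l0]
    refine cls_cl hw hp (y := -R + 2 * j0 * w + r) (by rw [hX]; ring) ?_ ?_ (by omega) (by omega)
    · rw [show 2 * (j0 - l - 1) * w = - (2 * (l + 1) * w) + 2 * j0 * w by ring]; linarith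
    · rw [show 2 * (j0 - l - 1 + 1) * w = - (2 * l * w) + 2 * j0 * w by ring]; linarith
  · rw [hm]
    unfold tm
    simp only
    rw [if_neg (by omega), if_neg (by omega), ei, Int.toNat_of_nonneg (by omega : 0 ≤ 10 - l)]
    refine cls_cl hw hp (y := 2 * p - R + 2 * j0 * w + r) (by rw [hX]; ring) ?_ ?_ (by omega) (by omega)
    · rw [show 2 * (j0 - (10 - l) + 10) * w = 2 * l * w + 2 * j0 * w by ring]; linarith
    · rw [show 2 * (j0 - (10 - l) + 10 + 1) * w = 2 * (l + 1) * w + 2 * j0 * w by ring]; linarith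
  · rw [hm]
    unfold tm
    simp only
    rw [if_neg (by omega), if_pos trivial, ei]
    have a1 : -(8 * w) ≤ 2 * j0 * w := by nlinarith
    have a2 : 2 * j0 * w ≤ 8 * w := by nlinarith
    exact cls_fat hw (y := 2 * p - R + 2 * j0 * w + r) (by rw [hX]; ring) (by linarith) (by linarith)

end Pool.Agent.H72.NL
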