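import Pool.Agent.H72.NL.Df

/-!
ROW Cover (MP_1efb31_NL, about 150 lines). The exceptional lines.

PROOF. `Ex` = the `v ∈ [0, 2p)` with `¬ Nb p w v`: there are `i, j`, `|j| ≤ 6`, `|14 v + 7 - (2 i p + 2 j w)| ≤ 7`; as `0 < 14 v + 7 < 28 p`, `|2 j w| ≤ 12 w ≤ p` (`100 w ≤ p`) and `p ≥ 100`: `-1 ≤ i ≤ 15`; for each of the `17 * 13` pairs `(i, j)` there are at most two such `v`
(`14 v` in a closed interval of length 14): `|Ex| ≤ 442` (`Finset.card_le_card` into the image of `(i, j, b) ↦` ...: e.g. `v = (2 i p + 2 j w) / 14` or `- 1` with floor division). `Ls` consists of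
`((1,0), v)`, `((0,1), v)` for `v ∈ Ex`; `((1,0), v)` for `v ∈ [0, 2p)` with `(v : ZMod p) = c.1` (at most 2) and `((0,1), v)` with `(v : ZMod p) = c.2` (at most 2); `((1,-1), v)` for `|v| < 2p` with `(v : ZMod q) = d.1 - d.2` (an integer interval of length `< 4p < 5q` has at most
5 elements of a residue class mod `q`; `7 q = 6 p + w`, so `4 p < 5 q`) and `((1,1), v)` for `0 ≤ v < 4p` with `(v : ZMod q) = d.1 + d.2` (at most 5). Total at most `884 + 4 + 10 ≤ 2000`.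
If `P` of the board is on none of these: `Nb` for both coordinates (`P.1, P.2 ∈ [0, 2p)`), `P.1 ≠ c.1`, `P.2 ≠ c.2` in `ZMod p`: `Fp c P ≠ 0`; `Gq d P = (P.1 - P.2 - (d.1 - d.2)) * (P.1 + P.2 - (d.1 + d.2)) ≠ 0` in `ZMod q`.
-/

set_option autoImplicit false

open scoped Classical

namespace Pool.Agent.H72.NL

private theorem val_eq {m : ℕ} [NeZero m] (r : ZMod m) {v : ℤ} (h : (v : ZMod m) = r) :
    ∃ k : ℤ, v = r.val + k * m := by
  have h1 : (((r.val : ℕ) : ℤ) : ZMod m) = (v : ZMod m) := by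
    rw [h, Int.cast_natCast, ZMod.natCast_zmod_val]
  rw [ZMod.intCast_eq_intCast_iff_dvd_sub] at h1
  obtain ⟨k, hk⟩ := h1
  exact ⟨k, by linarith⟩

/-- the residues -/
private noncomputable def S0 (m : ℕ) (r : ZMod m) (a b : ℤ) : Finset ℤ :=
  (Finset.Icc a b).image fun k => (r.val : ℤ) + k * m

private theorem card_S0 (m : ℕ) (r : ZMod m) (a b : ℤ) : (S0 m r a b).card ≤ (b + 1 - a).toNat := by
  unfold S0
  refine Finset.card_image_le.trans ?_
  rw [Int.card_Icc]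

/-- the numbers near a boundary -/
private noncomputable def E0 (p : ℕ) (w : ℤ) : Finset ℤ :=
  (Finset.Icc (-1 : ℤ) 15 ×ˢ Finset.Icc (-6 : ℤ) 6 ×ˢ Finset.Icc (0 : ℤ) 1).image
    fun t => (2 * t.1 * p + 2 * t.2.1 * w) / 14 - t.2.2

private theorem card_E0 (p : ℕ) (w : ℤ) : (E0 p w).card ≤ 442 := by
  unfold E0
  refine Finset.card_image_le.trans ?_
  rw [Finset.card_product, Finset.card_product, Int.card_Icc, Int.card_Icc, Int.card_Icc]
  show (17 : ℕ) * (13 * 2) ≤ 442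
  norm_num

private theorem mem_E0 {p : ℕ} {w : ℤ} (hw : 0 < w) (hp : 100 * w ≤ p) {v : ℤ} (h0 : 0 ≤ v)
    (h1 : v < 2 * p) (h : ¬ Nb p w v) : v ∈ E0 p w := by
  unfold Nb at h
  push Not at h
  obtain ⟨i, j, hj, h2⟩ := h
  unfold sc at h2
  rw [abs_le] at hj h2
  obtain ⟨M, hM⟩ : ∃ M, M = 2 * i * (p : ℤ) + 2 * j * w := ⟨_, rfl⟩
  rw [← hM] at h2
  have hjw1 : -6 * w ≤ j * w := mul_le_mul_of_nonneg_right hj.1 hw.le
  have hjw2 : j * w ≤ 6 * w := mul_le_mul_of_nonneg_right hj.2 hw.le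
  have hp0 : (0 : ℤ) ≤ p := Int.natCast_nonneg p
  have hi1 : -1 ≤ i := by
    by_contra hc
    have h3 : i ≤ -2 := by omega
    have h4 : i * p ≤ -2 * p := mul_le_mul_of_nonneg_right h3 hp0
    have e1 : M = 2 * (i * p) + 2 * (j * w) := by rw [hM]; ring
    linarith [h2.1, h2.2]
  have hi2 : i ≤ 15 := by
    by_contra hc
    have h3 : 16 ≤ i := by omega
    have h4 : 16 * (p : ℤ) ≤ i * p := mul_le_mul_of_nonneg_right h3 hp0
    have e1 : M = 2 * (i * p) + 2 * (j * w) := by rw [hM]; ring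
    linarith [h2.1, h2.2]
  unfold E0
  rw [Finset.mem_image]
  refine ⟨(i, j, M / 14 - v), ?_, ?_⟩
  · simp only [Finset.mem_product, Finset.mem_Icc]
    refine ⟨⟨hi1, hi2⟩, hj, ?_, ?_⟩ <;> omega
  · show (2 * i * (p : ℤ) + 2 * j * w) / 14 - (M / 14 - v) = v
    rw [← hM]
    ring

private theorem two_p {p : ℕ} [NeZero p] (r : ZMod p) {v : ℤ} (h0 : 0 ≤ v) (h1 : v < 2 * p)
    (h : (v : ZMod p) = r) : v ∈ S0 p r 0 1 := by
  obtain ⟨k, hk⟩ := val_eq r h
  have hv : (r.val : ℤ) < p := by exact_mod_cast ZMod.val_lt r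
  have hv0 : (0 : ℤ) ≤ r.val := Int.natCast_nonneg _
  have hp0 : (0 : ℤ) ≤ p := Int.natCast_nonneg p
  unfold S0
  rw [Finset.mem_image]
  refine ⟨k, ?_, hk.symm⟩
  rw [Finset.mem_Icc]
  constructor
  · by_contra hc
    have h3 : k ≤ -1 := by omega
    have h4 : k * p ≤ -1 * p := mul_le_mul_of_nonneg_right h3 hp0
    linarith
  · by_contra hc
    have h3 : 2 ≤ k := by omega
    have h4 : 2 * (p : ℤ) ≤ k * p := mul_le_mul_of_nonneg_right h3 hp0
    linarith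

private theorem dif_q {p q : ℕ} [NeZero q] {w : ℤ} (hw : 0 < w) (hq : 7 * (q : ℤ) = 6 * p + w)
    (r : ZMod q) {v : ℤ} (h0 : -(2 * p) < v) (h1 : v < 2 * p) (h : (v : ZMod q) = r) :
    v ∈ S0 q r (-3) 2 := by
  obtain ⟨k, hk⟩ := val_eq r h
  have hv : (r.val : ℤ) < q := by exact_mod_cast ZMod.val_lt r
  have hv0 : (0 : ℤ) ≤ r.val := Int.natCast_nonneg _
  have hq0 : (0 : ℤ) ≤ q := Int.natCast_nonneg q
  unfold S0
  rw [Finset.mem_image]
  refine ⟨k, ?_, hk.symm⟩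
  rw [Finset.mem_Icc]
  constructor
  · by_contra hc
    have h3 : k ≤ -4 := by omega
    have h4 : k * q ≤ -4 * q := mul_le_mul_of_nonneg_right h3 hq0
    linarith
  · by_contra hc
    have h3 : 3 ≤ k := by omega
    have h4 : 3 * (q : ℤ) ≤ k * q := mul_le_mul_of_nonneg_right h3 hq0
    linarith

private theorem sum_q {p q : ℕ} [NeZero q] {w : ℤ} (hw : 0 < w) (hq : 7 * (q : ℤ) = 6 * p + w)
    (r : ZMod q) {v : ℤ} (h0 : 0 ≤ v) (h1 : v < 4 * p) (h : (v : ZMod q) = r) :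
    v ∈ S0 q r 0 4 := by
  obtain ⟨k, hk⟩ := val_eq r h
  have hv : (r.val : ℤ) < q := by exact_mod_cast ZMod.val_lt r
  have hv0 : (0 : ℤ) ≤ r.val := Int.natCast_nonneg _
  have hq0 : (0 : ℤ) ≤ q := Int.natCast_nonneg q
  unfold S0
  rw [Finset.mem_image]
  refine ⟨k, ?_, hk.symm⟩
  rw [Finset.mem_Icc]
  constructor
  · by_contra hc
    have h3 : k ≤ -1 := by omega
    have h4 : k * q ≤ -1 * q := mul_le_mul_of_nonneg_right h3 hq0
    linarith
  · by_contra hc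
    have h3 : 5 ≤ k := by omega
    have h4 : 5 * (q : ℤ) ≤ k * q := mul_le_mul_of_nonneg_right h3 hq0
    linarith

/-- lines of one direction -/
private noncomputable def Ln (φ : ℤ × ℤ) (S : Finset ℤ) : Finset ((ℤ × ℤ) × ℤ) := S.image fun v => (φ, v)

private theorem card_Ln (φ : ℤ × ℤ) (S : Finset ℤ) : (Ln φ S).card ≤ S.card :=
  Finset.card_image_le

private theorem mem_Ln {φ : ℤ × ℤ} {S : Finset ℤ} {v : ℤ} (h : v ∈ S) : (φ, v) ∈ Ln φ S :=
  Finset.mem_image.2 ⟨v, h, rfl⟩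

private theorem of_mem_Ln {φ : ℤ × ℤ} {S : Finset ℤ} {l : (ℤ × ℤ) × ℤ} (h : l ∈ Ln φ S) :
    l.1 = φ := by
  obtain ⟨v, -, rfl⟩ := Finset.mem_image.1 h
  rfl

theorem cover {p q : ℕ} [Fact p.Prime] [Fact q.Prime] {w : ℤ} (hw : 0 < w) (hp : 100 * w ≤ p)
    (hq : 7 * (q : ℤ) = 6 * p + w) (c : ZMod p × ZMod p) (d : ZMod q × ZMod q) :
    ∃ Ls : Finset ((ℤ × ℤ) × ℤ), Ls.card ≤ 2000 ∧ (∀ l ∈ Ls, IsDir l.1 ∧ |l.2| ≤ 4 * p) ∧
      ∀ P ∈ bd (2 * p), (∀ l ∈ Ls, ev l.1 P ≠ l.2) →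
        Nb p w P.1 ∧ Nb p w P.2 ∧ Fp c P ≠ 0 ∧ Gq d P ≠ 0 := by
  have _ : NeZero p := ⟨(Fact.out : p.Prime).ne_zero⟩
  have _ : NeZero q := ⟨(Fact.out : q.Prime).ne_zero⟩
  obtain ⟨X, hX⟩ : ∃ X : Finset ((ℤ × ℤ) × ℤ), X =
      (Ln (1, 0) (E0 p w) ∪ Ln (0, 1) (E0 p w)) ∪
        ((Ln (1, 0) (S0 p c.1 0 1) ∪ Ln (0, 1) (S0 p c.2 0 1)) ∪
          (Ln (1, -1) (S0 q (d.1 - d.2) (-3) 2) ∪ Ln (1, 1) (S0 q (d.1 + d.2) 0 4))) := ⟨_, rfl⟩
  refine ⟨X.filter fun l => |l.2| ≤ 4 * p, ?_, ?_, ?_⟩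
  · refine (Finset.card_filter_le _ _).trans ?_
    have h1 := card_E0 p w
    have h2 := card_Ln (1, 0) (E0 p w)
    have h3 := card_Ln (0, 1) (E0 p w)
    have h4 := (card_Ln (1, 0) (S0 p c.1 0 1)).trans (card_S0 p c.1 0 1)
    have h5 := (card_Ln (0, 1) (S0 p c.2 0 1)).trans (card_S0 p c.2 0 1)
    have h6 := (card_Ln (1, -1) (S0 q (d.1 - d.2) (-3) 2)).trans (card_S0 q (d.1 - d.2) (-3) 2)
    have h7 := (card_Ln (1, 1) (S0 q (d.1 + d.2) 0 4)).trans (card_S0 q (d.1 + d.2) 0 4)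
    have u1 := Finset.card_union_le (Ln (1, 0) (E0 p w) ∪ Ln (0, 1) (E0 p w))
      ((Ln (1, 0) (S0 p c.1 0 1) ∪ Ln (0, 1) (S0 p c.2 0 1)) ∪
          (Ln (1, -1) (S0 q (d.1 - d.2) (-3) 2) ∪ Ln (1, 1) (S0 q (d.1 + d.2) 0 4)))
    have u2 := Finset.card_union_le (Ln (1, 0) (E0 p w)) (Ln (0, 1) (E0 p w))
    have u3 := Finset.card_union_le (Ln (1, 0) (S0 p c.1 0 1) ∪ Ln (0, 1) (S0 p c.2 0 1))
      (Ln (1, -1) (S0 q (d.1 - d.2) (-3) 2) ∪ Ln (1, 1) (S0 q (d.1 + d.2) 0 4))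
    have u4 := Finset.card_union_le (Ln (1, 0) (S0 p c.1 0 1)) (Ln (0, 1) (S0 p c.2 0 1))
    have u5 := Finset.card_union_le (Ln (1, -1) (S0 q (d.1 - d.2) (-3) 2))
      (Ln (1, 1) (S0 q (d.1 + d.2) 0 4))
    rw [← hX] at u1
    norm_num at h4 h5 h6 h7
    omega
  · intro l hl
    rw [Finset.mem_filter, hX] at hl
    refine ⟨?_, hl.2⟩
    simp only [Finset.mem_union] at hl
    unfold IsDir
    rcases hl.1 with (h | h) | (h | h) | h | h
    · exact Or.inl (of_mem_Ln h)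
    · exact Or.inr (Or.inl (of_mem_Ln h))
    · exact Or.inl (of_mem_Ln h)
    · exact Or.inr (Or.inl (of_mem_Ln h))
    · exact Or.inr (Or.inr (Or.inl (of_mem_Ln h)))
    · exact Or.inr (Or.inr (Or.inr (of_mem_Ln h)))
  · intro P hP hl
    rw [mem_bd] at hP
    obtain ⟨⟨a1, a2⟩, b1, b2⟩ := hP
    push_cast at a2 b2
    have hp0 : (0 : ℤ) ≤ p := Int.natCast_nonneg p
    have key : ∀ (φ : ℤ × ℤ), (φ, ev φ P) ∈ X → |ev φ P| ≤ 4 * p → False := fun φ h1 h2 =>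
      hl (φ, ev φ P) (Finset.mem_filter.2 ⟨h1, h2⟩) rfl
    have e1 : ev (1, 0) P = P.1 := by
      unfold ev
      ring
    have e2 : ev (0, 1) P = P.2 := by
      unfold ev
      ring
    have e3 : ev (1, -1) P = P.1 - P.2 := by
      unfold ev
      ring
    have e4 : ev (1, 1) P = P.1 + P.2 := by
      unfold ev
      ring
    refine ⟨?_, ?_, ?_, ?_⟩
    · by_contra hc
      refine key (1, 0) ?_ ?_
      · rw [e1, hX]
        simp only [Finset.mem_union]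
        exact Or.inl (Or.inl (mem_Ln (mem_E0 hw hp a1 a2 hc)))
      · rw [e1, abs_le]
        constructor <;> linarith
    · by_contra hc
      refine key (0, 1) ?_ ?_
      · rw [e2, hX]
        simp only [Finset.mem_union]
        exact Or.inl (Or.inr (mem_Ln (mem_E0 hw hp b1 b2 hc)))
      · rw [e2, abs_le]
        constructor <;> linarith
    · intro hc
      unfold Fp at hc
      rcases mul_eq_zero.1 hc with h | h
      · refine key (1, 0) ?_ ?_
        · rw [e1, hX]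
          simp only [Finset.mem_union]
          exact Or.inr (Or.inl (Or.inl (mem_Ln (two_p c.1 a1 a2 (sub_eq_zero.1 h)))))
        · rw [e1, abs_le]
          constructor <;> linarith
      · refine key (0, 1) ?_ ?_
        · rw [e2, hX]
          simp only [Finset.mem_union]
          exact Or.inr (Or.inl (Or.inr (mem_Ln (two_p c.2 b1 b2 (sub_eq_zero.1 h)))))
        · rw [e2, abs_le]
          constructor <;> linarith
    · intro hc
      have hc' : (((P.1 - P.2 : ℤ) : ZMod q) - (d.1 - d.2)) *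
          (((P.1 + P.2 : ℤ) : ZMod q) - (d.1 + d.2)) = 0 := by
        unfold Gq at hc
        rw [← hc]
        push_cast
        ring
      rcases mul_eq_zero.1 hc' with h | h
      · refine key (1, -1) ?_ ?_
        · rw [e3, hX]
          simp only [Finset.mem_union]
          exact Or.inr (Or.inr (Or.inl (mem_Ln (dif_q hw hq _ (by linarith) (by linarith)
            (sub_eq_zero.1 h)))))
        · rw [e3, abs_le]
          constructor <;> linarith
      · refine key (1, 1) ?_ ?_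
        · rw [e4, hX]
          simp only [Finset.mem_union]
          exact Or.inr (Or.inr (Or.inr (mem_Ln (sum_q hw hq _ (by linarith) (by linarith)
            (sub_eq_zero.1 h)))))
        · rw [e4, abs_le]
          constructor <;> linarith

end Pool.Agent.H72.NL
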