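import Mathlib

/-!
MP_1efb31 (helper72): definitions for the bound `c ≤ 13/14`.
-/

set_option autoImplicit false

open scoped Classical

namespace Pool.Agent.H72.NL

/-- points of the integer plane -/
abbrev Pt : Type := ℤ × ℤ

/-- the three points are on a line -/
def Col (P Q R : Pt) : Prop := (Q.1 - P.1) * (R.2 - P.2) = (R.1 - P.1) * (Q.2 - P.2)

/-- no three distinct points on a line -/
def N3 (S : Finset Pt) : Prop :=
  ∀ P ∈ S, ∀ Q ∈ S, ∀ R ∈ S, P ≠ Q → P ≠ R → Q ≠ R → ¬ Col P Q R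

/-- the board `[0, n)²` -/
noncomputable def bd (n : ℕ) : Finset Pt := Finset.Ico (0 : ℤ) n ×ˢ Finset.Ico (0 : ℤ) n

theorem mem_bd {n : ℕ} {P : Pt} :
    P ∈ bd n ↔ (0 ≤ P.1 ∧ P.1 < n) ∧ 0 ≤ P.2 ∧ P.2 < n := by
  simp [bd, Finset.mem_product, Finset.mem_Ico]

/-- the four families of exceptional lines `φ · P = v` (columns, rows, diagonals, antidiagonals) -/
def IsDir (φ : ℤ × ℤ) : Prop := φ = (1, 0) ∨ φ = (0, 1) ∨ φ = (1, -1) ∨ φ = (1, 1)

/-- value of the functional `φ` -/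
def ev (φ : ℤ × ℤ) (P : Pt) : ℤ := φ.1 * P.1 + φ.2 * P.2

/-- parameter of a point on a line of direction type `φ` -/
def par (φ : ℤ × ℤ) (P : Pt) : ℤ := if φ = (1, 0) then P.2 else P.1

/-- the form of the first pencil -/
def Fp {p : ℕ} (c : ZMod p × ZMod p) (P : Pt) : ZMod p := ((P.1 : ZMod p) - c.1) * ((P.2 : ZMod p) - c.2)

/-- the form of the second pencil -/
def Gq {q : ℕ} (d : ZMod q × ZMod q) (P : Pt) : ZMod q := ((P.1 : ZMod q) - d.1) ^ 2 - ((P.2 : ZMod q) - d.2) ^ 2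

/-- sup norm -/
def nm (e : Pt) : ℕ := max e.1.natAbs e.2.natAbs

/-- number of ordered triples of distinct collinear points of `W` -/
noncomputable def Tr (W : Finset Pt) : ℕ :=
  ((W ×ˢ W ×ˢ W).filter fun z => z.1 ≠ z.2.1 ∧ z.1 ≠ z.2.2 ∧ z.2.1 ≠ z.2.2 ∧ Col z.1 z.2.1 z.2.2).card

/-- number of points of the board `bd (2p)` on the line through `P`, `P'`, other than the two -/
noncomputable def cc (p : ℕ) (P P' : Pt) : ℕ :=
  ((bd (2 * p)).filter fun R => R ≠ P ∧ R ≠ P' ∧ Col P P' R).card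

/-- number of points `Q` of `S` other than `P` such that the line `P Q` meets the line `φ = v` in a lattice point of the board -/
noncomputable def sP (p : ℕ) (φ : ℤ × ℤ) (v : ℤ) (S : Finset Pt) (P : Pt) : ℕ :=
  (S.filter fun Q => Q ≠ P ∧ ∃ z ∈ bd (2 * p), ev φ z = v ∧ Col P Q z).card

/-- classes of the first pencil -/
structure IsA (p : ℕ) (c : ZMod p × ZMod p) (A : ZMod p → Finset Pt) : Prop where
  sub : ∀ k, A k ⊆ bd (2 * p)
  n3 : ∀ k, N3 (A k)
  val : ∀ k, ∀ P ∈ A k, Fp c P = k ∧ k ≠ 0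

/-- The set `U` is covered by the classes `K k ∪ E k` (`K k ⊆ A k`, `E k ⊆ Y` with at most `m` points) and `r` further sets,
all without three points on a line. -/
def Cov (p : ℕ) (A : ZMod p → Finset Pt) (Y U : Finset Pt) (m r : ℕ) : Prop :=
  ∃ (K E : ZMod p → Finset Pt) (O : Fin r → Finset Pt),
    (∀ k, K k ⊆ A k) ∧ (∀ k, E k ⊆ Y) ∧ (∀ k, (E k).card ≤ m) ∧ (∀ k, N3 (K k ∪ E k)) ∧
    (∀ j, N3 (O j)) ∧ ∀ P ∈ U, (∃ k, P ∈ K k ∪ E k) ∨ ∃ j, P ∈ O j

/-- scaled coordinate -/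
def sc (x : ℤ) : ℤ := 14 * x + 7

/-- the class (three in each of the 14 units of length `2p`) of a scaled coordinate -/
def cls (p w X : ℤ) : ℤ :=
  3 * (X / (2 * p)) + (if X % (2 * p) < 2 * w then 0 else if 2 * p - 2 * w < X % (2 * p) then 2 else 1)

/-- `x` is not near a boundary -/
def Nb (p w x : ℤ) : Prop := ∀ i j : ℤ, |j| ≤ 6 → 7 < |sc x - (2 * i * p + 2 * j * w)|

/-- the micro position of a scaled coordinate (see `tp` in Tab.lean) -/
def mic (p w X : ℤ) : ℕ × ℕ :=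
  ((X / (2 * p)).toNat,
    if X % (2 * p) < 10 * w then ((X % (2 * p)) / (2 * w)).toNat
    else if 2 * p - 10 * w < X % (2 * p) then (10 - (2 * p - X % (2 * p)) / (2 * w)).toNat
    else 5)

end Pool.Agent.H72.NL
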