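import Pool.Agent.H72.NL.SumCol
import Pool.Agent.H72.NL.Beta
import Pool.Agent.H72.NL.Alpha
import Pool.Agent.H72.NL.Div

/-!
ROW Hb (MP_1efb31_NL, about 120 lines). Combination of the three counting bounds (use them as they stand).

PROOF. `D ≥ 0` the constant of `tau_le (1/3)`. Constants depend on `m` only. Let `P ∈ V`, `P ∈ A k`; then `Fp c P = k` (`hA.val`), so `A (Fp c P) = A k`. `P` is on the board, so `|ev φ P| ≤ 4p`, `1 ≤ |v - ev φ P| ≤ 8p`, and by `sP_le` and `tau_le`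
`n P ≤ 20 √p * D * (8p)^(1/3) + m ≤ C1 * p^(5/6)`.
`∑_{P ∈ V} n P ≤ ∑_k ∑_{P ∈ A k} sP + m |V| ≤ 2000 p² (1 + log p) + 4 m p²` (the `A k` are disjoint as `Fp c P = k` on `A k`; `V ⊆` board of `4 p²` points) `≤ C2 p² (1 + log p)`.
For `P ∈ V`: `∑_{P' ∈ V, P' ≠ P} cc ≤ 1000 p² (1 + log p)` (`sum_cc`; the last factor in the statement is `cc p P P'` by definition).
So the double sum is `≤ C1 p^(5/6) * ∑_P n P * ∑_{P'} cc ≤ C1 C2 1000 p^(29/6) (1 + log p)² ≤ C p^(59/12)` as `(1 + log p)² ≤ C3 p^(1/12)` (`Real.log_le_rpow_div` with exponent `1/24`).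
-/

set_option autoImplicit false

open scoped Classical

namespace Pool.Agent.H72.NL

/-- the functional is at most `4 p` in absolute value on the board -/
theorem hb_ev {p : ℕ} {φ : ℤ × ℤ} (hφ : IsDir φ) {P : Pt} (hP : P ∈ bd (2 * p)) : |ev φ P| ≤ 4 * p := by
  obtain ⟨⟨h1, h2⟩, h3, h4⟩ := mem_bd.1 hP
  push_cast at h2 h4
  unfold ev
  rcases hφ with h | h | h | h <;> subst h <;> rw [abs_le] <;> constructor <;> simp only <;> linarith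

/-- `(1 + log x)² ≤ 625 x^(1/12)` -/
theorem hb_log {x : ℝ} (hx : 1 ≤ x) : (1 + Real.log x) ^ 2 ≤ 625 * x ^ (1 / 12 : ℝ) := by
  have hx0 : 0 ≤ x := by linarith
  have h1 : Real.log x ≤ x ^ (1 / 24 : ℝ) / (1 / 24 : ℝ) := Real.log_le_rpow_div hx0 (by norm_num)
  have h2 : 1 ≤ x ^ (1 / 24 : ℝ) := Real.one_le_rpow hx (by norm_num)
  have h0 : 0 ≤ Real.log x := Real.log_nonneg hx
  have h3 : 1 + Real.log x ≤ 25 * x ^ (1 / 24 : ℝ) := by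
    have : x ^ (1 / 24 : ℝ) / (1 / 24 : ℝ) = 24 * x ^ (1 / 24 : ℝ) := by ring
    linarith
  have h4 : (x ^ (1 / 24 : ℝ)) ^ 2 = x ^ (1 / 12 : ℝ) := by
    rw [← Real.rpow_natCast, ← Real.rpow_mul hx0]
    norm_num
  calc (1 + Real.log x) ^ 2 ≤ (25 * x ^ (1 / 24 : ℝ)) ^ 2 := by
        apply pow_le_pow_left₀ (by linarith) h3
    _ = 625 * x ^ (1 / 12 : ℝ) := by rw [mul_pow, h4]; norm_num

/-- the pointwise bound -/
theorem hb_pt (m : ℕ) {D : ℝ} (hD : 0 ≤ D) (hτ : ∀ q : ℕ, 1 ≤ q → (q.divisors.card : ℝ) ≤ D * (q : ℝ) ^ (1 / 3 : ℝ))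
    (p : ℕ) (hp : 3 ≤ p) {S : Finset Pt} (hS : S ⊆ bd (2 * p)) (h3 : N3 S) {P : Pt} (hP : P ∈ S)
    {φ : ℤ × ℤ} (hφ : IsDir φ) {v : ℤ} (hv4 : |v| ≤ 4 * p) (hv : ev φ P ≠ v) {n : ℕ}
    (hn : n ≤ sP p φ v S P + m) : (n : ℝ) ≤ (40 * D + m) * (p : ℝ) ^ (5 / 6 : ℝ) := by
  have hp1 : (1 : ℝ) ≤ p := by exact_mod_cast (by omega : 1 ≤ p)
  have hp0 : (0 : ℝ) ≤ p := by linarith
  have hs := sP_le p (by omega) hS h3 hP hφ hv
  have he := hb_ev hφ (hS hP)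
  obtain ⟨q, hq⟩ : ∃ q, q = (v - ev φ P).natAbs := ⟨_, rfl⟩
  rw [← hq] at hs
  have hq1 : 1 ≤ q := by
    rw [hq]
    have : v - ev φ P ≠ 0 := sub_ne_zero.2 (Ne.symm hv)
    omega
  have hq8 : q ≤ 8 * p := by
    rw [abs_le] at hv4 he
    rw [hq]
    omega
  have h1 := hτ q hq1
  have h2 : (q : ℝ) ^ (1 / 3 : ℝ) ≤ 2 * (p : ℝ) ^ (1 / 3 : ℝ) := by
    have h8 : (q : ℝ) ≤ 8 * p := by exact_mod_cast hq8
    have h9 : (8 : ℝ) ^ (1 / 3 : ℝ) = 2 := by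
      rw [show (8 : ℝ) = 2 ^ (3 : ℝ) by norm_num, ← Real.rpow_mul (by norm_num)]
      norm_num
    calc (q : ℝ) ^ (1 / 3 : ℝ) ≤ (8 * p) ^ (1 / 3 : ℝ) := by
          apply Real.rpow_le_rpow (by positivity) h8 (by norm_num)
      _ = 2 * (p : ℝ) ^ (1 / 3 : ℝ) := by
          rw [Real.mul_rpow (by norm_num) hp0, h9]
  have h3' : (q.divisors.card : ℝ) ≤ D * (2 * (p : ℝ) ^ (1 / 3 : ℝ)) :=
    h1.trans (mul_le_mul_of_nonneg_left h2 hD)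
  have h4 : Real.sqrt p * (p : ℝ) ^ (1 / 3 : ℝ) = (p : ℝ) ^ (5 / 6 : ℝ) := by
    rw [Real.sqrt_eq_rpow, ← Real.rpow_add (by linarith)]
    norm_num
  have h5 : (sP p φ v S P : ℝ) ≤ 40 * D * (p : ℝ) ^ (5 / 6 : ℝ) := by
    calc (sP p φ v S P : ℝ) ≤ 20 * Real.sqrt p * (q.divisors.card : ℝ) := hs
      _ ≤ 20 * Real.sqrt p * (D * (2 * (p : ℝ) ^ (1 / 3 : ℝ))) := by
          apply mul_le_mul_of_nonneg_left h3' (by positivity)
      _ = 40 * D * (Real.sqrt p * (p : ℝ) ^ (1 / 3 : ℝ)) := by ring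
      _ = 40 * D * (p : ℝ) ^ (5 / 6 : ℝ) := by rw [h4]
  have h6 : (n : ℝ) ≤ (sP p φ v S P : ℝ) + m := by exact_mod_cast hn
  have h7 : 1 ≤ (p : ℝ) ^ (5 / 6 : ℝ) := Real.one_le_rpow hp1 (by norm_num)
  have h8 : (m : ℝ) ≤ m * (p : ℝ) ^ (5 / 6 : ℝ) := le_mul_of_one_le_right (by positivity) h7
  linarith [h5, h6, h8]

/-- the sum of the `n P` -/
theorem hb_sum (m : ℕ) (p : ℕ) [Fact p.Prime] (hp : 3 ≤ p) {c : ZMod p × ZMod p}
    {A : ZMod p → Finset Pt} (hA : IsA p c A) {φ : ℤ × ℤ} (hφ : IsDir φ) {v : ℤ}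
    (hv : ∀ k, ∀ P ∈ A k, ev φ P ≠ v) {V : Finset Pt} (hV : V ⊆ Finset.univ.biUnion A) {n : Pt → ℕ}
    (hn : ∀ P ∈ V, n P ≤ sP p φ v (A (Fp c P)) P + m) :
    ∑ P ∈ V, (n P : ℝ) ≤ (2000 + 4 * m) * (p : ℝ) ^ 2 * (1 + Real.log p) := by
  have hp1 : (1 : ℝ) ≤ p := by exact_mod_cast (by omega : 1 ≤ p)
  have hlog : 0 ≤ Real.log p := Real.log_nonneg hp1
  have hVb : V ⊆ bd (2 * p) := by
    intro P hP
    obtain ⟨k, _, hk⟩ := Finset.mem_biUnion.1 (hV hP)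
    exact hA.sub k hk
  have hcard : (V.card : ℝ) ≤ 4 * (p : ℝ) ^ 2 := by
    have h1 : V.card ≤ (bd (2 * p)).card := Finset.card_le_card hVb
    have h2 : (bd (2 * p)).card = (2 * p) * (2 * p) := by
      unfold bd
      rw [Finset.card_product, Int.card_Ico, sub_zero, Int.toNat_natCast]
    rw [h2] at h1
    have h3 : (V.card : ℝ) ≤ ((2 * p) * (2 * p) : ℕ) := by exact_mod_cast h1
    push_cast at h3
    nlinarith
  have h1 : ∑ P ∈ V, (n P : ℝ) ≤ ∑ P ∈ V, ((sP p φ v (A (Fp c P)) P : ℝ) + m) := by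
    apply Finset.sum_le_sum
    intro P hP
    exact_mod_cast hn P hP
  rw [Finset.sum_add_distrib, Finset.sum_const, nsmul_eq_mul] at h1
  have h2 : ∑ P ∈ V, (sP p φ v (A (Fp c P)) P : ℝ) ≤
      ∑ P ∈ Finset.univ.biUnion A, (sP p φ v (A (Fp c P)) P : ℝ) := by
    apply Finset.sum_le_sum_of_subset_of_nonneg hV
    intro _ _ _
    positivity
  have h3 : ∑ P ∈ Finset.univ.biUnion A, (sP p φ v (A (Fp c P)) P : ℝ) =
      ∑ k, ∑ P ∈ A k, (sP p φ v (A k) P : ℝ) := by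
    rw [Finset.sum_biUnion]
    · apply Finset.sum_congr rfl
      intro k _
      apply Finset.sum_congr rfl
      intro P hP
      rw [(hA.val k P hP).1]
    · intro k _ l _ hkl
      rw [Function.onFun, Finset.disjoint_left]
      intro P hk hl
      exact hkl ((hA.val k P hk).1.symm.trans (hA.val l P hl).1)
  have h4 := alpha p hp hA hφ hv
  have h5 : (V.card : ℝ) * m ≤ 4 * (p : ℝ) ^ 2 * m * (1 + Real.log p) := by
    calc (V.card : ℝ) * m ≤ 4 * (p : ℝ) ^ 2 * m := by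
          apply mul_le_mul_of_nonneg_right hcard (by positivity)
      _ ≤ 4 * (p : ℝ) ^ 2 * m * (1 + Real.log p) := by
          apply le_mul_of_one_le_right (by positivity)
          linarith
  nlinarith [h1, h2, h3, h4, h5]

theorem hb (m : ℕ) : ∃ C : ℝ, 0 < C ∧ ∀ (p : ℕ) [Fact p.Prime], 3 ≤ p → ∀ {c : ZMod p × ZMod p}
    {A : ZMod p → Finset Pt}, IsA p c A → ∀ {φ : ℤ × ℤ}, IsDir φ → ∀ {v : ℤ}, |v| ≤ 4 * p →
    (∀ k, ∀ P ∈ A k, ev φ P ≠ v) → ∀ {V : Finset Pt}, V ⊆ Finset.univ.biUnion A → ∀ {n : Pt → ℕ},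
    (∀ P ∈ V, n P ≤ sP p φ v (A (Fp c P)) P + m) →
    ∑ P ∈ V, ∑ P' ∈ V.filter (fun P' => P' ≠ P), (n P : ℝ) * (n P' : ℝ) *
      (((bd (2 * p)).filter fun R => R ≠ P ∧ R ≠ P' ∧ Col P P' R).card : ℝ) ≤ C * (p : ℝ) ^ (59 / 12 : ℝ) := by
  obtain ⟨D0, hD0⟩ := tau_le (1 / 3) (by norm_num)
  have hτ : ∀ q : ℕ, 1 ≤ q → (q.divisors.card : ℝ) ≤ |D0| * (q : ℝ) ^ (1 / 3 : ℝ) := by
    intro q hq
    exact (hD0 q hq).trans (mul_le_mul_of_nonneg_right (le_abs_self _) (by positivity))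
  have hD : 0 ≤ |D0| := abs_nonneg _
  generalize |D0| = D at hτ hD
  refine ⟨625000 * (40 * D + m) * (2000 + 4 * m) + 1, by positivity, ?_⟩
  intro p _ hp c A hA φ hφ v hv4 hv V hV n hn
  have hp1 : (1 : ℝ) ≤ p := by exact_mod_cast (by omega : 1 ≤ p)
  have hp0 : (0 : ℝ) < p := by linarith
  have hlog : 0 ≤ Real.log p := Real.log_nonneg hp1
  have hVb : V ⊆ bd (2 * p) := by
    intro P hP
    obtain ⟨k, _, hk⟩ := Finset.mem_biUnion.1 (hV hP)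
    exact hA.sub k hk
  obtain ⟨B, hB⟩ : ∃ B : ℝ, B = (40 * D + m) * (p : ℝ) ^ (5 / 6 : ℝ) := ⟨_, rfl⟩
  have hB0 : 0 ≤ B := by rw [hB]; positivity
  have hpt : ∀ P ∈ V, (n P : ℝ) ≤ B := by
    intro P hP
    obtain ⟨k, _, hk⟩ := Finset.mem_biUnion.1 (hV hP)
    have h1 := hn P hP
    rw [(hA.val k P hk).1] at h1
    rw [hB]
    exact hb_pt m hD hτ p hp (hA.sub k) (hA.n3 k) hk hφ hv4 (hv k P hk) h1
  have hsum := hb_sum m p hp hA hφ hv hV hn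
  have hin : ∀ P ∈ V, ∑ P' ∈ V.filter (fun P' => P' ≠ P), (n P : ℝ) * (n P' : ℝ) *
      (((bd (2 * p)).filter fun R => R ≠ P ∧ R ≠ P' ∧ Col P P' R).card : ℝ) ≤
      (n P : ℝ) * (B * (1000 * (p : ℝ) ^ 2 * (1 + Real.log p))) := by
    intro P hP
    have h1 : ∑ P' ∈ V.filter (fun P' => P' ≠ P), (cc p P P' : ℝ) ≤
        1000 * (p : ℝ) ^ 2 * (1 + Real.log p) := by
      refine le_trans ?_ (sum_cc p (by omega) P (hVb hP))
      apply Finset.sum_le_sum_of_subset_of_nonneg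
      · exact Finset.filter_subset_filter _ hVb
      · intro _ _ _
        positivity
    calc ∑ P' ∈ V.filter (fun P' => P' ≠ P), (n P : ℝ) * (n P' : ℝ) *
          (((bd (2 * p)).filter fun R => R ≠ P ∧ R ≠ P' ∧ Col P P' R).card : ℝ)
        ≤ ∑ P' ∈ V.filter (fun P' => P' ≠ P), (n P : ℝ) * B * (cc p P P' : ℝ) := by
          apply Finset.sum_le_sum
          intro P' hP'
          have hP'V : P' ∈ V := (Finset.mem_filter.1 hP').1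
          apply mul_le_mul_of_nonneg_right
          · exact mul_le_mul_of_nonneg_left (hpt P' hP'V) (by positivity)
          · positivity
      _ = (n P : ℝ) * B * ∑ P' ∈ V.filter (fun P' => P' ≠ P), (cc p P P' : ℝ) := by
          rw [Finset.mul_sum]
      _ ≤ (n P : ℝ) * B * (1000 * (p : ℝ) ^ 2 * (1 + Real.log p)) := by
          apply mul_le_mul_of_nonneg_left h1 (by positivity)
      _ = (n P : ℝ) * (B * (1000 * (p : ℝ) ^ 2 * (1 + Real.log p))) := by ring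
  have hpow : (p : ℝ) ^ (5 / 6 : ℝ) * ((p : ℝ) ^ 2 * (p : ℝ) ^ 2) * (p : ℝ) ^ (1 / 12 : ℝ) =
      (p : ℝ) ^ (59 / 12 : ℝ) := by
    rw [← pow_add, ← Real.rpow_natCast, ← Real.rpow_add hp0, ← Real.rpow_add hp0]
    norm_num
  have hL := hb_log hp1
  calc ∑ P ∈ V, ∑ P' ∈ V.filter (fun P' => P' ≠ P), (n P : ℝ) * (n P' : ℝ) *
      (((bd (2 * p)).filter fun R => R ≠ P ∧ R ≠ P' ∧ Col P P' R).card : ℝ)
      ≤ ∑ P ∈ V, (n P : ℝ) * (B * (1000 * (p : ℝ) ^ 2 * (1 + Real.log p))) := Finset.sum_le_sum hin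
    _ = (∑ P ∈ V, (n P : ℝ)) * (B * (1000 * (p : ℝ) ^ 2 * (1 + Real.log p))) := by
        rw [Finset.sum_mul]
    _ ≤ ((2000 + 4 * m) * (p : ℝ) ^ 2 * (1 + Real.log p)) *
        (B * (1000 * (p : ℝ) ^ 2 * (1 + Real.log p))) := by
        apply mul_le_mul_of_nonneg_right hsum
        positivity
    _ = (1000 * (40 * D + m) * (2000 + 4 * m)) * ((p : ℝ) ^ (5 / 6 : ℝ) * ((p : ℝ) ^ 2 * (p : ℝ) ^ 2)) *
        (1 + Real.log p) ^ 2 := by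
        rw [hB]; ring
    _ ≤ (1000 * (40 * D + m) * (2000 + 4 * m)) * ((p : ℝ) ^ (5 / 6 : ℝ) * ((p : ℝ) ^ 2 * (p : ℝ) ^ 2)) *
        (625 * (p : ℝ) ^ (1 / 12 : ℝ)) := by
        apply mul_le_mul_of_nonneg_left hL
        positivity
    _ = (625000 * (40 * D + m) * (2000 + 4 * m)) *
        ((p : ℝ) ^ (5 / 6 : ℝ) * ((p : ℝ) ^ 2 * (p : ℝ) ^ 2) * (p : ℝ) ^ (1 / 12 : ℝ)) := by ring
    _ = (625000 * (40 * D + m) * (2000 + 4 * m)) * (p : ℝ) ^ (59 / 12 : ℝ) := by rw [hpow]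
    _ ≤ (625000 * (40 * D + m) * (2000 + 4 * m) + 1) * (p : ℝ) ^ (59 / 12 : ℝ) := by
        apply mul_le_mul_of_nonneg_right
        · linarith
        · positivity

end Pool.Agent.H72.NL
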