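import Pool.Agent.H72.NL.Df

/-!
ROW Hyp (MP_1efb31_NL, about 100 lines). Colouring a set with few collinear triples.

PROOF. Over all maps `f : W → Fin N` (`N ^ |W|` of them) the number of pairs (f, triple of `Tr W` monochromatic for `f`) is `Tr W * N ^ (|W| - 2)` (for a triple of distinct points the number of `f` with `f P = f Q = f R` is `N ^ (|W| - 2)`; e.g. `f Q` and `f R` are determined by `f P`:
the map `f ↦ f` restricted to `W \ {Q, R}` is injective on these `f`, so `≤ N ^ (|W| - 2)`, enough). So some `f` has at most `Tr W / N ^ 2` monochromatic triples (if `W` has fewer than two points there are no triples, take any `f`). Let `X` be the set of first points `z.1` of the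
monochromatic triples: `|X| ≤ Tr W / N ^ 2`. The sets `f⁻¹(i) \ X` (`i < N`) have no three collinear points; the points of `X` are singletons. `r = N + |X|`.
-/

set_option autoImplicit false

open scoped Classical

namespace Pool.Agent.H72.NL

/-- extension of a colouring of `W` -/
private noncomputable def ex {W : Finset Pt} {N : ℕ} (hN : 0 < N) (f : W → Fin N) (P : Pt) : Fin N :=
  if h : P ∈ W then f ⟨P, h⟩ else ⟨0, hN⟩

private theorem ex_mem {W : Finset Pt} {N : ℕ} (hN : 0 < N) (f : W → Fin N) {P : Pt} (h : P ∈ W) :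
    ex hN f P = f ⟨P, h⟩ := by
  rw [ex, dif_pos h]

/-- the triples counted by `Tr` -/
private noncomputable def TT (W : Finset Pt) : Finset (Pt × Pt × Pt) :=
  (W ×ˢ W ×ˢ W).filter fun z => z.1 ≠ z.2.1 ∧ z.1 ≠ z.2.2 ∧ z.2.1 ≠ z.2.2 ∧ Col z.1 z.2.1 z.2.2

/-- monochromatic -/
private def Mo {W : Finset Pt} {N : ℕ} (hN : 0 < N) (f : W → Fin N) (z : Pt × Pt × Pt) : Prop :=
  ex hN f z.1 = ex hN f z.2.1 ∧ ex hN f z.1 = ex hN f z.2.2

private theorem cnt_mono {W : Finset Pt} {N : ℕ} (hN : 0 < N) {z : Pt × Pt × Pt} (hz : z ∈ TT W) :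
    ((Finset.univ : Finset (W → Fin N)).filter fun f => Mo hN f z).card * N ^ 2 ≤
      Fintype.card (W → Fin N) := by
  obtain ⟨P, Q, R⟩ := z
  simp only [TT, Finset.mem_filter, Finset.mem_product] at hz
  obtain ⟨⟨hP, hQ, hR⟩, hPQ, hPR, hQR, -⟩ := hz
  have hc : ((Finset.univ : Finset (W → Fin N)).filter fun f => Mo hN f (P, Q, R)).card * N ^ 2 =
      (((Finset.univ : Finset (W → Fin N)).filter fun f => Mo hN f (P, Q, R)) ×ˢ
        (Finset.univ : Finset (Fin N × Fin N))).card := by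
    rw [Finset.card_product, Finset.card_univ, Fintype.card_prod, Fintype.card_fin, pow_two]
  rw [hc, ← Finset.card_univ]
  refine Finset.card_le_card_of_injOn
    (fun x => Function.update (Function.update x.1 ⟨Q, hQ⟩ x.2.1) ⟨R, hR⟩ x.2.2)
    (fun _ _ => Finset.mem_coe.2 (Finset.mem_univ _)) ?_
  rintro ⟨f, a, b⟩ hx ⟨g, c, d⟩ hy hxy
  have hx := (Finset.mem_filter.1 (Finset.mem_product.1 (Finset.mem_coe.1 hx)).1).2
  have hy := (Finset.mem_filter.1 (Finset.mem_product.1 (Finset.mem_coe.1 hy)).1).2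
  change ex hN f P = ex hN f Q ∧ ex hN f P = ex hN f R at hx
  change ex hN g P = ex hN g Q ∧ ex hN g P = ex hN g R at hy
  rw [ex_mem hN f hP, ex_mem hN f hQ, ex_mem hN f hR] at hx
  rw [ex_mem hN g hP, ex_mem hN g hQ, ex_mem hN g hR] at hy
  have hQR' : (⟨Q, hQ⟩ : W) ≠ ⟨R, hR⟩ := fun h => hQR (congrArg Subtype.val h)
  have hPQ' : (⟨P, hP⟩ : W) ≠ ⟨Q, hQ⟩ := fun h => hPQ (congrArg Subtype.val h)
  have hPR' : (⟨P, hP⟩ : W) ≠ ⟨R, hR⟩ := fun h => hPR (congrArg Subtype.val h)
  have hb : b = d := by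
    have := congrFun hxy ⟨R, hR⟩
    simpa using this
  have ha : a = c := by
    have := congrFun hxy ⟨Q, hQ⟩
    simpa [Function.update_of_ne hQR'] using this
  have hne : ∀ w : W, w ≠ ⟨Q, hQ⟩ → w ≠ ⟨R, hR⟩ → f w = g w := by
    intro w h1 h2
    have := congrFun hxy w
    simpa [Function.update_of_ne h2, Function.update_of_ne h1] using this
  have hfg : f = g := by
    funext w
    by_cases h1 : w = ⟨Q, hQ⟩
    · rw [h1, ← hx.1, ← hy.1, hne _ hPQ' hPR']
    · by_cases h2 : w = ⟨R, hR⟩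
      · rw [h2, ← hx.2, ← hy.2, hne _ hPQ' hPR']
      · exact hne w h1 h2
  rw [hfg, ha, hb]

private theorem exists_f (W : Finset Pt) {N : ℕ} (hN : 0 < N) :
    ∃ f : W → Fin N, ((TT W).filter fun z => Mo hN f z).card * N ^ 2 ≤ (TT W).card := by
  have : Nonempty (Fin N) := ⟨⟨0, hN⟩⟩
  have hs : (Finset.univ : Finset (W → Fin N)).Nonempty := Finset.univ_nonempty
  have hsum : ∑ f : W → Fin N, ((TT W).filter fun z => Mo hN f z).card * N ^ 2 ≤
      ∑ _f : W → Fin N, (TT W).card := by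
    have h1 : ∑ f : W → Fin N, ((TT W).filter fun z => Mo hN f z).card =
        ∑ z ∈ TT W, ((Finset.univ : Finset (W → Fin N)).filter fun f => Mo hN f z).card := by
      simp only [Finset.card_filter]
      rw [Finset.sum_comm]
    rw [← Finset.sum_mul, h1, Finset.sum_mul]
    calc ∑ z ∈ TT W, ((Finset.univ : Finset (W → Fin N)).filter fun f => Mo hN f z).card * N ^ 2
        ≤ ∑ z ∈ TT W, Fintype.card (W → Fin N) := Finset.sum_le_sum fun z hz => cnt_mono hN hz
      _ = ∑ _f : W → Fin N, (TT W).card := by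
          rw [Finset.sum_const, Finset.sum_const, Finset.card_univ, smul_eq_mul, smul_eq_mul, mul_comm]
  obtain ⟨f, -, hf⟩ := Finset.exists_le_of_sum_le hs hsum
  exact ⟨f, hf⟩

theorem hyp (W : Finset Pt) (N : ℕ) (hN : 0 < N) :
    ∃ (r : ℕ) (O : Fin r → Finset Pt), (r : ℝ) ≤ N + (Tr W : ℝ) / (N : ℝ) ^ 2 ∧ (∀ j, N3 (O j)) ∧
      ∀ P ∈ W, ∃ j, P ∈ O j := by
  obtain ⟨f, hf⟩ := exists_f W hN
  set M : Finset (Pt × Pt × Pt) := (TT W).filter fun z => Mo hN f z with hM
  set X : Finset Pt := M.image fun z => z.1 with hX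
  have hXM : X.card ≤ M.card := Finset.card_image_le
  let O' : Fin N ⊕ X → Finset Pt := fun s => match s with
    | Sum.inl i => (W.filter fun P => ex hN f P = i) \ X
    | Sum.inr x => {x.1}
  let e := Fintype.equivFin (Fin N ⊕ X)
  have hcard : Fintype.card (Fin N ⊕ X) = N + X.card := by
    rw [Fintype.card_sum, Fintype.card_fin, Fintype.card_coe]
  refine ⟨Fintype.card (Fin N ⊕ X), fun j => O' (e.symm j), ?_, ?_, ?_⟩
  · rw [hcard]
    push_cast
    have hN' : (0 : ℝ) < (N : ℝ) ^ 2 := by positivity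
    have h1 : ((X.card : ℕ) : ℝ) * (N : ℝ) ^ 2 ≤ (Tr W : ℝ) := by
      have : X.card * N ^ 2 ≤ Tr W := (Nat.mul_le_mul_right _ hXM).trans hf
      exact_mod_cast this
    have h2 : ((X.card : ℕ) : ℝ) ≤ (Tr W : ℝ) / (N : ℝ) ^ 2 := by
      rw [le_div_iff₀ hN']
      exact h1
    linarith
  · intro j
    rcases hs : e.symm j with i | x
    · have hO : O' (e.symm j) = (W.filter fun P => ex hN f P = i) \ X := by rw [hs]
      change N3 (O' (e.symm j))
      rw [hO]
      intro P hP Q hQ R hR hPQ hPR hQR hcol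
      simp only [Finset.mem_sdiff, Finset.mem_filter] at hP hQ hR
      refine hP.2 (Finset.mem_image.2 ⟨(P, Q, R), ?_, rfl⟩)
      rw [hM, Finset.mem_filter, TT, Finset.mem_filter]
      exact ⟨⟨Finset.mem_product.2 ⟨hP.1.1, Finset.mem_product.2 ⟨hQ.1.1, hR.1.1⟩⟩, hPQ, hPR, hQR, hcol⟩,
        by rw [hP.1.2, hQ.1.2], by rw [hP.1.2, hR.1.2]⟩
    · have hO : O' (e.symm j) = {x.1} := by rw [hs]
      change N3 (O' (e.symm j))
      rw [hO]
      intro P hP Q hQ R hR hPQ
      rw [Finset.mem_singleton] at hP hQ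
      exact absurd (hP.trans hQ.symm) hPQ
  · intro P hP
    by_cases hPX : P ∈ X
    · refine ⟨e (Sum.inr ⟨P, hPX⟩), ?_⟩
      change P ∈ O' (e.symm (e (Sum.inr ⟨P, hPX⟩)))
      rw [Equiv.symm_apply_apply]
      exact Finset.mem_singleton_self P
    · refine ⟨e (Sum.inl (ex hN f P)), ?_⟩
      change P ∈ O' (e.symm (e (Sum.inl (ex hN f P))))
      rw [Equiv.symm_apply_apply]
      exact Finset.mem_sdiff.2 ⟨Finset.mem_filter.2 ⟨hP, rfl⟩, hPX⟩

end Pool.Agent.H72.NL
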