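import Pool.Agent.H72.NL.Step

/-!
ROW Iter (MP_1efb31_NL, about 150 lines). All exceptional lines (uses `step` as it stands).

PROOF. `δ = ε / (2 (M + 1))`; `p0` the maximum of the `p0` of `step δ (2 i)`, `i ≤ M`, and of some `p1` with `M² ≤ ε p1 / 2`.
For `l ∈ Ls` let `X l` be the set of `P` in the board with `ev l.1 P = l.2` and `ev l'.1 P ≠ l'.2` for all `l' ∈ Ls`, `l' ≠ l`. Claim, by induction on `L ⊆ Ls` (`Finset.induction_on`): there is `r ≤ δ |L| p` with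
`Cov p A (L.biUnion X) (univ.biUnion A ∪ L.biUnion X) (2 |L|) r`. `L = ∅`: `K = A`, `E = ∅`, `r = 0`. Step: `insert l L`: `step δ (2 |L|)` with `φ = l.1`, `v = l.2`, `X = X l`, `Y = L.biUnion X` (a point of `X l'`, `l' ≠ l`, is not on `l`).
For `L = Ls`: classes `K k ∪ E k` (`p` of them), `r` sets `O`; the points of the board on at least two lines of `Ls` are at most `M²`: the pair `(l, l')`, `l ≠ l'`, of lines through `P` determines `P` (if `l.1 = l'.1` then `l.2 = l'.2`; for two different of the four forms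
`ev φ P = v`, `ev φ' P = v'` has at most one solution); singletons for these. Total `p + δ M p + M² ≤ (1 + ε) p`.
-/

set_option autoImplicit false

open scoped Classical

namespace Pool.Agent.H72.NL

/-- Two different exceptional lines meet in at most one point. -/
private theorem it_uniq {l l' : (ℤ × ℤ) × ℤ} (hl : IsDir l.1) (hl' : IsDir l'.1) (hne : l ≠ l')
    {P Q : Pt} (h1 : ev l.1 P = l.2) (h2 : ev l'.1 P = l'.2) (h3 : ev l.1 Q = l.2)
    (h4 : ev l'.1 Q = l'.2) : P = Q := by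
  obtain ⟨φ, v⟩ := l
  obtain ⟨φ', v'⟩ := l'
  obtain ⟨x, y⟩ := P
  obtain ⟨z, w⟩ := Q
  simp only at hl hl' h1 h2 h3 h4
  by_cases he : φ = φ'
  · subst he
    have hv : v = v' := h1.symm.trans h2
    rw [hv] at hne
    exact absurd rfl hne
  · unfold ev at h1 h2 h3 h4
    rcases hl with rfl | rfl | rfl | rfl <;> rcases hl' with rfl | rfl | rfl | rfl <;>
      first
      | exact absurd rfl he
      | (simp at h1 h2 h3 h4
         exact Prod.ext (by omega) (by omega))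

theorem fixup (ε : ℝ) (hε : 0 < ε) (M : ℕ) : ∃ p0 : ℕ, ∀ (p : ℕ) [Fact p.Prime], p0 ≤ p → ∀ {c : ZMod p × ZMod p}
    {A : ZMod p → Finset Pt}, IsA p c A → ∀ {Ls : Finset ((ℤ × ℤ) × ℤ)}, Ls.card ≤ M →
    (∀ l ∈ Ls, IsDir l.1 ∧ |l.2| ≤ 4 * p) → (∀ l ∈ Ls, ∀ k, ∀ P ∈ A k, ev l.1 P ≠ l.2) →
    ∃ (r : ℕ) (O : Fin r → Finset Pt), (r : ℝ) ≤ (1 + ε) * p ∧ (∀ j, N3 (O j)) ∧
      ∀ P ∈ bd (2 * p), ((∃ k, P ∈ A k) ∨ ∃ l ∈ Ls, ev l.1 P = l.2) → ∃ j, P ∈ O j := by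
  obtain ⟨δ, hδd⟩ : ∃ δ : ℝ, δ = ε / (2 * (M + 1)) := ⟨_, rfl⟩
  have hM0 : (0 : ℝ) ≤ M := Nat.cast_nonneg M
  have hδ : 0 < δ := by
    rw [hδd]
    positivity
  have hδM : δ * M ≤ ε / 2 := by
    rw [hδd, div_mul_eq_mul_div, div_le_iff₀ (by positivity)]
    nlinarith
  choose f hf using fun i : ℕ => step δ hδ (2 * i)
  obtain ⟨p1, hp1⟩ := exists_nat_ge (2 * (M : ℝ) ^ 2 / ε)
  refine ⟨max ((Finset.range (M + 1)).sup f) p1, ?_⟩
  intro p _ hp c A hA Ls hLs hdir hoff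
  have hpf : ∀ i ≤ M, f i ≤ p := fun i hi =>
    (Finset.le_sup (f := f) (Finset.mem_range.2 (by omega))).trans ((le_max_left _ _).trans hp)
  have hp2 : (M : ℝ) ^ 2 ≤ ε / 2 * p := by
    have h1 : (p1 : ℝ) ≤ p := by exact_mod_cast (le_max_right _ _).trans hp
    have h2 := hp1.trans h1
    rw [div_le_iff₀ hε] at h2
    linarith
  obtain ⟨X, hX⟩ : ∃ X : (ℤ × ℤ) × ℤ → Finset Pt, ∀ l P, P ∈ X l ↔ P ∈ bd (2 * p) ∧
      ev l.1 P = l.2 ∧ ∀ l' ∈ Ls, l' ≠ l → ev l'.1 P ≠ l'.2 :=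
    ⟨fun l => (bd (2 * p)).filter fun P => ev l.1 P = l.2 ∧ ∀ l' ∈ Ls, l' ≠ l →
      ev l'.1 P ≠ l'.2, fun l P => Finset.mem_filter⟩
  have claim : ∀ L : Finset ((ℤ × ℤ) × ℤ), L ⊆ Ls → ∃ r : ℕ, (r : ℝ) ≤ δ * L.card * p ∧
      Cov p A (L.biUnion X) (Finset.univ.biUnion A ∪ L.biUnion X) (2 * L.card) r := by
    intro L
    induction L using Finset.induction_on with
    | empty =>
      intro _
      refine ⟨0, by simp, A, fun _ => ∅, Fin.elim0, fun k => subset_rfl, fun k => by simp,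
        fun k => by simp, fun k => ?_, fun j => j.elim0, fun P hP => ?_⟩
      · rw [Finset.union_empty]
        exact hA.n3 k
      · rw [Finset.biUnion_empty, Finset.union_empty, Finset.mem_biUnion] at hP
        obtain ⟨k, -, hk⟩ := hP
        exact Or.inl ⟨k, by rwa [Finset.union_empty]⟩
    | insert l L hlL ih =>
      intro hsub
      obtain ⟨r, hr, hC⟩ := ih ((Finset.subset_insert l L).trans hsub)
      have hlLs : l ∈ Ls := hsub (Finset.mem_insert_self l L)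
      have hcard : L.card ≤ M :=
        (Finset.card_le_card ((Finset.subset_insert l L).trans hsub)).trans hLs
      have hY : ∀ P ∈ L.biUnion X, ev l.1 P ≠ l.2 := by
        intro P hP
        obtain ⟨l', hl', hPX⟩ := Finset.mem_biUnion.1 hP
        refine ((hX l' P).1 hPX).2.2 l hlLs ?_
        rintro rfl
        exact hlL hl'
      have hX1 : ∀ P ∈ X l, P ∈ bd (2 * p) ∧ ev l.1 P = l.2 := fun P hP =>
        ⟨((hX l P).1 hP).1, ((hX l P).1 hP).2.1⟩
      obtain ⟨r', hr', hC'⟩ := hf L.card p (hpf _ hcard) hA (hdir l hlLs).1 (hdir l hlLs).2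
        (hoff l hlLs) hY hX1 hC
      refine ⟨r', ?_, ?_⟩
      · rw [Finset.card_insert_of_notMem hlL]
        push_cast
        nlinarith
      · have e1 : (insert l L).biUnion X = L.biUnion X ∪ X l := by
          rw [Finset.biUnion_insert, Finset.union_comm]
        have e2 : 2 * (insert l L).card = 2 * L.card + 2 := by
          rw [Finset.card_insert_of_notMem hlL]
          ring
        rw [e1, e2, ← Finset.union_assoc]
        exact hC'
  obtain ⟨r, hr, K, E, O, -, -, -, hKE, hO, hU⟩ := claim Ls subset_rfl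
  obtain ⟨Z, hZ⟩ : ∃ Z : Finset Pt, ∀ P, P ∈ Z ↔ P ∈ bd (2 * p) ∧ ∃ l ∈ Ls, ∃ l' ∈ Ls, l ≠ l' ∧
      ev l.1 P = l.2 ∧ ev l'.1 P = l'.2 :=
    ⟨(bd (2 * p)).filter fun P => ∃ l ∈ Ls, ∃ l' ∈ Ls, l ≠ l' ∧
      ev l.1 P = l.2 ∧ ev l'.1 P = l'.2, fun P => Finset.mem_filter⟩
  have hZc : Z.card ≤ M ^ 2 := by
    have h : Z.card ≤ (Ls ×ˢ Ls).card := by
      refine Finset.card_le_card_of_forall_subsingleton
        (fun P y => y.1 ≠ y.2 ∧ ev y.1.1 P = y.1.2 ∧ ev y.2.1 P = y.2.2) ?_ ?_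
      · intro P hP
        obtain ⟨-, l, hl, l', hl', h1, h2, h3⟩ := (hZ P).1 hP
        exact ⟨(l, l'), Finset.mem_product.2 ⟨hl, hl'⟩, h1, h2, h3⟩
      · intro y hy P hP Q hQ
        obtain ⟨-, h1, h2, h3⟩ := hP
        obtain ⟨-, -, h4, h5⟩ := hQ
        have hy' := Finset.mem_product.1 hy
        exact it_uniq (hdir _ hy'.1).1 (hdir _ hy'.2).1 h1 h2 h3 h4 h5
    refine h.trans ?_
    rw [Finset.card_product, sq]
    exact Nat.mul_le_mul hLs hLs
  obtain ⟨OO, hOO⟩ : ∃ OO : ZMod p ⊕ Fin r ⊕ {z // z ∈ Z} → Finset Pt,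
      OO = Sum.elim (fun k => K k ∪ E k) (Sum.elim O fun z => {z.1}) := ⟨_, rfl⟩
  have hN : ∀ x, N3 (OO x) := by
    rw [hOO]
    rintro (k | j | z)
    · exact hKE k
    · exact hO j
    · intro P hP Q hQ R hR h1
      rw [Sum.elim_inr, Sum.elim_inr, Finset.mem_singleton] at hP hQ
      exact absurd (hP.trans hQ.symm) h1
  have hcov : ∀ P ∈ bd (2 * p), ((∃ k, P ∈ A k) ∨ ∃ l ∈ Ls, ev l.1 P = l.2) → ∃ x, P ∈ OO x := by
    intro P hP h
    have hU' : P ∈ Finset.univ.biUnion A ∪ Ls.biUnion X → ∃ x, P ∈ OO x := by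
      intro h1
      rcases hU P h1 with ⟨k, hk⟩ | ⟨j, hj⟩
      · exact ⟨Sum.inl k, by rw [hOO]; exact hk⟩
      · exact ⟨Sum.inr (Sum.inl j), by rw [hOO]; exact hj⟩
    rcases h with ⟨k, hk⟩ | ⟨l, hl, hl'⟩
    · exact hU' (Finset.mem_union_left _ (Finset.mem_biUnion.2 ⟨k, Finset.mem_univ k, hk⟩))
    · by_cases hx : P ∈ X l
      · exact hU' (Finset.mem_union_right _ (Finset.mem_biUnion.2 ⟨l, hl, hx⟩))
      · have hz : P ∈ Z := by
          rw [hX] at hx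
          push Not at hx
          obtain ⟨l', h1, h2, h3⟩ := hx hP hl'
          exact (hZ P).2 ⟨hP, l', h1, l, hl, h2, h3, hl'⟩
        exact ⟨Sum.inr (Sum.inr ⟨P, hz⟩), by rw [hOO]; exact Finset.mem_singleton_self P⟩
  refine ⟨Fintype.card (ZMod p ⊕ Fin r ⊕ {z // z ∈ Z}),
    fun j => OO ((Fintype.equivFin _).symm j), ?_, fun j => hN _, fun P hP h => ?_⟩
  · rw [Fintype.card_sum, Fintype.card_sum, Fintype.card_fin, Fintype.card_coe, ZMod.card]
    push_cast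
    have h1 : (Z.card : ℝ) ≤ (M : ℝ) ^ 2 := by exact_mod_cast hZc
    have h2 : (Ls.card : ℝ) ≤ M := by exact_mod_cast hLs
    have hp0 : (0 : ℝ) ≤ p := Nat.cast_nonneg p
    have h3 : δ * Ls.card * p ≤ ε / 2 * p :=
      mul_le_mul_of_nonneg_right ((mul_le_mul_of_nonneg_left h2 hδ.le).trans hδM) hp0
    linarith
  · obtain ⟨x, hx⟩ := hcov P hP h
    refine ⟨Fintype.equivFin _ x, ?_⟩
    change P ∈ OO ((Fintype.equivFin _).symm (Fintype.equivFin _ x))
    rw [Equiv.symm_apply_apply]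
    exact hx

end Pool.Agent.H72.NL
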