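import Mathlib
import Pool.Agent.H17.PNT

/-! Primes in short intervals (copied from the earlier hand-in UpperOne). -/

set_option autoImplicit false

open Filter Topology

namespace Pool.Agent.H72.NL

/-- For every `ε > 0` there is a prime in `[n, (1+ε)n]` for all large `n`. -/
theorem exists_prime_short {ε : ℝ} (hε : 0 < ε) :
    ∀ᶠ n : ℕ in atTop, ∃ p : ℕ, p.Prime ∧ n ≤ p ∧ (p : ℝ) ≤ (1 + ε) * n := by
  have h1 : Tendsto (fun x : ℝ => Chebyshev.theta x / x) atTop (𝓝 1) :=
    Pool.Agent.H17.theta_tendsto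
  have hc : Tendsto (fun x : ℝ => (1 + ε) * x) atTop atTop :=
    tendsto_id.const_mul_atTop (by linarith)
  have h2 := h1.comp hc
  have hlt : (1 : ℝ) < 1 + ε / 4 := by linarith
  have e1 : ∀ᶠ x : ℝ in atTop, Chebyshev.theta x / x < 1 + ε / (4 * (1 + ε)) :=
    h1.eventually (gt_mem_nhds (by have : 0 < ε / (4 * (1 + ε)) := by positivity
                                   linarith))
  have e2 : ∀ᶠ x : ℝ in atTop, 1 - ε / (4 * (1 + ε)) <
      Chebyshev.theta ((1 + ε) * x) / ((1 + ε) * x) :=
    h2.eventually (lt_mem_nhds (by have : 0 < ε / (4 * (1 + ε)) := by positivity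
                                   linarith))
  have e3 := (e1.and e2).and (eventually_gt_atTop (0 : ℝ))
  have e4 := tendsto_natCast_atTop_atTop (R := ℝ) |>.eventually e3
  filter_upwards [e4] with n hn
  obtain ⟨⟨ha, hb⟩, hpos⟩ := hn
  have hεp : (0 : ℝ) < 1 + ε := by linarith
  rw [div_lt_iff₀ hpos] at ha
  rw [lt_div_iff₀ (by positivity)] at hb
  have hlt2 : Chebyshev.theta (n : ℝ) < Chebyshev.theta ((1 + ε) * n) := by
    have h3 : (1 + ε / (4 * (1 + ε))) * (n : ℝ) ≤ (1 - ε / (4 * (1 + ε))) * ((1 + ε) * n) := by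
      have h4 : ε / (4 * (1 + ε)) ≤ ε / 4 := by
        apply div_le_div_of_nonneg_left hε.le (by norm_num) (by linarith)
      have h5 : (1 - ε / (4 * (1 + ε))) * ((1 + ε) * n) = (1 + ε - ε / 4) * n := by
        field_simp
      rw [h5]
      apply mul_le_mul_of_nonneg_right _ hpos.le
      linarith
    linarith
  by_contra hcon
  push Not at hcon
  have hEq : Chebyshev.theta (n : ℝ) = Chebyshev.theta ((1 + ε) * n) := by
    unfold Chebyshev.theta
    apply Finset.sum_subset
    · intro q hq
      simp only [Finset.mem_filter, Finset.mem_Ioc] at hq ⊢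
      refine ⟨⟨hq.1.1, hq.1.2.trans ?_⟩, hq.2⟩
      apply Nat.floor_mono
      nlinarith
    · intro q hq hq'
      exfalso
      simp only [Finset.mem_filter, Finset.mem_Ioc, not_and, Nat.floor_natCast] at hq hq'
      have hqn : n < q := by
        by_contra hle
        exact hq' ⟨hq.1.1, not_lt.1 hle⟩ hq.2
      have := hcon q hq.2 hqn.le
      have h6 : (q : ℝ) ≤ (1 + ε) * n := (Nat.le_floor_iff (by positivity)).1 hq.1.2
      linarith
  linarith


end Pool.Agent.H72.NL
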