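import Pool.Agent.H72.NL.Iter
import Pool.Agent.H72.NL.ANo
import Pool.Agent.H72.NL.BNo
import Pool.Agent.H72.NL.Cover
import Pool.Agent.H72.NL.Pr

/-!
MP_1efb31: the board `[0, 2p)²` is covered by `(1 + ε) p + q` sets without three points on a line.
-/

set_option autoImplicit false

open scoped Classical

namespace Pool.Agent.H72.NL

theorem round14 (v : ℤ) : ∃ s : ℤ, |14 * s - v| ≤ 7 := by
  refine ⟨(v + 7) / 14, ?_⟩
  rw [abs_le]
  omega

theorem half_exists {p : ℕ} [Fact p.Prime] (hp : 3 ≤ p) (a : ZMod p) : ∃ b : ZMod p, b + b = a := by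
  have h2 : (2 : ZMod p) ≠ 0 := by
    intro h
    have h1 : ((2 : ℕ) : ZMod p) = 0 := by exact_mod_cast h
    rw [ZMod.natCast_eq_zero_iff] at h1
    have := Nat.le_of_dvd (by norm_num) h1
    omega
  refine ⟨a / 2, ?_⟩
  field_simp
  ring

theorem cover_bd (ε : ℝ) (hε : 0 < ε) : ∃ p0 : ℕ, ∀ (p q : ℕ) [Fact p.Prime] [Fact q.Prime] {w : ℤ}, p0 ≤ p →
    0 < w → 100 * w ≤ p → 7 * (q : ℤ) = 6 * p + w →
    ∃ (r : ℕ) (O : Fin r → Finset Pt), (r : ℝ) ≤ (1 + ε) * p + q ∧ (∀ j, N3 (O j)) ∧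
      ∀ P ∈ bd (2 * p), ∃ j, P ∈ O j := by
  obtain ⟨p0, hp0⟩ := fixup ε hε 2000
  refine ⟨p0, ?_⟩
  intro p q _ _ w hpp hw hp hq
  have hp3 : 3 ≤ p := by omega
  have hq3 : 3 ≤ q := by omega
  obtain ⟨s', hs'⟩ := round14 (6 * p)
  obtain ⟨t0, ht0⟩ := round14 (10 * p)
  obtain ⟨s, rfl⟩ : ∃ s, s' = s + 1 := ⟨s' - 1, by ring⟩
  obtain ⟨s1, hs1⟩ : ∃ s1, t0 = s1 + 1 := ⟨t0 - 1, by ring⟩
  obtain ⟨c1, hc1⟩ := half_exists hp3 ((s : ZMod p) + (t0 : ZMod p))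
  obtain ⟨c2, hc2⟩ := half_exists hp3 ((s : ZMod p) - (t0 : ZMod p))
  have h2 : ∀ a b : ZMod p, a + a = b + b → a = b := by
    intro a b hab
    have h2 : (2 : ZMod p) ≠ 0 := by
      intro h
      have h1 : ((2 : ℕ) : ZMod p) = 0 := by exact_mod_cast h
      rw [ZMod.natCast_eq_zero_iff] at h1
      have := Nat.le_of_dvd (by norm_num) h1
      omega
    exact mul_left_cancel₀ h2 (by rw [two_mul, two_mul, hab])
  have hc : c1 + c2 = (s : ZMod p) := h2 _ _ (by linear_combination hc1 + hc2)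
  have hc' : c1 - c2 = (t0 : ZMod p) := h2 _ _ (by linear_combination hc1 - hc2)
  obtain ⟨d1, hd1⟩ := half_exists hq3 (s1 : ZMod q)
  obtain ⟨Ls, hL1, hL2, hL3⟩ := cover hw hp hq (c1, c2) (d1, d1)
  -- first pencil
  set A : ZMod p → Finset Pt := fun k => if k = 0 then ∅ else (bd (2 * p)).filter fun P =>
    (∀ l ∈ Ls, ev l.1 P ≠ l.2) ∧ Nb p w P.1 ∧ Nb p w P.2 ∧ okA (cls p w (sc P.1)) (cls p w (sc P.2)) = true ∧
      Fp (c1, c2) P = k with hA
  have memA : ∀ k P, P ∈ A k ↔ k ≠ 0 ∧ P ∈ bd (2 * p) ∧ (∀ l ∈ Ls, ev l.1 P ≠ l.2) ∧ Nb p w P.1 ∧ Nb p w P.2 ∧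
      okA (cls p w (sc P.1)) (cls p w (sc P.2)) = true ∧ Fp (c1, c2) P = k := by
    intro k P
    simp only [hA]
    split_ifs with hk
    · simp [hk]
    · simp only [Finset.mem_filter, hk, ne_eq, not_false_eq_true, true_and]
  have hIsA : IsA p (c1, c2) A := by
    refine ⟨fun k P hP => ((memA k P).1 hP).2.1, fun k => ?_, fun k P hP => ?_⟩
    · by_cases hk : k = 0
      · intro P hP
        exact absurd hk ((memA k P).1 hP).1
      · refine A_N3 hw hp hs' ht0 (c := (c1, c2)) hc hc' hk fun P hP => ?_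
        have h := (memA k P).1 hP
        exact ⟨h.2.1, h.2.2.2.1, h.2.2.2.2.1, h.2.2.2.2.2.1, h.2.2.2.2.2.2⟩
    · have h := (memA k P).1 hP
      exact ⟨h.2.2.2.2.2.2, h.1⟩
  obtain ⟨r, O, hr, hO, hcov⟩ := hp0 p hpp hIsA hL1 hL2 (fun l hl k P hP => ((memA k P).1 hP).2.2.1 l hl)
  -- second pencil
  set B : ZMod q → Finset Pt := fun k => if k = 0 then ∅ else (bd (2 * p)).filter fun P =>
    Nb p w P.1 ∧ Nb p w P.2 ∧ okB (cls p w (sc P.1)) (cls p w (sc P.2)) = true ∧ Gq (d1, d1) P = k with hB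
  have memB : ∀ k P, P ∈ B k ↔ k ≠ 0 ∧ P ∈ bd (2 * p) ∧ Nb p w P.1 ∧ Nb p w P.2 ∧
      okB (cls p w (sc P.1)) (cls p w (sc P.2)) = true ∧ Gq (d1, d1) P = k := by
    intro k P
    simp only [hB]
    split_ifs with hk
    · simp [hk]
    · simp only [Finset.mem_filter, hk, ne_eq, not_false_eq_true, true_and]
  have hBn : ∀ k, N3 (B k) := by
    intro k
    by_cases hk : k = 0
    · intro P hP
      exact absurd hk ((memB k P).1 hP).1
    · rw [hs1] at ht0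
      refine B_N3 hw hp hq ht0 ht0 (d := (d1, d1)) hd1 hd1 hk fun P hP => ?_
      have h := (memB k P).1 hP
      exact ⟨h.2.1, h.2.2.1, h.2.2.2.1, h.2.2.2.2.1, h.2.2.2.2.2⟩
  have e : Fin (r + q) ≃ Fin r ⊕ ZMod q := by
    refine finSumFinEquiv.symm.trans (Equiv.sumCongr (Equiv.refl _) ?_)
    exact (Fintype.equivFinOfCardEq (ZMod.card q)).symm
  refine ⟨r + q, fun j => Sum.elim O B (e j), ?_, ?_, ?_⟩
  · push_cast
    linarith
  · intro j
    change N3 (Sum.elim O B (e j))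
    rcases e j with j' | k
    · exact hO j'
    · exact hBn k
  · intro P hP
    by_cases hl : ∃ l ∈ Ls, ev l.1 P = l.2
    · obtain ⟨j, hj⟩ := hcov P hP (Or.inr hl)
      exact ⟨e.symm (Sum.inl j), by simpa using hj⟩
    · push Not at hl
      obtain ⟨n1, n2, f1, f2⟩ := hL3 P hP hl
      have hb := mem_bd.1 hP
      push_cast at hb
      have i1 := inb_cls hw hp hb.1.1 hb.1.2
      have i2 := inb_cls hw hp hb.2.1 hb.2.2
      rcases okA_or_okB i1 i2 with ho | ho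
      · obtain ⟨j, hj⟩ := hcov P hP (Or.inl ⟨_, (memA _ P).2 ⟨f1, hP, hl, n1, n2, ho, rfl⟩⟩)
        exact ⟨e.symm (Sum.inl j), by simpa using hj⟩
      · exact ⟨e.symm (Sum.inr (Gq (d1, d1) P)), by simpa using (memB _ P).2 ⟨f2, hP, n1, n2, ho, rfl⟩⟩

end Pool.Agent.H72.NL
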