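import Pool.Agent.H72.NL.Hb
import Pool.Agent.H72.NL.Hyp
import Pool.Agent.H72.NL.Avg

/-!
ROW Step (MP_1efb31_NL, about 250 lines; the main step). The points `X` of one more line are distributed to the classes.

PROOF. `K, E, O` from `hC`. Put `V = ⋃ K k` (biUnion), `κ = Fp c`; for `P ∈ K k ⊆ A k`: `κ P = k` (`hA.val`), so `V.filter (κ = k) = K k`, and it is `N3` (subset of `K k ∪ E k`).
`SS P = {t | ∃ z ∈ X, (par φ z : ZMod p) = t ∧ ∃ Q ∈ K (κ P) ∪ E (κ P), Q ≠ P ∧ Col P Q z}` (univ.filter). For `P ∈ V` and `Q ≠ P` there is at most one `z` with `ev φ z = v`, `Col P Q z` (`P` is not on the line `ev φ = v`, `hv`), so `t` is a function of `Q`: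
`(SS P).card ≤ sP p φ v (A (κ P)) P + m` (`Q ∈ K (κ P) ⊆ A (κ P)` is counted in `sP`; `Q ∈ E (κ P)`: at most `m`).
`B k = {t | ∃ z ∈ X, (par φ z : ZMod p) = t ∧ ∃ Q Q' ∈ E k, Q ≠ Q' ∧ Col Q Q' z}`, `(B k).card ≤ m²` (`z` is determined by `(Q, Q')`, as `Q` is off the line, `hY`).
`N = ⌈δ p / 8⌉₊ > 0`. `hb m` with `n P = (SS P).card` and `avg` (`Bd = bd (2p)`, `b = m²`, `H = C p^(59/12)`) give `l ≠ 0`, `s` with, for `W = V.filter (l κ P + s ∈ SS P)`: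
`Tr W / N² + card {k | l k + s ∈ B k} ≤ 3 C p^(59/12) / (N² p (p - 1)) + m² ≤ (400 C / δ²) p^(11/12) + m² ≤ δ p / 8` for `p ≥ p0` (`p (p - 1) ≥ p²/2`, `N² ≥ δ² p² / 64`).
New data: `K' k = (K k).filter (¬ (l k + s ∈ SS P))`, `Z k = X.filter ((par φ z : ZMod p) = l k + s ∧ ¬ ∃ Q Q' ∈ E k, Q ≠ Q' ∧ Col Q Q' z)`, `E' k = E k ∪ Z k`.
- `(Z k).card ≤ 2`: `z ∈ X` is determined by `par φ z ∈ [0, 2p)` (the line and `φ` one of the four), and at most two integers of `[0, 2p)` are in a residue class mod `p`.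
- `N3 (K' k ∪ E' k)`: let `P, Q, R` be distinct collinear points of it. No `z ∈ Z k` among them: a contradiction to `N3 (K k ∪ E k)`. Exactly one, `z`: the others `Q, R ∈ K k ∪ E k`, distinct; if `Q ∈ K k` (or `R`): `l k + s ∈ SS Q` (`κ Q = k`), contradiction to `Q ∈ K' k`;
if both are in `E k`: contradiction to `z ∈ Z k`. Two, `z ≠ z'`, and `Q` not: `Q` is on the line of `z, z'`, which is `ev φ = v`: contradiction to `hv` (`Q ∈ K k`) or `hY` (`Q ∈ E k`). Three: `(Z k).card ≤ 2`. (`Col` is symmetric under permutations: prove this first.)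
- Further sets: those of `hyp W N` (they cover `W`, i.e. `K k \ K' k`), and a singleton for each `z ∈ X` which is in no `Z k`: for `k = (par z - s) / l`, `z` is bad for `k`, so `l k + s ∈ B k`, and there are at most 2 such `z` for each `k`.
So `r' ≤ r + N + Tr W / N² + 2 card {k | l k + s ∈ B k} ≤ r + (δ p / 8 + 1) + 2 * (δ p / 8) ≤ r + δ p` for `p ≥ p0`. Coverage: `P ∈ U` in `K k`: in `K' k` or in `W`; in `E k`: in `E' k`; in `O`. `z ∈ X`: in `Z k` or a singleton. `E' k ⊆ Y ∪ X`.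
-/

set_option autoImplicit false

open scoped Classical

namespace Pool.Agent.H72.NL

private theorem st_col1 {P Q R : Pt} (h : Col P Q R) : Col P R Q := by
  unfold Col at h ⊢
  exact h.symm

private theorem st_col2 {P Q R : Pt} (h : Col P Q R) : Col Q P R := by
  unfold Col at h ⊢
  linear_combination -h

/-- A line through a point off the line `ev φ = v` meets it at most once. -/
private theorem st_uniq {φ : ℤ × ℤ} {v : ℤ} {P Q z z' : Pt} (hQ : Q ≠ P) (hP : ev φ P ≠ v)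
    (hz : ev φ z = v) (hz' : ev φ z' = v) (h : Col P Q z) (h' : Col P Q z') : z = z' := by
  unfold Col at h h'
  unfold ev at hP hz hz'
  have hD : v - (φ.1 * P.1 + φ.2 * P.2) ≠ 0 := sub_ne_zero.2 (Ne.symm hP)
  have hc : (z.1 - P.1) * (z'.2 - P.2) - (z'.1 - P.1) * (z.2 - P.2) = 0 := by
    by_cases h1 : Q.1 - P.1 = 0
    · have h2 : Q.2 - P.2 ≠ 0 := by
        intro h2
        exact hQ (Prod.ext (sub_eq_zero.1 h1) (sub_eq_zero.1 h2))
      have h3 : (Q.2 - P.2) * ((z.1 - P.1) * (z'.2 - P.2) - (z'.1 - P.1) * (z.2 - P.2)) = 0 := by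
        linear_combination (-(z'.2 - P.2)) * h + (z.2 - P.2) * h'
      exact (mul_eq_zero.1 h3).resolve_left h2
    · have h3 : (Q.1 - P.1) * ((z.1 - P.1) * (z'.2 - P.2) - (z'.1 - P.1) * (z.2 - P.2)) = 0 := by
        linear_combination (z.1 - P.1) * h' - (z'.1 - P.1) * h
      exact (mul_eq_zero.1 h3).resolve_left h1
  have e1 : (v - (φ.1 * P.1 + φ.2 * P.2)) * (z.1 - z'.1) = 0 := by
    linear_combination φ.2 * hc + (z.1 - P.1) * (-hz') + (z'.1 - P.1) * hz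
  have e2 : (v - (φ.1 * P.1 + φ.2 * P.2)) * (z.2 - z'.2) = 0 := by
    linear_combination (-φ.1) * hc + (z.2 - P.2) * (-hz') + (z'.2 - P.2) * hz
  exact Prod.ext (sub_eq_zero.1 ((mul_eq_zero.1 e1).resolve_left hD))
    (sub_eq_zero.1 ((mul_eq_zero.1 e2).resolve_left hD))

/-- A point collinear with two points of the line is on the line. -/
private theorem st_two {φ : ℤ × ℤ} {v : ℤ} {z z' Q : Pt} (hne : z' ≠ z) (hz : ev φ z = v)
    (hz' : ev φ z' = v) (h : Col z z' Q) : ev φ Q = v := by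
  unfold Col at h
  unfold ev at hz hz' ⊢
  by_cases h1 : z'.1 - z.1 = 0
  · have h2 : z'.2 - z.2 ≠ 0 := by
      intro h2
      exact hne (Prod.ext (sub_eq_zero.1 h1) (sub_eq_zero.1 h2))
    have h3 : (z'.2 - z.2) * (φ.1 * Q.1 + φ.2 * Q.2 - v) = 0 := by
      linear_combination (-φ.1) * h + (Q.2 - z.2) * (hz' - hz) + (z'.2 - z.2) * hz
    exact sub_eq_zero.1 ((mul_eq_zero.1 h3).resolve_left h2)
  · have h3 : (z'.1 - z.1) * (φ.1 * Q.1 + φ.2 * Q.2 - v) = 0 := by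
      linear_combination φ.2 * h + (Q.1 - z.1) * (hz' - hz) + (z'.1 - z.1) * hz
    exact sub_eq_zero.1 ((mul_eq_zero.1 h3).resolve_left h1)

private theorem st_par {φ : ℤ × ℤ} (hφ : IsDir φ) {z z' : Pt} (h : ev φ z = ev φ z')
    (h' : par φ z = par φ z') : z = z' := by
  unfold ev at h
  unfold par at h'
  rcases hφ with rfl | rfl | rfl | rfl <;> simp at h h' <;>
    exact Prod.ext (by omega) (by omega)

private theorem st_fib {p : ℕ} {φ : ℤ × ℤ} (hφ : IsDir φ) {v : ℤ} {X : Finset Pt}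
    (hX : ∀ P ∈ X, P ∈ bd (2 * p) ∧ ev φ P = v) (t : ZMod p) :
    (X.filter fun z => ((par φ z : ℤ) : ZMod p) = t).card ≤ 2 := by
  by_contra hlt
  rw [not_le, Finset.two_lt_card_iff] at hlt
  obtain ⟨x, y, z, hx, hy, hz, h1, h2, h3⟩ := hlt
  rw [Finset.mem_filter] at hx hy hz
  have hr : ∀ w ∈ X, 0 ≤ par φ w ∧ par φ w < 2 * p := by
    intro w hw
    have h := mem_bd.1 (hX w hw).1
    push_cast at h
    unfold par
    split_ifs
    · exact h.2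
    · exact h.1
  have hne : ∀ w ∈ X, ∀ w' ∈ X, w ≠ w' → ((par φ w : ℤ) : ZMod p) = t →
      ((par φ w' : ℤ) : ZMod p) = t → par φ w - par φ w' = p ∨ par φ w' - par φ w = p := by
    intro w hw w' hw' hn e e'
    have h4 : ((par φ w - par φ w' : ℤ) : ZMod p) = 0 := by
      push_cast
      rw [e, e', sub_self]
    rw [ZMod.intCast_zmod_eq_zero_iff_dvd] at h4
    obtain ⟨q, hq⟩ := h4
    have h5 : par φ w ≠ par φ w' := fun h => hn (st_par hφ ((hX w hw).2.trans (hX w' hw').2.symm) h)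
    obtain ⟨a1, a2⟩ := hr w hw
    obtain ⟨b1, b2⟩ := hr w' hw'
    have hp : (0 : ℤ) < p := by omega
    have q1 : q < 2 := by
      by_contra hc
      rw [not_lt] at hc
      nlinarith
    have q2 : -2 < q := by
      by_contra hc
      rw [not_lt] at hc
      nlinarith
    have q3 : q ≠ 0 := by
      rintro rfl
      rw [mul_zero] at hq
      omega
    have q4 : q = 1 ∨ q = -1 := by omega
    rcases q4 with rfl | rfl
    · left
      linarith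
    · right
      linarith
  have hp : (0 : ℤ) < p := by
    have := hr x hx.1
    omega
  have k1 := hne x hx.1 y hy.1 h1 hx.2 hy.2
  have k2 := hne x hx.1 z hz.1 h2 hx.2 hz.2
  have k3 := hne y hy.1 z hz.1 h3 hy.2 hz.2
  omega

private theorem st_num (C δ : ℝ) (hC : 0 < C) (hδ : 0 < δ) (m : ℕ) :
    ∃ p0 : ℕ, ∀ p : ℕ, p0 ≤ p → 3 ≤ p ∧ 1 ≤ δ * p / 2 ∧
      3 * (C * (p : ℝ) ^ (59 / 12 : ℝ)) / ((⌈δ * p / 8⌉₊ : ℝ) ^ 2 * (p * (p - 1))) +
        ((m ^ 2 : ℕ) : ℝ) ≤ δ * p / 8 := by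
  have hcast : Filter.Tendsto (fun n : ℕ => (n : ℝ)) Filter.atTop Filter.atTop :=
    tendsto_natCast_atTop_atTop
  have t1 : ∀ᶠ n : ℕ in Filter.atTop, 16 * (384 * C / δ ^ 2) / δ ≤ (n : ℝ) ^ (1 / 12 : ℝ) :=
    ((tendsto_rpow_atTop (by norm_num : (0 : ℝ) < 1 / 12)).comp hcast).eventually_ge_atTop _
  have t2 : ∀ᶠ n : ℕ in Filter.atTop, 16 * ((m ^ 2 : ℕ) : ℝ) / δ + 2 / δ ≤ (n : ℝ) :=
    hcast.eventually_ge_atTop _
  have t3 : ∀ᶠ n : ℕ in Filter.atTop, 3 ≤ n := Filter.eventually_ge_atTop 3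
  obtain ⟨p0, h0⟩ := Filter.eventually_atTop.1 (t1.and (t2.and t3))
  refine ⟨p0, fun p hp => ?_⟩
  obtain ⟨h1, h2, h3⟩ := h0 p hp
  have hx3 : (3 : ℝ) ≤ p := by exact_mod_cast h3
  obtain ⟨x, hx⟩ : ∃ x : ℝ, x = (p : ℝ) := ⟨_, rfl⟩
  rw [← hx] at h1 h2 hx3 ⊢
  have hx0 : 0 < x := by linarith
  have hm0 : (0 : ℝ) ≤ 16 * ((m ^ 2 : ℕ) : ℝ) / δ := by positivity
  have h2δ : 0 < 2 / δ := by positivity
  have g1 : 1 ≤ δ * x / 2 := by
    have h4 : 2 / δ ≤ x := by linarith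
    rw [div_le_iff₀ hδ] at h4
    linarith
  have g2 : ((m ^ 2 : ℕ) : ℝ) ≤ δ * x / 16 := by
    have h4 : 16 * ((m ^ 2 : ℕ) : ℝ) / δ ≤ x := by linarith
    rw [div_le_iff₀ hδ] at h4
    linarith
  have g3 : 384 * C / δ ^ 2 * x ^ (11 / 12 : ℝ) ≤ δ * x / 16 := by
    rw [div_le_iff₀ hδ] at h1
    have e : x ^ (1 / 12 : ℝ) * x ^ (11 / 12 : ℝ) = x := by
      rw [← Real.rpow_add hx0]
      norm_num
    have h5 : 384 * C / δ ^ 2 ≤ δ / 16 * x ^ (1 / 12 : ℝ) := by linarith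
    calc 384 * C / δ ^ 2 * x ^ (11 / 12 : ℝ)
        ≤ δ / 16 * x ^ (1 / 12 : ℝ) * x ^ (11 / 12 : ℝ) :=
          mul_le_mul_of_nonneg_right h5 (Real.rpow_nonneg hx0.le _)
      _ = δ * x / 16 := by
          rw [mul_assoc, e]
          ring
  have g4 : 3 * (C * x ^ (59 / 12 : ℝ)) / ((⌈δ * x / 8⌉₊ : ℝ) ^ 2 * (x * (x - 1))) ≤
      384 * C / δ ^ 2 * x ^ (11 / 12 : ℝ) := by
    have hN : δ * x / 8 ≤ (⌈δ * x / 8⌉₊ : ℝ) := Nat.le_ceil _
    have hN2 : (δ * x / 8) ^ 2 ≤ (⌈δ * x / 8⌉₊ : ℝ) ^ 2 := by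
      apply pow_le_pow_left₀ (by positivity) hN
    have hxx : x ^ 2 / 2 ≤ x * (x - 1) := by nlinarith
    have hden : δ ^ 2 * x ^ 4 / 128 ≤ (⌈δ * x / 8⌉₊ : ℝ) ^ 2 * (x * (x - 1)) := by
      calc δ ^ 2 * x ^ 4 / 128 = (δ * x / 8) ^ 2 * (x ^ 2 / 2) := by ring
        _ ≤ _ := mul_le_mul hN2 hxx (by positivity) (by positivity)
    have hden0 : 0 < δ ^ 2 * x ^ 4 / 128 := by positivity
    have e : x ^ (59 / 12 : ℝ) = x ^ 4 * x ^ (11 / 12 : ℝ) := by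
      rw [← Real.rpow_natCast x 4, ← Real.rpow_add hx0]
      norm_num
    calc 3 * (C * x ^ (59 / 12 : ℝ)) / ((⌈δ * x / 8⌉₊ : ℝ) ^ 2 * (x * (x - 1)))
        ≤ 3 * (C * x ^ (59 / 12 : ℝ)) / (δ ^ 2 * x ^ 4 / 128) :=
          div_le_div_of_nonneg_left (by positivity) hden0 hden
      _ = 384 * C / δ ^ 2 * x ^ (11 / 12 : ℝ) := by
          rw [e]
          field_simp
          ring
  exact ⟨h3, g1, by linarith⟩

private theorem st_mono {S T : Finset Pt} (h : T ⊆ S) (hS : N3 S) : N3 T :=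
  fun P hP Q hQ R hR => hS P (h hP) Q (h hQ) R (h hR)

private theorem st_card1 {p : ℕ} {φ : ℤ × ℤ} {v : ℤ} {X : Finset Pt}
    (hX : ∀ P ∈ X, P ∈ bd (2 * p) ∧ ev φ P = v) {P : Pt} (hP : ev φ P ≠ v) {T : Finset Pt}
    {S : Finset (ZMod p)}
    (hS : ∀ t ∈ S, ∃ z ∈ X, ((par φ z : ℤ) : ZMod p) = t ∧ ∃ Q ∈ T, Q ≠ P ∧ Col P Q z) :
    S.card ≤ (T.filter fun Q => Q ≠ P ∧ ∃ z ∈ bd (2 * p), ev φ z = v ∧ Col P Q z).card := by
  refine Finset.card_le_card_of_forall_subsingleton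
    (fun t Q => ∃ z ∈ X, ((par φ z : ℤ) : ZMod p) = t ∧ Col P Q z) ?_ ?_
  · intro t ht
    obtain ⟨z, hz, h1, Q, hQ, h2, h3⟩ := hS t ht
    exact ⟨Q, (@Finset.mem_filter _ _ (_) _ _).2 ⟨hQ, h2, z, (hX z hz).1, (hX z hz).2, h3⟩,
      z, hz, h1, h3⟩
  · intro Q hQ t ht t' ht'
    obtain ⟨-, z, hz, h1, h2⟩ := ht
    obtain ⟨-, z', hz', h1', h2'⟩ := ht'
    have hQP := ((@Finset.mem_filter _ _ (_) _ _).1 hQ).2.1
    rw [← h1, ← h1', st_uniq hQP hP (hX z hz).2 (hX z' hz').2 h2 h2']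

private theorem st_card2 {p : ℕ} {φ : ℤ × ℤ} {v : ℤ} {X : Finset Pt}
    (hX : ∀ P ∈ X, P ∈ bd (2 * p) ∧ ev φ P = v) {T : Finset Pt} (hT : ∀ P ∈ T, ev φ P ≠ v) {m : ℕ}
    (hm : T.card ≤ m) {S : Finset (ZMod p)}
    (hS : ∀ t ∈ S, ∃ z ∈ X, ((par φ z : ℤ) : ZMod p) = t ∧
      ∃ Q ∈ T, ∃ Q' ∈ T, Q ≠ Q' ∧ Col Q Q' z) : S.card ≤ m ^ 2 := by
  have h : S.card ≤ (T ×ˢ T).card := by
    refine Finset.card_le_card_of_forall_subsingleton
      (fun t y => ∃ z ∈ X, ((par φ z : ℤ) : ZMod p) = t ∧ y.1 ≠ y.2 ∧ Col y.1 y.2 z) ?_ ?_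
    · intro t ht
      obtain ⟨z, hz, h1, Q, hQ, Q', hQ', h2, h3⟩ := hS t ht
      exact ⟨(Q, Q'), Finset.mem_product.2 ⟨hQ, hQ'⟩, z, hz, h1, h2, h3⟩
    · intro y hy t ht t' ht'
      obtain ⟨-, z, hz, h1, h0, h2⟩ := ht
      obtain ⟨-, z', hz', h1', -, h2'⟩ := ht'
      rw [← h1, ← h1', st_uniq (Ne.symm h0) (hT _ (Finset.mem_product.1 hy).1) (hX z hz).2
        (hX z' hz').2 h2 h2']
  refine h.trans ?_
  rw [Finset.card_product, sq]
  exact Nat.mul_le_mul hm hm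

private theorem st_cov {p : ℕ} {A : ZMod p → Finset Pt} {Y U : Finset Pt} {m : ℕ} {ι : Type}
    [Fintype ι] {n : ℕ} (hn : Fintype.card ι = n) (K E : ZMod p → Finset Pt) (O : ι → Finset Pt)
    (h1 : ∀ k, K k ⊆ A k) (h2 : ∀ k, E k ⊆ Y) (h3 : ∀ k, (E k).card ≤ m)
    (h4 : ∀ k, N3 (K k ∪ E k)) (h5 : ∀ j, N3 (O j))
    (h6 : ∀ P ∈ U, (∃ k, P ∈ K k ∪ E k) ∨ ∃ j, P ∈ O j) : Cov p A Y U m n := by
  subst hn
  refine ⟨K, E, fun j => O ((Fintype.equivFin ι).symm j), h1, h2, h3, h4, fun j => h5 _,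
    fun P hP => (h6 P hP).imp (fun h => h) ?_⟩
  rintro ⟨j, hj⟩
  refine ⟨Fintype.equivFin ι j, ?_⟩
  change P ∈ O ((Fintype.equivFin ι).symm (Fintype.equivFin ι j))
  rw [Equiv.symm_apply_apply]
  exact hj

theorem step (δ : ℝ) (hδ : 0 < δ) (m : ℕ) : ∃ p0 : ℕ, ∀ (p : ℕ) [Fact p.Prime], p0 ≤ p → ∀ {c : ZMod p × ZMod p}
    {A : ZMod p → Finset Pt}, IsA p c A → ∀ {φ : ℤ × ℤ}, IsDir φ → ∀ {v : ℤ}, |v| ≤ 4 * p →
    (∀ k, ∀ P ∈ A k, ev φ P ≠ v) → ∀ {Y U X : Finset Pt} {r : ℕ}, (∀ P ∈ Y, ev φ P ≠ v) →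
    (∀ P ∈ X, P ∈ bd (2 * p) ∧ ev φ P = v) → Cov p A Y U m r →
    ∃ r' : ℕ, (r' : ℝ) ≤ r + δ * p ∧ Cov p A (Y ∪ X) (U ∪ X) (m + 2) r' := by
  obtain ⟨C, hC, hb'⟩ := hb m
  obtain ⟨p0, h0⟩ := st_num C δ hC hδ m
  refine ⟨p0, fun p _ hp c A hA φ hφ v hv4 hv Y U X r hY hX hCov => ?_⟩
  obtain ⟨hp3, hδ1, hnum⟩ := h0 p hp
  obtain ⟨K, E, O, hK, hE, hEm, hKE, hO, hU⟩ := hCov
  have hκ : ∀ k, ∀ P ∈ K k, Fp c P = k := fun k P hP => (hA.val k P (hK k hP)).1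
  obtain ⟨V, hV⟩ : ∃ V, V = Finset.univ.biUnion K := ⟨_, rfl⟩
  have mV : ∀ P, P ∈ V ↔ ∃ k, P ∈ K k := by
    intro P
    rw [hV, Finset.mem_biUnion]
    exact ⟨fun ⟨k, _, h⟩ => ⟨k, h⟩, fun ⟨k, h⟩ => ⟨k, Finset.mem_univ k, h⟩⟩
  have hVA : V ⊆ Finset.univ.biUnion A := by
    intro P hP
    obtain ⟨k, hk⟩ := (mV P).1 hP
    exact Finset.mem_biUnion.2 ⟨k, Finset.mem_univ k, hK k hk⟩
  have hVB : V ⊆ bd (2 * p) := by
    intro P hP
    obtain ⟨k, hk⟩ := (mV P).1 hP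
    exact hA.sub k (hK k hk)
  have mVK : ∀ P ∈ V, P ∈ K (Fp c P) := by
    intro P hP
    obtain ⟨k, hk⟩ := (mV P).1 hP
    rw [hκ k P hk]
    exact hk
  have hfil : ∀ k, (V.filter fun P => Fp c P = k) = K k := by
    intro k
    ext P
    rw [Finset.mem_filter]
    constructor
    · rintro ⟨h1, rfl⟩
      exact mVK P h1
    · intro h
      exact ⟨(mV P).2 ⟨k, h⟩, hκ k P h⟩
  have hN3V : ∀ k, N3 (V.filter fun P => Fp c P = k) := by
    intro k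
    rw [hfil]
    exact st_mono Finset.subset_union_left (hKE k)
  -- the forbidden values
  obtain ⟨SS, hSS⟩ : ∃ SS : Pt → Finset (ZMod p), ∀ P t, t ∈ SS P ↔
      ∃ z ∈ X, ((par φ z : ℤ) : ZMod p) = t ∧ ∃ Q ∈ K (Fp c P) ∪ E (Fp c P), Q ≠ P ∧ Col P Q z :=
    ⟨fun P => Finset.univ.filter fun t => ∃ z ∈ X, ((par φ z : ℤ) : ZMod p) = t ∧
      ∃ Q ∈ K (Fp c P) ∪ E (Fp c P), Q ≠ P ∧ Col P Q z, fun P t => by
        rw [Finset.mem_filter]
        exact ⟨fun h => h.2, fun h => ⟨Finset.mem_univ t, h⟩⟩⟩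
  have hcard : ∀ P ∈ V, (SS P).card ≤ sP p φ v (A (Fp c P)) P + m := by
    intro P hP
    have h1 := st_card1 hX (hv _ P (hK _ (mVK P hP))) (fun t ht => (hSS P t).1 ht)
    refine h1.trans ?_
    have h2 : ((K (Fp c P) ∪ E (Fp c P)).filter fun Q => Q ≠ P ∧
        ∃ z ∈ bd (2 * p), ev φ z = v ∧ Col P Q z) ⊆
        ((A (Fp c P)).filter fun Q => Q ≠ P ∧ ∃ z ∈ bd (2 * p), ev φ z = v ∧ Col P Q z) ∪
          E (Fp c P) := by
      intro Q hQ
      have hQ' := (@Finset.mem_filter _ _ (_) _ _).1 hQ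
      rcases Finset.mem_union.1 hQ'.1 with h | h
      · exact Finset.mem_union_left _ ((@Finset.mem_filter _ _ (_) _ _).2 ⟨hK _ h, hQ'.2⟩)
      · exact Finset.mem_union_right _ h
    refine (Finset.card_le_card h2).trans ((Finset.card_union_le _ _).trans ?_)
    exact Nat.add_le_add_left (hEm _) _
  obtain ⟨B, hB⟩ : ∃ B : ZMod p → Finset (ZMod p), ∀ k t, t ∈ B k ↔
      ∃ z ∈ X, ((par φ z : ℤ) : ZMod p) = t ∧ ∃ Q ∈ E k, ∃ Q' ∈ E k, Q ≠ Q' ∧ Col Q Q' z :=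
    ⟨fun k => Finset.univ.filter fun t => ∃ z ∈ X, ((par φ z : ℤ) : ZMod p) = t ∧
      ∃ Q ∈ E k, ∃ Q' ∈ E k, Q ≠ Q' ∧ Col Q Q' z, fun P t => by
        rw [Finset.mem_filter]
        exact ⟨fun h => h.2, fun h => ⟨Finset.mem_univ t, h⟩⟩⟩
  have hBm : ∀ k, (B k).card ≤ m ^ 2 := fun k =>
    st_card2 hX (fun P hP => hY P (hE k hP)) (hEm k) (fun t ht => (hB k t).1 ht)
  obtain ⟨N, hNd⟩ : ∃ N, N = ⌈δ * p / 8⌉₊ := ⟨_, rfl⟩
  have hp0 : (0 : ℝ) < p := by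
    have : 0 < p := by omega
    exact_mod_cast this
  have hN : 0 < N := by
    rw [hNd]
    exact Nat.ceil_pos.2 (by positivity)
  have hNle : (N : ℝ) ≤ δ * p / 8 + 1 := by
    rw [hNd]
    exact (Nat.ceil_lt_add_one (by positivity)).le
  obtain ⟨l, s, hl, hls⟩ := avg (κ := Fp c) hVB hN3V (SS := SS)
    (H := C * (p : ℝ) ^ (59 / 12 : ℝ))
    (hb' p hp3 hA hφ hv4 hv hVA (n := fun P => (SS P).card) hcard) (B := B) (b := m ^ 2) hBm hN
  rw [← hNd] at hnum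
  have hls2 := hls.trans hnum
  obtain ⟨W, hW⟩ : ∃ W, W = V.filter fun P => l * Fp c P + s ∈ SS P := ⟨_, rfl⟩
  rw [← hW] at hls2
  obtain ⟨r1, O1, hr1, hO1, hcov1⟩ := hyp W N hN
  obtain ⟨K', hK'⟩ : ∃ K' : ZMod p → Finset Pt, ∀ k P, P ∈ K' k ↔ P ∈ K k ∧ l * k + s ∉ SS P :=
    ⟨fun k => (K k).filter fun P => l * k + s ∉ SS P, fun k P => Finset.mem_filter⟩
  obtain ⟨Z, hZ⟩ : ∃ Z : ZMod p → Finset Pt, ∀ k z, z ∈ Z k ↔ z ∈ X ∧
      ((par φ z : ℤ) : ZMod p) = l * k + s ∧ ¬ ∃ Q ∈ E k, ∃ Q' ∈ E k, Q ≠ Q' ∧ Col Q Q' z :=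
    ⟨fun k => X.filter fun z => ((par φ z : ℤ) : ZMod p) = l * k + s ∧
      ¬ ∃ Q ∈ E k, ∃ Q' ∈ E k, Q ≠ Q' ∧ Col Q Q' z, fun k P => Finset.mem_filter⟩
  have hZ2 : ∀ k, (Z k).card ≤ 2 := by
    intro k
    refine (Finset.card_le_card ?_).trans (st_fib hφ hX (l * k + s))
    intro z hz
    obtain ⟨h1, h2, -⟩ := (hZ k z).1 hz
    exact Finset.mem_filter.2 ⟨h1, h2⟩
  have hnew : ∀ k, N3 (K' k ∪ (E k ∪ Z k)) := by
    intro k
    have old : ∀ P ∈ K' k ∪ E k, P ∈ K k ∪ E k ∧ ev φ P ≠ v := by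
      intro P hP
      rcases Finset.mem_union.1 hP with h | h
      · have h1 := ((hK' k P).1 h).1
        exact ⟨Finset.mem_union_left _ h1, hv k P (hK k h1)⟩
      · exact ⟨Finset.mem_union_right _ h, hY P (hE k h)⟩
    have one : ∀ z ∈ Z k, ∀ Q ∈ K' k ∪ E k, ∀ R ∈ K' k ∪ E k, Q ≠ R → ¬ Col Q R z := by
      have key : ∀ z ∈ Z k, ∀ Q ∈ K' k, ∀ R ∈ K' k ∪ E k, R ≠ Q → ¬ Col Q R z := by
        intro z hz Q hQ R hR hne hcol
        obtain ⟨h1, h2, -⟩ := (hZ k z).1 hz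
        obtain ⟨h3, h4⟩ := (hK' k Q).1 hQ
        apply h4
        rw [hSS]
        refine ⟨z, h1, h2, R, ?_, hne, hcol⟩
        rw [hκ k Q h3]
        exact (old R hR).1
      intro z hz Q hQ R hR hne hcol
      rcases Finset.mem_union.1 hQ with h | h
      · exact key z hz Q h R hR (Ne.symm hne) hcol
      · rcases Finset.mem_union.1 hR with h' | h'
        · exact key z hz R h' Q hQ hne (st_col2 hcol)
        · exact ((hZ k z).1 hz).2.2 ⟨Q, h, R, h', hne, hcol⟩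
    have two : ∀ z ∈ Z k, ∀ z' ∈ Z k, z ≠ z' → ∀ Q ∈ K' k ∪ E k, ¬ Col z z' Q := by
      intro z hz z' hz' hne Q hQ hcol
      exact (old Q hQ).2 (st_two (Ne.symm hne) (hX z ((hZ k z).1 hz).1).2
        (hX z' ((hZ k z').1 hz').1).2 hcol)
    intro P hP Q hQ R hR h1 h2 h3 h
    have hm : ∀ T ∈ K' k ∪ (E k ∪ Z k), T ∈ K' k ∪ E k ∨ T ∈ Z k := by
      intro T hT
      rw [← Finset.union_assoc] at hT
      exact Finset.mem_union.1 hT
    rcases hm P hP with a | a <;> rcases hm Q hQ with b | b <;> rcases hm R hR with d | d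
    · exact hKE k P (old P a).1 Q (old Q b).1 R (old R d).1 h1 h2 h3 h
    · exact one R d P a Q b h1 h
    · exact one Q b P a R d h2 (st_col1 h)
    · exact two Q b R d h3 P a (st_col1 (st_col2 h))
    · exact one P a Q b R d h3 (st_col1 (st_col2 h))
    · exact two P a R d h2 Q b (st_col1 h)
    · exact two P a Q b h1 R d h
    · exact absurd (hZ2 k) (not_le.2 (Finset.two_lt_card_iff.2 ⟨P, Q, R, a, b, d, h1, h2, h3⟩))
  obtain ⟨X', hX'⟩ : ∃ X', X' = X.filter fun z => ∀ k, z ∉ Z k := ⟨_, rfl⟩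
  have hX'c : X'.card ≤ 2 * (Finset.univ.filter fun k : ZMod p => l * k + s ∈ B k).card := by
    obtain ⟨g, hg⟩ : ∃ g : Pt → ZMod p, ∀ z, g z = (((par φ z : ℤ) : ZMod p) - s) / l :=
      ⟨_, fun _ => rfl⟩
    have hgl : ∀ z, l * g z + s = ((par φ z : ℤ) : ZMod p) := by
      intro z
      rw [hg, mul_div_cancel₀ _ hl, sub_add_cancel]
    have hmap : ∀ z ∈ X', g z ∈ Finset.univ.filter fun k : ZMod p => l * k + s ∈ B k := by
      intro z hz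
      rw [hX', Finset.mem_filter] at hz
      rw [Finset.mem_filter]
      refine ⟨Finset.mem_univ _, ?_⟩
      rw [hB, hgl]
      refine ⟨z, hz.1, rfl, ?_⟩
      have h1 := hz.2 (g z)
      rw [hZ, hgl] at h1
      by_contra h2
      exact h1 ⟨hz.1, rfl, h2⟩
    refine Finset.card_le_mul_card_image_of_maps_to hmap 2 fun k _ => ?_
    refine (Finset.card_le_card ?_).trans (st_fib hφ hX (l * k + s))
    intro z hz
    obtain ⟨h1, h2⟩ := Finset.mem_filter.1 hz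
    rw [hX', Finset.mem_filter] at h1
    refine Finset.mem_filter.2 ⟨h1.1, ?_⟩
    rw [← h2, hgl]
  refine ⟨r + (r1 + X'.card), ?_, ?_⟩
  · have h1 : (X'.card : ℝ) ≤
        2 * ((Finset.univ.filter fun k : ZMod p => l * k + s ∈ B k).card : ℝ) := by
      exact_mod_cast hX'c
    have h2 : (0 : ℝ) ≤ (Tr W : ℝ) / (N : ℝ) ^ 2 := by positivity
    push_cast
    linarith
  · refine st_cov (ι := Fin r ⊕ Fin r1 ⊕ {z // z ∈ X'}) ?_ K' (fun k => E k ∪ Z k)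
      (Sum.elim O (Sum.elim O1 fun z => {z.1})) ?_ ?_ ?_ hnew ?_ ?_
    · rw [Fintype.card_sum, Fintype.card_sum, Fintype.card_fin, Fintype.card_fin,
        Fintype.card_coe]
    · intro k P hP
      exact hK k ((hK' k P).1 hP).1
    · intro k P hP
      rcases Finset.mem_union.1 hP with h | h
      · exact Finset.mem_union_left _ (hE k h)
      · exact Finset.mem_union_right _ ((hZ k P).1 h).1
    · intro k
      exact (Finset.card_union_le _ _).trans (Nat.add_le_add (hEm k) (hZ2 k))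
    · rintro (j | j | z)
      · exact hO j
      · exact hO1 j
      · intro P hP Q hQ R hR h1
        rw [Sum.elim_inr, Sum.elim_inr, Finset.mem_singleton] at hP hQ
        exact absurd (hP.trans hQ.symm) h1
    · intro P hP
      rcases Finset.mem_union.1 hP with h | h
      · rcases hU P h with ⟨k, hk⟩ | ⟨j, hj⟩
        · rcases Finset.mem_union.1 hk with h' | h'
          · by_cases hs : l * k + s ∈ SS P
            · have hPW : P ∈ W := by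
                rw [hW, Finset.mem_filter]
                refine ⟨(mV P).2 ⟨k, h'⟩, ?_⟩
                rw [hκ k P h']
                exact hs
              obtain ⟨j, hj⟩ := hcov1 P hPW
              exact Or.inr ⟨Sum.inr (Sum.inl j), hj⟩
            · exact Or.inl ⟨k, Finset.mem_union_left _ ((hK' k P).2 ⟨h', hs⟩)⟩
          · exact Or.inl ⟨k, Finset.mem_union_right _ (Finset.mem_union_left _ h')⟩
        · exact Or.inr ⟨Sum.inl j, hj⟩
      · by_cases hz : ∃ k, P ∈ Z k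
        · obtain ⟨k, hk⟩ := hz
          exact Or.inl ⟨k, Finset.mem_union_right _ (Finset.mem_union_right _ hk)⟩
        · have hP' : P ∈ X' := by
            rw [hX', Finset.mem_filter]
            exact ⟨h, fun k hk => hz ⟨k, hk⟩⟩
          exact Or.inr ⟨Sum.inr (Sum.inr ⟨P, hP'⟩), Finset.mem_singleton_self P⟩

end Pool.Agent.H72.NL
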