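import Pool.Agent.H72.NL.Prim

/-!
ROW SumCol (MP_1efb31_NL, about 80 lines). The number of pairs of points collinear with a given one.

PROOF. Let `z = (Q, R)` be a pair as in the filter. By `exists_prim`: `Q = P + i e`, `R = P + j e`, `i, j ≠ 0`, `e ≠ 0`; as `P, Q, R` are on the board `[0, 2p)²`: `|i| nm e < 2p`, `|j| nm e < 2p` (so `nm e < 2p` too). The map `(e, i, j) ↦ (Q, R)` is onto the
set of pairs, so the number of pairs is at most the number of `(e, i, j)` with `e ≠ 0`, `nm e ≤ 2p`, `|i|, |j| ≤ 2p / nm e`: at most `∑_e (4p / nm e + 1)^2 ≤ ∑_e (6p / nm e)^2 = 36 p^2 ∑_e 1 / (nm e)^2` (`nm e ≤ 2p`; the integers `i` with `|i| ≤ x` are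
at most `2x + 1`), and `sum_box (2p)`: `≤ 36 * 8 p^2 (1 + log (2p)) ≤ 1000 p^2 (1 + log p)` (`log 2 ≤ 1`).
`Finset.card_le_card_of_surjOn` or `card_image_le` for a `Finset.sigma`/`biUnion` over `e`.
-/

set_option autoImplicit false

open scoped Classical

namespace Pool.Agent.H72.NL

private lemma SumCol_nm {e : Pt} {k : ℤ} {N : ℕ} {P Q : Pt} (hP : P ∈ bd N) (hQ : Q ∈ bd N)
    (h : Q = (P.1 + k * e.1, P.2 + k * e.2)) : k.natAbs * nm e ≤ N := by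
  rw [mem_bd] at hP hQ
  rw [h] at hQ
  simp only at hQ
  obtain ⟨⟨a1, a2⟩, a3, a4⟩ := hP
  obtain ⟨⟨b1, b2⟩, b3, b4⟩ := hQ
  have h1 : k.natAbs * e.1.natAbs ≤ N := by
    rw [← Int.natAbs_mul]
    obtain ⟨t, ht⟩ : ∃ t, t = k * e.1 := ⟨_, rfl⟩
    rw [← ht] at b1 b2 ⊢
    omega
  have h2 : k.natAbs * e.2.natAbs ≤ N := by
    rw [← Int.natAbs_mul]
    obtain ⟨t, ht⟩ : ∃ t, t = k * e.2 := ⟨_, rfl⟩
    rw [← ht] at b3 b4 ⊢
    omega
  unfold nm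
  rcases max_choice e.1.natAbs e.2.natAbs with h3 | h3
  · rw [h3]; exact h1
  · rw [h3]; exact h2

private lemma SumCol_pos {e : Pt} (he : e ≠ (0, 0)) : 0 < nm e := by
  rcases Nat.eq_zero_or_pos (nm e) with h | h
  · exfalso
    unfold nm at h
    exact he (Prod.ext (by omega) (by omega))
  · exact h

private lemma SumCol_mem {k : ℤ} {N m : ℕ} (hm : 0 < m) (h : k.natAbs * m ≤ N) :
    k ∈ Finset.Icc (-((N / m : ℕ) : ℤ)) ((N / m : ℕ) : ℤ) := by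
  have h1 : k.natAbs ≤ N / m := (Nat.le_div_iff_mul_le hm).2 h
  rw [Finset.mem_Icc]
  omega

/-- the box without the origin -/
private noncomputable def SumCol_B (N : ℕ) : Finset Pt :=
  (Finset.Icc (-(N : ℤ)) N ×ˢ Finset.Icc (-(N : ℤ)) N).filter (fun e => e ≠ (0, 0))

private noncomputable def SumCol_T (N : ℕ) : Finset (Σ _ : Pt, ℤ × ℤ) :=
  (SumCol_B N).sigma fun e =>
    Finset.Icc (-((N / nm e : ℕ) : ℤ)) ((N / nm e : ℕ) : ℤ) ×ˢ
      Finset.Icc (-((N / nm e : ℕ) : ℤ)) ((N / nm e : ℕ) : ℤ)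

private lemma SumCol_card (N : ℕ) : (SumCol_T N).card = ∑ e ∈ SumCol_B N, (2 * (N / nm e) + 1) ^ 2 := by
  unfold SumCol_T
  rw [Finset.card_sigma]
  refine Finset.sum_congr rfl fun e _ => ?_
  rw [Finset.card_product, Int.card_Icc]
  obtain ⟨t, ht⟩ : ∃ t : ℕ, t = N / nm e := ⟨_, rfl⟩
  rw [← ht]
  have h1 : ((t : ℤ) + 1 - -(t : ℤ)).toNat = 2 * t + 1 := by omega
  rw [h1]
  ring

private lemma SumCol_sub (N : ℕ) (P : Pt) (hP : P ∈ bd N) :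
    ((bd N ×ˢ bd N).filter fun z => z.1 ≠ P ∧ z.2 ≠ P ∧ Col P z.1 z.2) ⊆
      (SumCol_T N).image (fun t => (((P.1 + t.2.1 * t.1.1, P.2 + t.2.1 * t.1.2) : Pt),
        ((P.1 + t.2.2 * t.1.1, P.2 + t.2.2 * t.1.2) : Pt))) := by
  intro z hz
  rw [Finset.mem_filter, Finset.mem_product] at hz
  obtain ⟨⟨hz1, hz2⟩, hz3, hz4, hz5⟩ := hz
  obtain ⟨e, i, j, hg, hi, hj, h1, h2⟩ := exists_prim hz3 hz4 hz5
  have he : e ≠ (0, 0) := by
    intro h0
    rw [h0] at hg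
    simp at hg
  have hm := SumCol_pos he
  have hi1 := SumCol_nm hP hz1 h1
  have hj1 := SumCol_nm hP hz2 h2
  have hi2 : nm e ≤ N := by
    have : 1 ≤ i.natAbs := Int.natAbs_pos.2 hi
    nlinarith
  rw [Finset.mem_image]
  refine ⟨⟨e, (i, j)⟩, ?_, ?_⟩
  · unfold SumCol_T
    rw [Finset.mem_sigma]
    refine ⟨?_, ?_⟩
    · unfold SumCol_B
      rw [Finset.mem_filter, Finset.mem_product, Finset.mem_Icc, Finset.mem_Icc]
      refine ⟨?_, he⟩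
      unfold nm at hi2
      change (-(N : ℤ) ≤ e.1 ∧ e.1 ≤ N) ∧ -(N : ℤ) ≤ e.2 ∧ e.2 ≤ N
      clear hi1 hj1
      omega
    · rw [Finset.mem_product]
      exact ⟨SumCol_mem hm hi1, SumCol_mem hm hj1⟩
  · exact Prod.ext h1.symm h2.symm

private lemma SumCol_bound (N : ℕ) (hN : 1 ≤ N) :
    (∑ e ∈ SumCol_B N, ((2 * (N / nm e) + 1) ^ 2 : ℕ) : ℝ) ≤ 9 * (N : ℝ) ^ 2 * (8 * (1 + Real.log N)) := by
  have h1 := sum_box N hN
  have h2 : (∑ e ∈ SumCol_B N, ((2 * (N / nm e) + 1) ^ 2 : ℕ) : ℝ) ≤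
      ∑ e ∈ SumCol_B N, 9 * (N : ℝ) ^ 2 * ((1 : ℝ) / (nm e : ℝ) ^ 2) := by
    refine Finset.sum_le_sum fun e he => ?_
    unfold SumCol_B at he
    rw [Finset.mem_filter, Finset.mem_product, Finset.mem_Icc, Finset.mem_Icc] at he
    have hm := SumCol_pos he.2
    have hm2 : nm e ≤ N := by
      unfold nm
      have := he.1
      omega
    have hm' : (0 : ℝ) < nm e := by exact_mod_cast hm
    have h3 : (((N / nm e : ℕ) : ℝ)) ≤ (N : ℝ) / nm e := Nat.cast_div_le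
    have h4 : (1 : ℝ) ≤ (N : ℝ) / nm e := by
      rw [le_div_iff₀ hm']
      have : (nm e : ℝ) ≤ N := by exact_mod_cast hm2
      linarith
    have h5 : 2 * (((N / nm e : ℕ) : ℝ)) + 1 ≤ 3 * ((N : ℝ) / nm e) := by linarith
    have h6 : (0 : ℝ) ≤ 2 * (((N / nm e : ℕ) : ℝ)) + 1 := by positivity
    have h7 : (2 * (((N / nm e : ℕ) : ℝ)) + 1) ^ 2 ≤ (3 * ((N : ℝ) / nm e)) ^ 2 :=
      pow_le_pow_left₀ h6 h5 2
    have h8 : (3 * ((N : ℝ) / nm e)) ^ 2 = 9 * (N : ℝ) ^ 2 * ((1 : ℝ) / (nm e : ℝ) ^ 2) := by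
      field_simp
      ring
    rw [← h8]
    push_cast
    exact h7
  refine h2.trans ?_
  rw [← Finset.mul_sum]
  refine mul_le_mul_of_nonneg_left ?_ (by positivity)
  unfold SumCol_B
  exact h1

theorem sum_col (p : ℕ) (hp : 2 ≤ p) (P : Pt) (hP : P ∈ bd (2 * p)) :
    (((bd (2 * p) ×ˢ bd (2 * p)).filter fun z => z.1 ≠ P ∧ z.2 ≠ P ∧ Col P z.1 z.2).card : ℝ) ≤
      1000 * (p : ℝ) ^ 2 * (1 + Real.log p) := by
  have h1 := Finset.card_le_card (SumCol_sub (2 * p) P hP)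
  have h2 := h1.trans Finset.card_image_le
  rw [SumCol_card] at h2
  have h3 := SumCol_bound (2 * p) (by omega)
  have h4 : (((bd (2 * p) ×ˢ bd (2 * p)).filter fun z => z.1 ≠ P ∧ z.2 ≠ P ∧ Col P z.1 z.2).card : ℝ) ≤
      (∑ e ∈ SumCol_B (2 * p), ((2 * ((2 * p) / nm e) + 1) ^ 2 : ℕ) : ℝ) := by
    exact_mod_cast h2
  refine h4.trans (h3.trans ?_)
  have hp0 : (0 : ℝ) < p := by exact_mod_cast (by omega : 0 < p)
  have h5 : Real.log ((2 * p : ℕ) : ℝ) = Real.log 2 + Real.log p := by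
    push_cast
    rw [Real.log_mul (by norm_num) hp0.ne']
  have h6 : Real.log 2 ≤ 1 := by
    have := Real.log_two_lt_d9
    linarith
  have h7 : 0 ≤ Real.log (p : ℝ) := Real.log_nonneg (by exact_mod_cast (by omega : 1 ≤ p))
  rw [h5]
  push_cast
  have h8 : (0 : ℝ) ≤ (p : ℝ) ^ 2 := by positivity
  have h9 : 9 * (2 * (p : ℝ)) ^ 2 * (8 * (1 + (Real.log 2 + Real.log p))) =
      288 * (p : ℝ) ^ 2 * (1 + (Real.log 2 + Real.log p)) := by ring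
  rw [h9]
  have h10 : 288 * (1 + (Real.log 2 + Real.log p)) ≤ 1000 * (1 + Real.log p) := by linarith
  calc 288 * (p : ℝ) ^ 2 * (1 + (Real.log 2 + Real.log p))
      = (p : ℝ) ^ 2 * (288 * (1 + (Real.log 2 + Real.log p))) := by ring
    _ ≤ (p : ℝ) ^ 2 * (1000 * (1 + Real.log p)) := mul_le_mul_of_nonneg_left h10 h8
    _ = _ := by ring

/-- the form used later -/
theorem sum_cc (p : ℕ) (hp : 2 ≤ p) (P : Pt) (hP : P ∈ bd (2 * p)) :
    ∑ P' ∈ (bd (2 * p)).filter (fun P' => P' ≠ P), (cc p P P' : ℝ) ≤ 1000 * (p : ℝ) ^ 2 * (1 + Real.log p) := by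
  refine le_trans ?_ (sum_col p hp P hP)
  have h1 : ∑ P' ∈ (bd (2 * p)).filter (fun P' => P' ≠ P), cc p P P' =
      (((bd (2 * p)).filter (fun P' => P' ≠ P)).sigma fun P' =>
        (bd (2 * p)).filter fun R => R ≠ P ∧ R ≠ P' ∧ Col P P' R).card := by
    rw [Finset.card_sigma]
    rfl
  have h2 : ∑ P' ∈ (bd (2 * p)).filter (fun P' => P' ≠ P), cc p P P' ≤
      ((bd (2 * p) ×ˢ bd (2 * p)).filter fun z => z.1 ≠ P ∧ z.2 ≠ P ∧ Col P z.1 z.2).card := by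
    rw [h1]
    refine Finset.card_le_card_of_injOn (fun t => (t.1, t.2)) ?_ ?_
    · intro t ht
      rw [Finset.mem_coe, Finset.mem_sigma, Finset.mem_filter, Finset.mem_filter] at ht
      rw [Finset.mem_coe, Finset.mem_filter, Finset.mem_product]
      exact ⟨⟨ht.1.1, ht.2.1⟩, ht.1.2, ht.2.2.1, ht.2.2.2.2⟩
    · rintro ⟨a, b⟩ _ ⟨c, d⟩ _ h
      simp only [Prod.mk.injEq] at h
      obtain ⟨h1, h2⟩ := h
      subst h1
      subst h2
      rfl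
  exact_mod_cast h2

end Pool.Agent.H72.NL
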